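import Pool.Agent.W2helper4.HJ.Bd

/-!
# The logarithmic singularity at one
-/

set_option autoImplicit false

open Filter Topology Matrix

namespace Pool.Agent.W2helper4.HJ

open Pool.Agent.Y119.HY

lemma log_neg {x : ℝ} (h0 : 0 < x) (h1 : x < 1) : Real.log (1 - x) < 0 := Real.log_neg (by linarith) (by linarith)

lemma hasSum_log {x : ℝ} (h0 : 0 < x) (h1 : x < 1) : HasSum (fun k : ℕ => x ^ k / (k : ℝ)) (-Real.log (1 - x)) := by
  have h := Real.hasSum_pow_div_log_of_abs_lt_one (x := x) (by rw [abs_of_pos h0]; exact h1)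
  have h2 : HasSum (fun k : ℕ => x ^ (k + 1) / ((k + 1 : ℕ) : ℝ)) (-Real.log (1 - x)) := by
    refine h.congr_fun ?_
    intro k
    push_cast
    rfl
  have h3 := (hasSum_nat_add_iff (f := fun k : ℕ => x ^ k / (k : ℝ)) 1).1 h2
  simpa using h3

lemma tendsto_log_one : Tendsto (fun x : ℝ => Real.log (1 - x)) (𝓝[<] 1) atBot := by
  have h1 : Tendsto (fun x : ℝ => 1 - x) (𝓝[<] 1) (𝓝[>] 0) := by
    refine tendsto_nhdsWithin_iff.2 ⟨?_, ?_⟩
    · have : Tendsto (fun x : ℝ => 1 - x) (𝓝 1) (𝓝 (1 - 1)) := tendsto_const_nhds.sub tendsto_id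
      rw [sub_self] at this
      exact this.mono_left nhdsWithin_le_nhds
    · filter_upwards [self_mem_nhdsWithin] with x hx
      rw [Set.mem_Iio] at hx
      rw [Set.mem_Ioi]
      linarith
  exact Real.tendsto_log_nhdsGT_zero.comp h1

lemma ev_Ioo : ∀ᶠ x : ℝ in 𝓝[<] 1, 0 < x ∧ x < 1 := by
  filter_upwards [Ioo_mem_nhdsLT (show (0 : ℝ) < 1 by norm_num)] with x hx
  exact hx

/-- a power series with coefficients `o(1/k)` is `o(log)` -/
lemma abel_zero {b : ℕ → ℂ} (hb : Tendsto (fun k : ℕ => (k : ℂ) * b k) atTop (𝓝 0)) :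
    Tendsto (fun x : ℝ => ps b (x : ℂ) / (Real.log (1 - x) : ℂ)) (𝓝[<] 1) (𝓝 0) := by
  rw [Metric.tendsto_nhds]
  intro ε hε
  obtain ⟨M, hM⟩ := (Metric.tendsto_atTop.1 hb) (ε / 2) (by positivity)
  set Cs : ℝ := ∑ k ∈ Finset.range (M + 1), ‖b k‖ with hCs
  have hCs0 : 0 ≤ Cs := Finset.sum_nonneg fun _ _ => norm_nonneg _
  have h1 : ∀ᶠ x : ℝ in 𝓝[<] 1, Real.log (1 - x) < -(2 * Cs / ε) := tendsto_log_one.eventually (eventually_lt_atBot _)
  filter_upwards [h1, ev_Ioo] with x hx hx01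
  obtain ⟨hx0, hx1⟩ := hx01
  have hs := hasSum_log hx0 hx1
  set L : ℝ := Real.log (1 - x) with hL
  have hLneg : L < 0 := log_neg hx0 hx1
  have hterm : ∀ k : ℕ, ‖b k * (x : ℂ) ^ k‖ ≤ (if k ∈ Finset.range (M + 1) then ‖b k‖ else 0) + ε / 2 * (x ^ k / (k : ℝ)) := by
    intro k
    rw [norm_mul, norm_pow, Complex.norm_real, Real.norm_of_nonneg hx0.le]
    have hxk : x ^ k ≤ 1 := pow_le_one₀ hx0.le hx1.le
    by_cases hk : k ∈ Finset.range (M + 1)
    · rw [if_pos hk]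
      have : 0 ≤ ε / 2 * (x ^ k / (k : ℝ)) := by positivity
      nlinarith [norm_nonneg (b k), mul_le_mul_of_nonneg_left hxk (norm_nonneg (b k))]
    · rw [if_neg hk, zero_add]
      rw [Finset.mem_range, not_lt] at hk
      have hk1 : (0 : ℝ) < k := by
        have : 0 < k := by omega
        exact_mod_cast this
      have h2 := hM k (by omega)
      rw [dist_zero_right, norm_mul, Complex.norm_natCast] at h2
      rw [← mul_div_assoc, le_div_iff₀ hk1]
      have h3 : 0 ≤ x ^ k := by positivity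
      nlinarith
  have hsum : HasSum (fun k : ℕ => (if k ∈ Finset.range (M + 1) then ‖b k‖ else 0) + ε / 2 * (x ^ k / (k : ℝ)))
      (Cs + ε / 2 * (-L)) := by
    refine HasSum.add ?_ (hs.mul_left _)
    have h9 : HasSum (fun k : ℕ => if k ∈ Finset.range (M + 1) then ‖b k‖ else (0:ℝ))
        (∑ k ∈ Finset.range (M + 1), (if k ∈ Finset.range (M + 1) then ‖b k‖ else (0:ℝ))) :=
      hasSum_sum_of_ne_finset_zero (fun k hk => if_neg hk)
    have e : ∑ k ∈ Finset.range (M + 1), (if k ∈ Finset.range (M + 1) then ‖b k‖ else (0:ℝ)) = Cs := by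
      rw [hCs]
      exact Finset.sum_congr rfl fun k hk => if_pos hk
    rwa [e] at h9
  have hle : ‖ps b (x : ℂ)‖ ≤ Cs + ε / 2 * (-L) := by
    unfold ps
    exact tsum_of_norm_bounded hsum hterm
  rw [dist_zero_right, norm_div, Complex.norm_real, Real.norm_of_nonpos hLneg.le, div_lt_iff₀ (by linarith)]
  have h4 : Cs < ε / 2 * (-L) := by
    have h5 : 2 * Cs / ε < -L := by linarith
    rw [div_lt_iff₀ hε] at h5
    linarith
  linarith

/-- a power series with coefficients `~ c / k` is `~ - c log` -/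
lemma abel {a : ℕ → ℂ} (hPG : PG a) {c : ℂ} (ha : Tendsto (fun k : ℕ => (k : ℂ) * a k) atTop (𝓝 c)) :
    Tendsto (fun x : ℝ => ps a (x : ℂ) / (Real.log (1 - x) : ℂ)) (𝓝[<] 1) (𝓝 (-c)) := by
  set b : ℕ → ℂ := fun k => a k - c / (k : ℂ) with hb
  have h1 : Tendsto (fun k : ℕ => (k : ℂ) * b k) atTop (𝓝 0) := by
    have h2 : Tendsto (fun k : ℕ => (k : ℂ) * a k - c) atTop (𝓝 (c - c)) := ha.sub tendsto_const_nhds
    rw [sub_self] at h2
    refine h2.congr' ?_
    filter_upwards [eventually_ge_atTop 1] with k hk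
    have : (k : ℂ) ≠ 0 := by
      have : k ≠ 0 := by omega
      exact_mod_cast this
    rw [hb]
    field_simp
  have h2 := (abel_zero h1).sub (tendsto_const_nhds (x := c) (f := 𝓝[<] (1:ℝ)))
  rw [zero_sub] at h2
  refine h2.congr' ?_
  filter_upwards [ev_Ioo] with x hx
  obtain ⟨hx0, hx1⟩ := hx
  have hLneg : Real.log (1 - x) < 0 := log_neg hx0 hx1
  have hL : (Real.log (1 - x) : ℂ) ≠ 0 := by exact_mod_cast hLneg.ne
  have hz : ‖(x : ℂ)‖ < 1 := by rw [Complex.norm_real, Real.norm_of_nonneg hx0.le]; exact hx1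
  have h3 : HasSum (fun k : ℕ => (x : ℂ) ^ k / (k : ℂ)) (-(Real.log (1 - x) : ℂ)) := by
    have := (hasSum_log hx0 hx1)
    have h4 := (Complex.hasSum_ofReal (f := fun k : ℕ => x ^ k / (k : ℝ)) (x := -Real.log (1 - x))).2 this
    push_cast at h4
    exact h4
  have h4 : ps b (x : ℂ) = ps a (x : ℂ) + c * (Real.log (1 - x) : ℂ) := by
    unfold ps
    have e : (fun k : ℕ => b k * (x : ℂ) ^ k) = fun k => a k * (x : ℂ) ^ k - c * ((x : ℂ) ^ k / (k : ℂ)) := by
      funext k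
      rw [hb]
      ring
    rw [e, ((hPG.summable' hz).hasSum.sub (h3.mul_left c)).tsum_eq]
    ring
  rw [h4]
  field_simp
  ring

/-- the matrix of the local monodromy at one and the asymptotics of the solutions -/
theorem VV_lim {n : ℕ} {J A : Matrix (Fin n) (Fin n) ℂ} {u v : Fin n → ℂ} {H : ℕ → Matrix (Fin n) (Fin n) ℂ}
    (hn : 2 ≤ n) (hJ : J.transpose = -J) (hA : A ^ n = 0) (hv : VV J A u H v) (i j : Fin n) :
    Tendsto (fun x : ℝ => Hf H (x : ℂ) i j / (Real.log (1 - x) : ℂ)) (𝓝[<] 1) (𝓝 (u i * (v ᵥ* J) j)) := by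
  obtain ⟨K, M, Mi, hK, h1, h2, h3, h4, h5⟩ := hv
  set N := vecMulVec u (u ᵥ* J) with hN
  have hN0 : N ^ n = 0 := tv_pow hJ u hn
  -- continuity
  have c1 : Tendsto (fun x : ℝ => Hf K (1 - (x : ℂ))) (𝓝[<] 1) (𝓝 1) := by
    have h6 : Tendsto (fun x : ℝ => 1 - (x : ℂ)) (𝓝[<] 1) (𝓝 0) := by
      have h7 : Continuous (fun x : ℝ => 1 - (x : ℂ)) := by fun_prop
      have h8 := h7.tendsto 1
      rw [Complex.ofReal_one, sub_self] at h8
      exact h8.mono_left nhdsWithin_le_nhds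
    have h7 : Tendsto (Hf K) (𝓝 0) (𝓝 1) := by
      rw [← Hf_zero hK]
      refine tendsto_pi_nhds.2 fun a => tendsto_pi_nhds.2 fun b => ?_
      exact ((Hf_an hK hN0 a b) 0 (Metric.mem_ball_self one_pos)).continuousAt
    exact h7.comp h6
  have c2 : Tendsto (fun x : ℝ => E A (-Complex.log (x : ℂ))) (𝓝[<] 1) (𝓝 1) := by
    have h6 : Tendsto (fun x : ℝ => -Complex.log (x : ℂ)) (𝓝[<] 1) (𝓝 0) := by
      have h7 : ContinuousAt (fun x : ℝ => -Complex.log (x : ℂ)) 1 :=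
        (ContinuousAt.clog Complex.continuous_ofReal.continuousAt (by simp)).neg
      have h8 : Tendsto (fun x : ℝ => -Complex.log (x : ℂ)) (𝓝 1) (𝓝 (-Complex.log ((1 : ℝ) : ℂ))) := h7
      rw [Complex.ofReal_one, Complex.log_one, neg_zero] at h8
      exact h8.mono_left nhdsWithin_le_nhds
    have h7 : Continuous (E A) := by
      unfold E
      fun_prop
    have h8 := h7.tendsto 0
    rw [E_zero hA] at h8
    exact h8.comp h6
  have c3 : Tendsto (fun x : ℝ => ((Real.log (1 - x) : ℂ))⁻¹ • (1 : Matrix (Fin n) (Fin n) ℂ) + N) (𝓝[<] 1) (𝓝 N) := by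
    have h6 : Tendsto (fun x : ℝ => ((Real.log (1 - x) : ℂ))⁻¹) (𝓝[<] 1) (𝓝 0) := by
      have h7 : Tendsto (fun x : ℝ => (Real.log (1 - x))⁻¹) (𝓝[<] 1) (𝓝 0) := tendsto_inv_atBot_zero.comp tendsto_log_one
      have h8 := (Complex.continuous_ofReal.tendsto 0).comp h7
      rw [Complex.ofReal_zero] at h8
      refine h8.congr fun x => ?_
      simp
    have h7 := (h6.smul_const (1 : Matrix (Fin n) (Fin n) ℂ)).add (tendsto_const_nhds (x := N))
    rwa [zero_smul, zero_add] at h7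
  have c4 := (((c1.mul c3).mul (tendsto_const_nhds (x := M))).mul c2)
  rw [one_mul, mul_one] at c4
  have e1 : N * M = vecMulVec u (v ᵥ* J) := by
    rw [hN, vecMulVec_mul]
    congr 1
    have e2 : J * M = Mi.transpose * J := by
      calc J * M = (Mi.transpose * J * Mi) * M := by rw [VV_isom h1 h3]
        _ = Mi.transpose * J * (Mi * M) := by simp only [Matrix.mul_assoc]
        _ = _ := by rw [h2, mul_one]
    rw [vecMul_vecMul, e2, ← vecMul_vecMul, vecMul_transpose, ← h5]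
  rw [e1] at c4
  have c5 := (tendsto_pi_nhds.1 ((tendsto_pi_nhds.1 c4) i)) j
  rw [vecMulVec_apply] at c5
  refine c5.congr' ?_
  filter_upwards [ev_Ioo] with x hx
  obtain ⟨hx0, hx1⟩ := hx
  have hLneg : Real.log (1 - x) < 0 := log_neg hx0 hx1
  have hL : (Real.log (1 - x) : ℂ) ≠ 0 := by exact_mod_cast hLneg.ne
  have h6 := h4 x (real_mem_Lens hx0 hx1)
  unfold Yf at h6
  have h7 : Hf H (x : ℂ) = Hf K (1 - (x : ℂ)) * E N (Complex.log (1 - (x : ℂ))) * M * E A (-Complex.log (x : ℂ)) := by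
    rw [← h6, Matrix.mul_assoc, E_mul_neg hA, mul_one]
  have h8 : Complex.log (1 - (x : ℂ)) = (Real.log (1 - x) : ℂ) := by
    rw [Complex.ofReal_log (by linarith)]
    push_cast
    rfl
  have h9 : E N (Complex.log (1 - (x : ℂ))) = (Real.log (1 - x) : ℂ) •
      (((Real.log (1 - x) : ℂ))⁻¹ • (1 : Matrix (Fin n) (Fin n) ℂ) + N) := by
    rw [hN, E_tv hn hJ, h8]
    unfold tv
    rw [smul_add, smul_smul, mul_inv_cancel₀ hL, one_smul]
  rw [h7, h9]
  simp only [mul_smul_comm, smul_mul_assoc, Matrix.smul_apply, smul_eq_mul]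
  rw [mul_div_cancel_left₀ _ hL]

end Pool.Agent.W2helper4.HJ
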