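import Pool.Agent.W2helper4.HJ.Bd

/-!
# A submonoid which contains simultaneous transvections contains the product of the symplectic groups
-/

set_option autoImplicit false

open Filter Topology Matrix Polynomial

namespace Pool.Agent.W2helper4.HJ

open Pool.Agent.Y119.HY

lemma tv_add {n : ℕ} {J : Matrix (Fin n) (Fin n) ℂ} (hJ : J.transpose = -J) (v : Fin n → ℂ) (s t : ℂ) :
    tv J v (s + t) = tv J v s * tv J v t := by
  unfold tv
  rw [mul_add, add_mul, add_mul, one_mul, mul_one, one_mul, smul_mul_assoc, mul_smul_comm, tv_sq hJ, smul_zero,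
    smul_zero, add_zero, add_smul, add_assoc]

lemma tv_zero' {n : ℕ} (J : Matrix (Fin n) (Fin n) ℂ) (v : Fin n → ℂ) : tv J v 0 = 1 := by
  unfold tv
  rw [zero_smul, add_zero]

/-- a polynomial family of transvections -/
noncomputable def pm {n : ℕ} (J : Matrix (Fin n) (Fin n) ℂ) (x w : Fin n → ℂ) (s : ℂ) :
    Matrix (Fin n) (Fin n) ℂ[X] :=
  1 + (Polynomial.C s : Polynomial ℂ) • vecMulVec
      (fun l => Polynomial.C (x l) + Polynomial.X * Polynomial.C (w l))
      (fun l => Polynomial.C ((x ᵥ* J) l) + Polynomial.X * Polynomial.C ((w ᵥ* J) l))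

lemma pm_eval {n : ℕ} (J : Matrix (Fin n) (Fin n) ℂ) (x w : Fin n → ℂ) (s c : ℂ) :
    (pm J x w s).map (Polynomial.eval c) = tv J (x + c • w) s := by
  ext l k
  unfold tv pm
  simp only [Matrix.map_apply, Matrix.add_apply, Matrix.smul_apply, smul_eq_mul, vecMulVec_apply,
    Polynomial.eval_add, Polynomial.eval_mul, Polynomial.eval_X, Polynomial.eval_C, add_vecMul, smul_vecMul,
    Pi.add_apply, Pi.smul_apply]
  congr 1
  rw [Matrix.one_apply, Matrix.one_apply]
  split_ifs <;> simp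

/-- the pairing of `v` with its translates under the unipotent group -/
noncomputable def fv {n : ℕ} (J A : Matrix (Fin n) (Fin n) ℂ) (v : Fin n → ℂ) (h : ℂ) : ℂ := om J v (E A h *ᵥ v)

variable {r : ℕ} {n : Fin r → ℕ} {J A : ∀ i, Matrix (Fin (n i)) (Fin (n i)) ℂ} {v : ∀ i, Fin (n i) → ℂ}

variable (hJ : ∀ i, (J i).transpose = -J i) (hA : ∀ i, A i ^ n i = 0)
  (hAJ : ∀ i, (A i).transpose * J i + J i * A i = 0)
  (S : Submonoid (Matrix (Fin (∑ i, n i)) (Fin (∑ i, n i)) ℂ))
  (hE : ∀ c : ℂ, ∀ g ∈ S, bd (fun i => E (A i) c) * g * bd (fun i => E (A i) (-c)) ∈ S)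
  (hcl : ∀ M : Matrix (Fin (∑ i, n i)) (Fin (∑ i, n i)) (Polynomial ℂ),
    (∀ c : ℂ, c ≠ 0 → M.map (Polynomial.eval c) ∈ S) → M.map (Polynomial.eval 0) ∈ S)
  (hvS : ∀ s : ℂ, bd (fun i => tv (J i) (v i) s) ∈ S)

/-- the directions of transvections in `S` -/
def DT (J : ∀ i, Matrix (Fin (n i)) (Fin (n i)) ℂ) (v : ∀ i, Fin (n i) → ℂ)
    (S : Submonoid (Matrix (Fin (∑ i, n i)) (Fin (∑ i, n i)) ℂ)) : Set (Fin r → ℂ) :=
  {a | ∀ s : ℂ, bd (fun i => tv (J i) (v i) (a i * s)) ∈ S}

include hJ in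
lemma DT_add {a b : Fin r → ℂ} (ha : a ∈ DT J v S) (hb : b ∈ DT J v S) : a + b ∈ DT J v S := by
  intro s
  have h := mul_mem (ha s) (hb s)
  rw [← bd_mul] at h
  have e : (fun i => tv (J i) (v i) (a i * s) * tv (J i) (v i) (b i * s)) =
      fun i => tv (J i) (v i) ((a + b) i * s) := by
    funext i
    rw [← tv_add (hJ i), Pi.add_apply, add_mul]
  rwa [e] at h

lemma DT_smul (c : ℂ) {a : Fin r → ℂ} (ha : a ∈ DT J v S) : c • a ∈ DT J v S := by
  intro s
  have h := ha (c * s)
  have e : (fun i => tv (J i) (v i) (a i * (c * s))) = fun i => tv (J i) (v i) ((c • a) i * s) := by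
    funext i
    congr 1
    rw [Pi.smul_apply, smul_eq_mul]
    ring
  rwa [e] at h

include hvS in
lemma DT_one : (fun _ => 1) ∈ DT J v S := by
  intro s
  simp only [one_mul]
  exact hvS s

include hJ hA hAJ hE hcl hvS in
lemma DT_mul (h : ℂ) {a : Fin r → ℂ} (ha : a ∈ DT J v S) :
    (fun i => fv (J i) (A i) (v i) h ^ 2 * a i) ∈ DT J v S := by
  intro s
  set w : ∀ i, Fin (n i) → ℂ := fun i => E (A i) h *ᵥ v i with hw
  have h0 := hcl (bd fun i => pm (J i) (fv (J i) (A i) (v i) h • v i) (w i) (a i * s)) (fun c hc => ?_)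
  · rw [bd_map _ Polynomial.eval_zero] at h0
    have e : (fun i => (pm (J i) (fv (J i) (A i) (v i) h • v i) (w i) (a i * s)).map (Polynomial.eval 0)) =
        fun i => tv (J i) (v i) (fv (J i) (A i) (v i) h ^ 2 * a i * s) := by
      funext i
      rw [pm_eval, zero_smul, add_zero, tv_smul, mul_assoc]
    rwa [e] at h0
  · rw [bd_map _ Polynomial.eval_zero]
    have h1 := hE h _ (ha (c ^ 2 * s))
    have h2 := mul_mem (mul_mem (hvS (1 / c)) h1) (hvS (-(1 / c)))
    simp only [← bd_mul] at h2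
    have e : (fun i => tv (J i) (v i) (1 / c) *
        (E (A i) h * tv (J i) (v i) (a i * (c ^ 2 * s)) * E (A i) (-h)) * tv (J i) (v i) (-(1 / c))) =
        fun i => (pm (J i) (fv (J i) (A i) (v i) h • v i) (w i) (a i * s)).map (Polynomial.eval c) := by
      funext i
      rw [tv_conj (E (A i) h) (E (A i) (-h)) (E_mul_neg (hA i) h) (E_isom (hA i) (hAJ i) h),
        tv_conj _ _ (tv_mul_neg (hJ i) _ _) (tv_isom (hJ i) _ _), tv_mulVec, pm_eval]
      have e1 : fv (J i) (A i) (v i) h • v i + c • w i =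
          c • (E (A i) h *ᵥ v i + (1 / c * om (J i) (v i) (E (A i) h *ᵥ v i)) • v i) := by
        rw [smul_add, smul_smul, add_comm]
        congr 2
        unfold fv
        field_simp
      rw [e1, tv_smul]
      congr 1
      ring
    rwa [e] at h2

include hJ hA hAJ hE hcl hvS in
/-- separation of the factors -/
lemma single_mem (hsep : ∀ i j, i ≠ j → ∃ h, fv (J i) (A i) (v i) h ^ 2 ≠ fv (J j) (A j) (v j) h ^ 2)
    (i₀ : Fin r) (s : ℂ) : bd (fun i => tv (J i) (v i) (if i = i₀ then s else 0)) ∈ S := by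
  classical
  have key : ∀ t : Finset (Fin r), i₀ ∉ t → ∃ a ∈ DT J v S, a i₀ = 1 ∧ ∀ j ∈ t, a j = 0 := by
    intro t
    induction t using Finset.induction_on with
    | empty => intro _; exact ⟨_, DT_one S hvS, rfl, fun j hj => absurd hj (Finset.notMem_empty j)⟩
    | insert j t hj ih =>
      intro hi
      rw [Finset.mem_insert, not_or] at hi
      obtain ⟨a, ha, ha1, ha0⟩ := ih hi.2
      obtain ⟨h, hh⟩ := hsep i₀ j hi.1
      set F : Fin r → ℂ := fun i => fv (J i) (A i) (v i) h ^ 2 with hF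
      have hne : F i₀ - F j ≠ 0 := sub_ne_zero.2 hh
      refine ⟨(F i₀ - F j)⁻¹ • ((fun i => F i * a i) + (-F j) • a),
        DT_smul S _ (DT_add hJ S (DT_mul hJ hA hAJ S hE hcl hvS h ha) (DT_smul S _ ha)), ?_, ?_⟩
      · simp only [Pi.smul_apply, Pi.add_apply, smul_eq_mul, ha1]
        field_simp
        ring
      · intro k hk
        simp only [Pi.smul_apply, Pi.add_apply, smul_eq_mul]
        rcases Finset.mem_insert.1 hk with rfl | hk
        · ring
        · rw [ha0 k hk]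
          ring
  obtain ⟨a, ha, ha1, ha0⟩ := key (Finset.univ.erase i₀) (Finset.notMem_erase i₀ _)
  have h1 := ha s
  have e : (fun i => tv (J i) (v i) (a i * s)) = fun i => tv (J i) (v i) (if i = i₀ then s else 0) := by
    funext i
    congr 1
    by_cases hi : i = i₀
    · subst hi
      rw [ha1, if_pos rfl, one_mul]
    · rw [ha0 i (Finset.mem_erase.2 ⟨hi, Finset.mem_univ i⟩), if_neg hi, zero_mul]
  rwa [e] at h1

include hJ hA hAJ hE hcl hvS in
/-- **Density.** -/
theorem density (hdet : ∀ i, (J i).det ≠ 0)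
    (hv : ∀ i, om (J i) (v i) ((A i ^ (n i - 1)) *ᵥ v i) ≠ 0)
    (hsep : ∀ i j, i ≠ j → ∃ h, fv (J i) (A i) (v i) h ^ 2 ≠ fv (J j) (A j) (v j) h ^ 2)
    (g : ∀ i, Matrix (Fin (n i)) (Fin (n i)) ℂ) (hg : ∀ i, (g i).transpose * J i * g i = J i) : bd g ∈ S := by
  classical
  have key : ∀ (i₀ : Fin r) (x : Matrix (Fin (n i₀)) (Fin (n i₀)) ℂ), x.transpose * J i₀ * x = J i₀ →
      bd (Pi.mulSingle (M := fun i => Matrix (Fin (n i)) (Fin (n i)) ℂ) i₀ x) ∈ S := by
    intro i₀ x hx
    set S₀ : Submonoid (Matrix (Fin (n i₀)) (Fin (n i₀)) ℂ) :=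
      S.comap (bdH.comp (MonoidHom.mulSingle (fun i => Matrix (Fin (n i)) (Fin (n i)) ℂ) i₀)) with hS₀
    have hmem : ∀ y, y ∈ S₀ ↔ bd (Pi.mulSingle (M := fun i => Matrix (Fin (n i)) (Fin (n i)) ℂ) i₀ y) ∈ S :=
      fun y => Iff.rfl
    rw [← hmem]
    refine sp_all (hJ i₀) (hA i₀) (hAJ i₀) (hv i₀) S₀ (fun c y hy => ?_) (fun s => ?_) (fun M hM => ?_) (hdet i₀) x hx
    · rw [hmem] at hy ⊢
      have h1 := hE c _ hy
      rw [← bd_mul, ← bd_mul] at h1
      have e : (fun i => E (A i) c * (Pi.mulSingle (M := fun i => Matrix (Fin (n i)) (Fin (n i)) ℂ) i₀ y) i *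
          E (A i) (-c)) = Pi.mulSingle (M := fun i => Matrix (Fin (n i)) (Fin (n i)) ℂ) i₀
            (E (A i₀) c * y * E (A i₀) (-c)) := by
        funext i
        by_cases hi : i = i₀
        · subst hi
          rw [Pi.mulSingle_eq_same, Pi.mulSingle_eq_same]
        · rw [Pi.mulSingle_eq_of_ne hi, Pi.mulSingle_eq_of_ne hi, mul_one, E_mul_neg (hA i)]
      rwa [e] at h1
    · rw [hmem]
      have h1 := single_mem hJ hA hAJ S hE hcl hvS hsep i₀ s
      have e : (fun i => tv (J i) (v i) (if i = i₀ then s else 0)) =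
          Pi.mulSingle (M := fun i => Matrix (Fin (n i)) (Fin (n i)) ℂ) i₀ (tv (J i₀) (v i₀) s) := by
        funext i
        by_cases hi : i = i₀
        · subst hi
          rw [Pi.mulSingle_eq_same, if_pos rfl]
        · rw [Pi.mulSingle_eq_of_ne hi, if_neg hi, tv_zero']
      rwa [e] at h1
    · have e : ∀ c : ℂ, (bd (Pi.mulSingle (M := fun i => Matrix (Fin (n i)) (Fin (n i)) ℂ[X]) i₀ M)).map
          (Polynomial.eval c) = bd (Pi.mulSingle (M := fun i => Matrix (Fin (n i)) (Fin (n i)) ℂ) i₀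
            (M.map (Polynomial.eval c))) := by
        intro c
        rw [bd_map _ Polynomial.eval_zero]
        congr 1
        funext i
        by_cases hi : i = i₀
        · subst hi
          rw [Pi.mulSingle_eq_same, Pi.mulSingle_eq_same]
        · rw [Pi.mulSingle_eq_of_ne hi, Pi.mulSingle_eq_of_ne hi]
          exact Matrix.map_one _ Polynomial.eval_zero Polynomial.eval_one
      rw [hmem, ← e]
      refine hcl _ fun c hc => ?_
      rw [e, ← hmem]
      exact hM c hc
  exact Submonoid.pi_mem_of_mulSingle_mem (H := S.comap bdH) g fun i => key i (g i) (hg i)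

end Pool.Agent.W2helper4.HJ
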