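import Pool.Agent.W2helper4.HJ.Lim2
import Pool.Agent.W2helper4.HJ.Abel
import Pool.Agent.W2helper4.HJ.Sep

/-!
# The pairing of the vanishing cycle with its translates
-/

set_option autoImplicit false

open Filter Topology Matrix

namespace Pool.Agent.W2helper4.HJ

open Pool.Agent.Y119.HY

/-- `v` extended by zero -/
def ex {n : ℕ} (v : Fin n → ℂ) (k : ℕ) : ℂ := if h : k < n then v ⟨k, h⟩ else 0

lemma ex_coe {n : ℕ} (v : Fin n → ℂ) (i : Fin n) : ex v (i : ℕ) = v i := by
  unfold ex
  rw [dif_pos i.2]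

/-- the reversed generating function -/
noncomputable def gv {n : ℕ} (v : Fin n → ℂ) : PowerSeries ℂ := PowerSeries.mk fun k => if k < n then ex v (n - 1 - k) else 0

lemma coeff_aeval_X (Q : Polynomial ℚ) (k : ℕ) :
    PowerSeries.coeff k (Polynomial.aeval (PowerSeries.X : PowerSeries ℂ) Q) = ((Q.coeff k : ℚ) : ℂ) := by
  induction Q using Polynomial.induction_on' with
  | add p q hp hq => rw [map_add, map_add, hp, hq, Polynomial.coeff_add]; push_cast; rfl
  | monomial l a =>
    rw [Polynomial.aeval_monomial, Polynomial.coeff_monomial]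
    have h1 : (algebraMap ℚ (PowerSeries ℂ)) a = PowerSeries.C ((a : ℚ) : ℂ) :=
      congrArg (fun φ : ℚ →+* PowerSeries ℂ => φ a)
        (Subsingleton.elim (algebraMap ℚ (PowerSeries ℂ)) ((PowerSeries.C (R := ℂ)).comp (algebraMap ℚ ℂ)))
    rw [h1, PowerSeries.coeff_C_mul, PowerSeries.coeff_X_pow]
    by_cases h : k = l
    · rw [if_pos h, if_pos h.symm, mul_one]
    · rw [if_neg h, if_neg (Ne.symm h), mul_zero]
      simp

variable {n : ℕ} {Q : Polynomial ℚ}

/-- the form in terms of generating functions -/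
lemma vecMul_Jm (hn : Even n) (hn1 : 1 ≤ n) (v : Fin n → ℂ) (j : Fin n) : (v ᵥ* cm (Jm n Q)) j =
    -PowerSeries.coeff (j : ℕ) (Polynomial.aeval (PowerSeries.X : PowerSeries ℂ) Q * PowerSeries.rescale (-1) (gv v)) := by
  have hj := j.2
  set F : ℕ → ℂ := fun i => if n ≤ i + j + 1 then ex v i * ((-1) ^ i * ((Q.coeff (i + j + 1 - n) : ℚ) : ℂ)) else 0 with hF
  have h1 : (v ᵥ* cm (Jm n Q)) j = ∑ i ∈ Finset.range n, F i := by
    rw [← Fin.sum_univ_eq_sum_range]
    show ∑ i, v i * cm (Jm n Q) i j = _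
    refine Finset.sum_congr rfl fun i _ => ?_
    rw [hF, cm_apply]
    unfold Jm
    simp only [Matrix.of_apply]
    split_ifs with h
    · rw [ex_coe]; push_cast; ring
    · simp
  rw [h1, ← Finset.sum_range_reflect, mul_comm (Polynomial.aeval _ _), PowerSeries.coeff_mul,
    Finset.Nat.sum_antidiagonal_eq_sum_range_succ_mk, ← Finset.sum_neg_distrib]
  have h2 : Finset.range ((j : ℕ) + 1) ⊆ Finset.range n := Finset.range_mono (by omega)
  rw [← Finset.sum_subset h2 (f := fun q => F (n - 1 - q))]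
  · refine Finset.sum_congr rfl fun q hq => ?_
    rw [Finset.mem_range] at hq
    simp only
    rw [coeff_aeval_X, PowerSeries.coeff_rescale]
    unfold gv
    rw [PowerSeries.coeff_mk, hF]
    simp only
    have e2 : n - 1 - q + j + 1 - n = j - q := by omega
    rw [if_pos (by omega), if_pos (by omega), e2]
    have e3 : (-1 : ℂ) ^ (n - 1 - q) = -(-1) ^ q := by
      obtain ⟨b, hb⟩ := hn
      rcases Nat.even_or_odd q with h | h
      · rw [h.neg_one_pow]
        have : Odd (n - 1 - q) := by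
          obtain ⟨c, hc⟩ := h
          exact ⟨b - 1 - c, by omega⟩
        rw [this.neg_one_pow]
      · rw [h.neg_one_pow]
        have : Even (n - 1 - q) := by
          obtain ⟨c, hc⟩ := h
          exact ⟨b - 1 - c, by omega⟩
        rw [this.neg_one_pow, neg_neg]
    rw [e3]
    ring
  · intro q hq hq'
    rw [Finset.mem_range] at hq hq'
    rw [hF]
    simp only
    rw [if_neg (by omega)]

lemma Am_pow_mulVec (v : Fin n → ℂ) (a : ℕ) (j : Fin n) : (cm (Am n) ^ a *ᵥ v) j = ex v (j + a) := by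
  rw [← cm_pow, mv_apply]
  unfold ex
  by_cases h : (j : ℕ) + a < n
  · rw [dif_pos h, Finset.sum_eq_single ⟨j + a, h⟩]
    · rw [cm_apply, Am_pow, if_pos rfl]
      simp
    · intro b _ hb
      rw [cm_apply, Am_pow, if_neg]
      · simp
      · intro h'
        exact hb (Fin.ext h')
    · intro h'
      exact absurd (Finset.mem_univ _) h'
  · rw [dif_neg h]
    refine Finset.sum_eq_zero fun b _ => ?_
    rw [cm_apply, Am_pow, if_neg]
    · simp
    · have := b.2
      omega

/-- the pairings in terms of generating functions -/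
lemma om_gen {J : Matrix (Fin n) (Fin n) ℂ} {v : Fin n → ℂ} {G : PowerSeries ℂ}
    (hG : ∀ j : Fin n, (v ᵥ* J) j = -PowerSeries.coeff (j : ℕ) G) {a : ℕ} (ha : a < n) :
    om J v (cm (Am n) ^ a *ᵥ v) = -PowerSeries.coeff (n - 1 - a) (G * gv v) := by
  rw [om_eq, dotProduct, PowerSeries.coeff_mul, Finset.Nat.sum_antidiagonal_eq_sum_range_succ_mk]
  simp only [hG, Am_pow_mulVec]
  rw [Fin.sum_univ_eq_sum_range (fun j => -PowerSeries.coeff j G * ex v (j + a)) n, ← Finset.sum_neg_distrib]
  have h2 : Finset.range ((n - 1 - a) + 1) ⊆ Finset.range n := Finset.range_mono (by omega)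
  rw [← Finset.sum_subset h2]
  · refine Finset.sum_congr rfl fun q hq => ?_
    rw [Finset.mem_range] at hq
    unfold gv
    rw [PowerSeries.coeff_mk, if_pos (by omega)]
    have e1 : n - 1 - (n - 1 - a - q) = q + a := by omega
    rw [e1]
    ring
  · intro q hq hq'
    rw [Finset.mem_range] at hq hq'
    unfold ex
    rw [dif_neg (by omega), mul_zero]

/-- the sine series -/
noncomputable def Sn : PowerSeries ℂ := Ty (fun x => Complex.sin ((Real.pi : ℂ) * x))

lemma Sn_split : ∃ S1 : PowerSeries ℂ, Sn = PowerSeries.X * S1 ∧ PowerSeries.constantCoeff S1 ≠ 0 := by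
  have h0 : PowerSeries.constantCoeff Sn = 0 := by
    rw [← PowerSeries.coeff_zero_eq_constantCoeff_apply]
    unfold Sn
    rw [Ty_zero_coeff]
    simp
  obtain ⟨S1, hS1⟩ := PowerSeries.X_dvd_iff.2 h0
  refine ⟨S1, hS1, ?_⟩
  have h1 : PowerSeries.coeff 1 Sn = PowerSeries.constantCoeff S1 := by
    rw [hS1, ← PowerSeries.coeff_zero_eq_constantCoeff_apply]
    exact PowerSeries.coeff_succ_X_mul 0 S1
  rw [← h1]
  unfold Sn
  rw [Ty_coeff, iteratedDeriv_one]
  have h2 : HasDerivAt (fun x : ℂ => Complex.sin ((Real.pi : ℂ) * x)) (Complex.cos ((Real.pi : ℂ) * 0) * ((Real.pi : ℂ) * 1)) 0 :=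
    ((hasDerivAt_id (0 : ℂ)).const_mul (Real.pi : ℂ)).csin
  rw [h2.deriv]
  simp [Real.pi_ne_zero]

end Pool.Agent.W2helper4.HJ
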