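import Pool.Agent.Y119.HY.Main

/-!
# Direct sums of differential systems
-/

set_option autoImplicit false

open Filter Topology Matrix Polynomial

namespace Pool.Agent.W2helper4.HJ

open Pool.Agent.Y119.HY

variable {r : ℕ} {n : Fin r → ℕ}

/-- the block diagonal matrix -/
def bd {R : Type*} [Zero R] (X : ∀ i, Matrix (Fin (n i)) (Fin (n i)) R) :
    Matrix (Fin (∑ i, n i)) (Fin (∑ i, n i)) R :=
  (Matrix.blockDiagonal' X).submatrix finSigmaFinEquiv.symm finSigmaFinEquiv.symm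

section entries
variable {R : Type*} [Zero R] (X : ∀ i, Matrix (Fin (n i)) (Fin (n i)) R)

lemma bd_same (i : Fin r) (a b : Fin (n i)) : bd X (finSigmaFinEquiv ⟨i, a⟩) (finSigmaFinEquiv ⟨i, b⟩) = X i a b := by
  unfold bd
  rw [submatrix_apply, Equiv.symm_apply_apply, Equiv.symm_apply_apply, blockDiagonal'_apply_eq]

lemma bd_diff {i j : Fin r} (h : i ≠ j) (a : Fin (n i)) (b : Fin (n j)) :
    bd X (finSigmaFinEquiv ⟨i, a⟩) (finSigmaFinEquiv ⟨j, b⟩) = 0 := by
  unfold bd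
  rw [submatrix_apply, Equiv.symm_apply_apply, Equiv.symm_apply_apply, blockDiagonal'_apply_ne _ _ _ h]

end entries

lemma bd_ext {R : Type*} {Y Z : Matrix (Fin (∑ i, n i)) (Fin (∑ i, n i)) R}
    (h1 : ∀ (i : Fin r) (a b : Fin (n i)), Y (finSigmaFinEquiv ⟨i, a⟩) (finSigmaFinEquiv ⟨i, b⟩) =
      Z (finSigmaFinEquiv ⟨i, a⟩) (finSigmaFinEquiv ⟨i, b⟩))
    (h2 : ∀ (i j : Fin r), i ≠ j → ∀ (a : Fin (n i)) (b : Fin (n j)),
      Y (finSigmaFinEquiv ⟨i, a⟩) (finSigmaFinEquiv ⟨j, b⟩) = Z (finSigmaFinEquiv ⟨i, a⟩) (finSigmaFinEquiv ⟨j, b⟩)) :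
    Y = Z := by
  ext p q
  obtain ⟨⟨i, a⟩, rfl⟩ := (finSigmaFinEquiv (m := r) (n := n)).surjective p
  obtain ⟨⟨j, b⟩, rfl⟩ := (finSigmaFinEquiv (m := r) (n := n)).surjective q
  by_cases h : i = j
  · subst h
    exact h1 i a b
  · exact h2 i j h a b

section ring
variable {R : Type*} [Ring R]

lemma bd_mul (X Y : ∀ i, Matrix (Fin (n i)) (Fin (n i)) R) : bd (fun i => X i * Y i) = bd X * bd Y := by
  unfold bd
  rw [blockDiagonal'_mul, Matrix.submatrix_mul_equiv]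

lemma bd_one : bd (fun i => (1 : Matrix (Fin (n i)) (Fin (n i)) R)) = 1 := by
  unfold bd
  have : (fun i => (1 : Matrix (Fin (n i)) (Fin (n i)) R)) = 1 := rfl
  rw [this, blockDiagonal'_one, Matrix.submatrix_one_equiv]

lemma bd_add (X Y : ∀ i, Matrix (Fin (n i)) (Fin (n i)) R) : bd (fun i => X i + Y i) = bd X + bd Y :=
  bd_ext (fun i a b => by simp only [bd_same, Matrix.add_apply])
    (fun i j h a b => by simp only [bd_diff _ h, Matrix.add_apply, add_zero])

lemma bd_sub (X Y : ∀ i, Matrix (Fin (n i)) (Fin (n i)) R) : bd (fun i => X i - Y i) = bd X - bd Y :=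
  bd_ext (fun i a b => by simp only [bd_same, Matrix.sub_apply])
    (fun i j h a b => by simp only [bd_diff _ h, Matrix.sub_apply, sub_zero])

lemma bd_neg (X : ∀ i, Matrix (Fin (n i)) (Fin (n i)) R) : bd (fun i => -X i) = -bd X :=
  bd_ext (fun i a b => by simp only [bd_same, Matrix.neg_apply])
    (fun i j h a b => by simp only [bd_diff _ h, Matrix.neg_apply, neg_zero])

lemma bd_zero : bd (fun i => (0 : Matrix (Fin (n i)) (Fin (n i)) R)) = 0 :=
  bd_ext (fun i a b => by simp only [bd_same, Matrix.zero_apply])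
    (fun i j h a b => by simp only [bd_diff _ h, Matrix.zero_apply])

lemma bd_smul (c : R) (X : ∀ i, Matrix (Fin (n i)) (Fin (n i)) R) : bd (fun i => c • X i) = c • bd X :=
  bd_ext (fun i a b => by simp only [bd_same, Matrix.smul_apply])
    (fun i j h a b => by simp only [bd_diff _ h, Matrix.smul_apply, smul_zero])

lemma bd_pow (X : ∀ i, Matrix (Fin (n i)) (Fin (n i)) R) (k : ℕ) : bd (fun i => X i ^ k) = bd X ^ k := by
  induction k with
  | zero => simp only [pow_zero]; exact bd_one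
  | succ k ih => simp only [pow_succ]; rw [bd_mul, ih]

lemma bd_sum {ι : Type*} (s : Finset ι) (X : ι → ∀ i, Matrix (Fin (n i)) (Fin (n i)) R) :
    bd (fun i => ∑ l ∈ s, X l i) = ∑ l ∈ s, bd (X l) := by
  classical
  induction s using Finset.induction_on with
  | empty => simp only [Finset.sum_empty]; exact bd_zero
  | insert a s ha ih => simp only [Finset.sum_insert ha]; rw [bd_add, ih]

lemma bd_map {S : Type*} [Ring S] (f : R → S) (hf : f 0 = 0) (X : ∀ i, Matrix (Fin (n i)) (Fin (n i)) R) :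
    (bd X).map f = bd (fun i => (X i).map f) :=
  bd_ext (fun i a b => by simp only [bd_same, Matrix.map_apply])
    (fun i j h a b => by simp only [bd_diff _ h, Matrix.map_apply, hf])

end ring

/-- block diagonal matrices as a monoid homomorphism -/
def bdH : (∀ i, Matrix (Fin (n i)) (Fin (n i)) ℂ) →* Matrix (Fin (∑ i, n i)) (Fin (∑ i, n i)) ℂ where
  toFun := bd
  map_one' := bd_one
  map_mul' := bd_mul

variable {A B : ∀ i, Matrix (Fin (n i)) (Fin (n i)) ℂ} {H : ∀ i, ℕ → Matrix (Fin (n i)) (Fin (n i)) ℂ}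

lemma n_le (i : Fin r) : n i ≤ ∑ i, n i := Finset.single_le_sum (f := n) (fun _ _ => Nat.zero_le _) (Finset.mem_univ i)

lemma bd_nil (hA : ∀ i, A i ^ n i = 0) : bd A ^ (∑ i, n i) = 0 := by
  rw [← bd_pow]
  have : (fun i => A i ^ (∑ i, n i)) = fun i => (0 : Matrix (Fin (n i)) (Fin (n i)) ℂ) := by
    funext i
    exact pow_eq_zero_of_le (n_le i) (hA i)
  rw [this, bd_zero]

lemma bd_E (hA : ∀ i, A i ^ n i = 0) (s : ℂ) : E (bd A) s = bd (fun i => E (A i) s) := by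
  unfold E
  simp only [← bd_pow, ← bd_smul]
  rw [← bd_sum]
  congr 1
  funext i
  refine (Finset.sum_subset (Finset.range_mono (n_le i)) fun l _ hl => ?_).symm
  rw [Finset.mem_range, not_lt] at hl
  rw [pow_eq_zero_of_le hl (hA i), smul_zero]

lemma bd_Sol (h : ∀ i, Sol (A i) (B i) (H i)) : Sol (bd A) (bd B) (fun k => bd (fun i => H i k)) := by
  refine ⟨?_, fun k => ?_⟩
  · have : (fun i => H i 0) = fun i => (1 : Matrix (Fin (n i)) (Fin (n i)) ℂ) := funext fun i => (h i).zero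
    rw [this, bd_one]
  · simp only [← bd_mul, ← bd_sub, ← bd_smul, ← bd_add]
    congr 1
    funext i
    exact (h i).step k

lemma bd_Hf (z : ℂ) : Hf (fun k => bd (fun i => H i k)) z = bd (fun i => Hf (H i) z) :=
  bd_ext (fun i a b => by
      rw [bd_same]
      show ps _ z = ps _ z
      congr 1
      funext k
      exact bd_same _ _ _ _)
    (fun i j h a b => by
      rw [bd_diff _ h]
      show ps _ z = 0
      have : (fun k => bd (fun i => H i k) (finSigmaFinEquiv ⟨i, a⟩) (finSigmaFinEquiv ⟨j, b⟩)) = fun _ => (0 : ℂ) :=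
        funext fun k => bd_diff _ h _ _
      rw [this]
      simp [ps])

lemma bd_Yf (hA : ∀ i, A i ^ n i = 0) (z : ℂ) :
    Yf (bd A) (fun k => bd (fun i => H i k)) z = bd (fun i => Yf (A i) (H i) z) := by
  unfold Yf
  rw [bd_Hf, bd_E hA, ← bd_mul]

/-! ### the local data at `1` -/

/-- `v` is the image in the fibre at the base point near `0` of the vector `u` of the transvection at `1` -/
def VV {n : ℕ} (J A : Matrix (Fin n) (Fin n) ℂ) (u : Fin n → ℂ) (H : ℕ → Matrix (Fin n) (Fin n) ℂ)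
    (v : Fin n → ℂ) : Prop :=
  ∃ (K : ℕ → Matrix (Fin n) (Fin n) ℂ) (M Mi : Matrix (Fin n) (Fin n) ℂ),
    Sol (vecMulVec u (u ᵥ* J)) (-A) K ∧ M * Mi = 1 ∧ Mi * M = 1 ∧ M.transpose * J * M = J ∧
    (∀ z ∈ Lens, Yf A H z = Yf (vecMulVec u (u ᵥ* J)) K (1 - z) * M) ∧ v = Mi *ᵥ u

lemma exists_VV {n : ℕ} {J A : Matrix (Fin n) (Fin n) ℂ} {u : Fin n → ℂ} {H : ℕ → Matrix (Fin n) (Fin n) ℂ}
    (hn : 2 ≤ n) (hJ : J.transpose = -J) (hdet : J.det ≠ 0) (hA : A ^ n = 0)
    (hAJ : A.transpose * J + J * A = 0) (hH : Sol A (-vecMulVec u (u ᵥ* J)) H) : ∃ v, VV J A u H v := by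
  have hnB : -(-vecMulVec u (u ᵥ* J)) = vecMulVec u (u ᵥ* J) := neg_neg _
  have hB : (-(-vecMulVec u (u ᵥ* J))) ^ n = 0 := by rw [hnB]; exact tv_pow hJ u hn
  have hBJ : (-vecMulVec u (u ᵥ* J)).transpose * J + J * (-vecMulVec u (u ᵥ* J)) = 0 := by
    rw [transpose_neg, neg_mul, mul_neg, ← neg_add, tv_skew hJ, neg_zero]
  obtain ⟨K, hK⟩ := exists_sol hB (-A)
  obtain ⟨M, Mi, h1, h2, h3, h4⟩ := connect hdet hA hAJ hB hBJ hH hK
  rw [hnB] at hK h4
  exact ⟨Mi *ᵥ u, K, M, Mi, hK, h1, h2, h3, h4, rfl⟩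

lemma VV_isom {n : ℕ} {J M Mi : Matrix (Fin n) (Fin n) ℂ} (h1 : M * Mi = 1) (h3 : M.transpose * J * M = J) :
    Mi.transpose * J * Mi = J := by
  calc Mi.transpose * J * Mi = Mi.transpose * (M.transpose * J * M) * Mi := by rw [h3]
    _ = (M * Mi).transpose * J * (M * Mi) := by rw [transpose_mul]; simp only [Matrix.mul_assoc]
    _ = J := by rw [h1, transpose_one, one_mul, mul_one]

/-- the joint transvections preserve the relations -/
theorem joint_tv {J A : ∀ i, Matrix (Fin (n i)) (Fin (n i)) ℂ} {u v : ∀ i, Fin (n i) → ℂ}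
    {H : ∀ i, ℕ → Matrix (Fin (n i)) (Fin (n i)) ℂ} (hn : ∀ i, 2 ≤ n i) (hJ : ∀ i, (J i).transpose = -J i)
    (hA : ∀ i, A i ^ n i = 0) (hv : ∀ i, VV (J i) (A i) (u i) (H i) (v i)) (s : ℂ) :
    bd (fun i => tv (J i) (v i) s) ∈ Gal (Yf (bd A) (fun k => bd (fun i => H i k))) := by
  choose K M Mi hK h1 h2 h3 h4 h5 using hv
  have hB : ∀ i, (vecMulVec (u i) (u i ᵥ* J i)) ^ n i = 0 := fun i => tv_pow (hJ i) (u i) (hn i)
  have e1 : bd M * bd Mi = 1 := by
    rw [← bd_mul]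
    have : (fun i => M i * Mi i) = fun i => (1 : Matrix (Fin (n i)) (Fin (n i)) ℂ) := funext h1
    rw [this, bd_one]
  have h6 := conj_mem_Gal (bd_nil hB) (bd_Sol hK) (Y := Yf (bd A) (fun k => bd (fun i => H i k))) e1
    (fun x hx hx1 => by
      rw [bd_Yf hA, bd_Yf hB, ← bd_mul]
      congr 1
      funext i
      exact h4 i x (real_mem_Lens hx hx1)) s
  rw [bd_E hB, ← bd_mul, ← bd_mul] at h6
  have e2 : (fun i => Mi i * E (vecMulVec (u i) (u i ᵥ* J i)) s * M i) = fun i => tv (J i) (v i) s := by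
    funext i
    rw [E_tv (hn i) (hJ i), tv_conj (Mi i) (M i) (h2 i) (VV_isom (h1 i) (h3 i)), h5 i]
  rw [e2] at h6
  exact h6

end Pool.Agent.W2helper4.HJ
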