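import Pool.Agent.W2helper4.HJ.Stab

/-!
# Sums of a fixed object, Kummer motives and several symplectic motives for every parameter: fibre products
-/

set_option autoImplicit false
set_option linter.unusedSectionVars false

open Matrix

namespace Pool.Agent.W2helper4.HJ

open Pool.Agent.TH127.PT Pool.Agent.Y123.ST Pool.Agent.Y123.GN Pool.Agent.Y123.SR

/-- a block of a matrix -/
def blk {r : ℕ} {n : Fin r → ℕ} (Y : Matrix (Fin (∑ i, n i)) (Fin (∑ i, n i)) ℂ) (i : Fin r) :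
    Matrix (Fin (n i)) (Fin (n i)) ℂ := Matrix.of fun a b => Y (finSigmaFinEquiv ⟨i, a⟩) (finSigmaFinEquiv ⟨i, b⟩)

theorem blk_bd {r : ℕ} {n : Fin r → ℕ} (X : ∀ i, Matrix (Fin (n i)) (Fin (n i)) ℂ) : blk (bd X) = X := by
  funext i
  ext a b
  exact bd_same X i a b

theorem bd_inj {r : ℕ} {n : Fin r → ℕ} {X Y : ∀ i, Matrix (Fin (n i)) (Fin (n i)) ℂ} (h : bd X = bd Y) : X = Y := by
  rw [← blk_bd X, h, blk_bd]

theorem bd_inv {r : ℕ} {n : Fin r → ℕ} {X : ∀ i, Matrix (Fin (n i)) (Fin (n i)) ℂ} (h : ∀ i, IsUnit (X i)) :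
    (bd X)⁻¹ = bd fun i => (X i)⁻¹ := by
  refine inv_eq_right_inv ?_
  rw [← bd_mul]
  have h1 : (fun i => X i * (X i)⁻¹) = fun i => (1 : Matrix (Fin (n i)) (Fin (n i)) ℂ) := by
    funext i
    exact mul_nonsing_inv _ ((Matrix.isUnit_iff_isUnit_det _).1 (h i))
  rw [h1, bd_one]

section
variable {B₀ : Type} [Fintype B₀] [DecidableEq B₀] {q : ℕ} {kk : Fin q → ℕ} {nn : ∀ l, Fin (kk l) → ℕ} {K : Subfield ℂ}
  {T : Set (Matrix (IM B₀ (sz nn)) (IM B₀ (sz nn)) ℂ)}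

/-- the entries of block matrices -/
theorem bd_pol {M' : Type} [Fintype M'] [DecidableEq M'] {r : ℕ} {n : Fin r → ℕ}
    {X : Matrix M' M' ℂ → ∀ i, Matrix (Fin (n i)) (Fin (n i)) ℂ} (hX : ∀ i a b, Pol fun y => X y i a b)
    (a b : Fin (∑ i, n i)) : Pol fun y => bd (X y) a b := by
  obtain ⟨⟨i, a⟩, rfl⟩ := (finSigmaFinEquiv (m := r) (n := n)).surjective a
  obtain ⟨⟨j, b⟩, rfl⟩ := (finSigmaFinEquiv (m := r) (n := n)).surjective b
  by_cases hij : i = j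
  · subst hij
    simp only [bd_same]
    exact hX i a b
  · simp only [bd_diff _ hij]
    exact Pol.const 0

/-- the fibre product -/
def FPB (J Bm : ∀ l i, Matrix (Fin (nn l i)) (Fin (nn l i)) ℂ) (w : ∀ l, Fin (kk l) → ℕ) (b₀ : B₀)
    (S : Set (Matrix B₀ B₀ ℂ)) : Set (Matrix (IM B₀ (sz nn)) (IM B₀ (sz nn)) ℂ) :=
  {y | ∃ (x : Matrix B₀ B₀ ℂ) (u : Fin q → ℂ) (X : ∀ l i, Matrix (Fin (nn l i)) (Fin (nn l i)) ℂ), x ∈ S ∧ Cm b₀ x ∧
    (∀ l i, X l i * J l i * (X l i)ᵀ = x b₀ b₀ ^ w l i • Bm l i) ∧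
    y = EM x (fun l => kum (u l) (x b₀ b₀)) (fun l => bd (X l))}

variable {J Bm : ∀ l i, Matrix (Fin (nn l i)) (Fin (nn l i)) ℂ} {w : ∀ l, Fin (kk l) → ℕ} {b₀ : B₀}

theorem fpb_unit (hB : ∀ l i, (Bm l i).det ≠ 0) {S : Set (Matrix B₀ B₀ ℂ)} (hS : ∀ x ∈ S, IsUnit x) :
    ∀ y ∈ FPB (nn := nn) J Bm w b₀ S, IsUnit y := by
  rintro _ ⟨x, u, X, h1, h2, h3, rfl⟩
  have h4 := (cm_inv (hS x h1) h2).2.1
  exact EM_isUnit (hS x h1) (fun l => kum_unit h4) fun l =>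
    bd_unit fun i => unit_of_form (pow_ne_zero _ h4) (hB l i) (h3 l i)

theorem fpb_sub (hB : ∀ l i, (Bm l i).det ≠ 0) (hJK : ∀ l i a b, J l i a b ∈ K) (hBK : ∀ l i a b, Bm l i a b ∈ K)
    {S : Set (Matrix B₀ B₀ ℂ)} (hS : IsSubtorsor K S) : IsSubtorsor K (FPB (nn := nn) J Bm w b₀ S) := by
  classical
  refine sub_of (fpb_unit hB hS.isUnit) ?_ ?_ ?_
  · rintro _ ⟨x, u, X, h1, h2, h3, rfl⟩ _ ⟨y, v, Y, h1', h2', h3', rfl⟩ _ ⟨z, r, Z, h1'', h2'', h3'', rfl⟩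
    obtain ⟨h4, h5, h6⟩ := cm_inv (hS.isUnit y h1') h2'
    have hμ : (x * y⁻¹ * z) b₀ b₀ = x b₀ b₀ * (y b₀ b₀)⁻¹ * z b₀ b₀ := by
      rw [cm_mul_apply (cm_mul h2 h4), cm_mul_apply h2, h6]
    have hYu : ∀ l i, IsUnit (Y l i) := fun l i => unit_of_form (pow_ne_zero _ h5) (hB l i) (h3' l i)
    refine ⟨x * y⁻¹ * z, fun i => r i + (-v i / y b₀ b₀ + u i * (y b₀ b₀)⁻¹) * z b₀ b₀, fun l i => X l i * (Y l i)⁻¹ * Z l i,
      hS.torsor x h1 y h1' z h1'', cm_mul (cm_mul h2 h4) h2'', fun l i => ?_, ?_⟩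
    · rw [form_tor (pow_ne_zero _ h5) (hB l i) (h3 l i) (h3' l i) (h3'' l i), hμ]
      congr 1
      rw [mul_pow, mul_pow, inv_pow]
    · rw [EM_inv (hS.isUnit y h1') (fun i => kum_unit h5) (fun l => bd_unit (hYu l)), EM_mul, EM_mul]
      congr 1
      · funext l
        rw [kum_inv h5, kum_mul, kum_mul, hμ]
      · funext l
        rw [bd_inv (hYu l), ← bd_mul, ← bd_mul]
  · rintro σ hσ _ ⟨x, u, X, h1, h2, h3, rfl⟩
    rw [EM_map]
    refine ⟨x.map σ, fun i => σ (u i), fun l i => (X l i).map σ, aut_mem hS hσ h1, ?_, fun l i => ?_, ?_⟩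
    · intro j hj
      obtain ⟨e1, e2⟩ := h2 j hj
      simp [Matrix.map_apply, e1, e2]
    · have h4 := form_map (hJK l i) (hBK l i) hσ (h3 l i)
      rw [h4, map_pow]
      rfl
    · congr 1
      · funext i
        rw [kum_map]
        rfl
      · funext l
        exact bd_map _ (map_zero σ) _
  · intro y hu hF
    have hy : y = EM (px y) (pk y) (fun l => bd (blk (pX y l))) := by
      ext a b
      have h1 := hF (fun y => y a b - EM (px y) (pk y) (fun l => bd (blk (pX y l))) a b)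
        ((Pol.coord a b).sub (EM_pol (fun _ _ => Pol.coord _ _) (fun _ _ _ => Pol.coord _ _)
          (fun l c d => bd_pol (X := fun y => blk (pX y l)) (fun i e f => Pol.coord _ _) c d) a b)) (by
        rintro _ ⟨x, u, X, -, -, -, rfl⟩
        rw [px_EM, pk_EM, pX_EM]
        simp only [blk_bd]
        rw [sub_self])
      exact sub_eq_zero.1 h1
    have hk : ∀ i, pk y i = kum (pk y i 0 1) (px y b₀ b₀) := by
      intro i
      have e1 : pk y i 0 0 - 1 = 0 := hF (fun y => pk y i 0 0 - 1) ((Pol.coord _ _).sub (Pol.const 1)) (by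
        rintro _ ⟨x, u, X, -, -, -, rfl⟩
        rw [pk_EM]
        simp [kum])
      have e2 : pk y i 1 0 = 0 := hF (fun y => pk y i 1 0) (Pol.coord _ _) (by
        rintro _ ⟨x, u, X, -, -, -, rfl⟩
        rw [pk_EM]
        simp [kum])
      have e3 : pk y i 1 1 - px y b₀ b₀ = 0 := hF (fun y => pk y i 1 1 - px y b₀ b₀) ((Pol.coord _ _).sub (Pol.coord _ _)) (by
        rintro _ ⟨x, u, X, -, -, -, rfl⟩
        rw [pk_EM, px_EM]
        simp [kum])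
      ext a b
      fin_cases a <;> fin_cases b
      · simpa [kum, sub_eq_zero] using e1
      · simp [kum]
      · simpa [kum] using e2
      · simpa [kum, sub_eq_zero] using e3
    have hux := unit_of_EM (hy ▸ hu)
    refine ⟨px y, fun i => pk y i 0 1, fun l => blk (pX y l), ?_, ?_, fun l i => ?_, ?_⟩
    · obtain ⟨I, -, hI⟩ := hS.algebraic
      refine (hI _).2 ⟨hux.1, fun p hp => ?_⟩
      refine hF (fun y => MvPolynomial.eval (fl (px y)) p) (Pol.comp (fun _ _ => Pol.coord _ _) p) ?_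
      rintro _ ⟨x, u, X, h1, -, -, rfl⟩
      rw [px_EM]
      exact ((hI x).1 h1).2 p hp
    · intro j hj
      constructor
      · refine hF (fun y => px y b₀ j) (Pol.coord _ _) ?_
        rintro _ ⟨x, u, X, -, h2, -, rfl⟩
        exact (h2 j hj).1
      · refine hF (fun y => px y j b₀) (Pol.coord _ _) ?_
        rintro _ ⟨x, u, X, -, h2, -, rfl⟩
        exact (h2 j hj).2
    · ext a b
      have h1 := hF (fun y => (∑ d, (∑ c, blk (pX y l) i a c * J l i c d) * blk (pX y l) i b d) -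
          px y b₀ b₀ ^ w l i * Bm l i a b) (by
        refine Pol.sub (Pol.sum _ fun d _ => Pol.mul (Pol.sum _ fun c _ => Pol.mul (Pol.coord _ _) (Pol.const _)) (Pol.coord _ _))
          (Pol.mul (Pol.pow (Pol.coord _ _) _) (Pol.const _))) (by
        rintro _ ⟨x, u, X, -, -, h3, rfl⟩
        have h4 := congrFun (congrFun (h3 l i) a) b
        rw [pX_EM, px_EM]
        simp only [blk_bd]
        simp only [Matrix.mul_apply, Matrix.transpose_apply, Matrix.smul_apply, smul_eq_mul] at h4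
        rw [h4, sub_self])
      simp only [Matrix.mul_apply, Matrix.transpose_apply, Matrix.smul_apply, smul_eq_mul]
      exact sub_eq_zero.1 h1
    · conv_lhs => rw [hy]
      congr 1
      funext i
      exact hk i

/-- stable -/
def StbB (Bm : ∀ l i, Matrix (Fin (nn l i)) (Fin (nn l i)) ℂ) (T : Set (Matrix (IM B₀ (sz nn)) (IM B₀ (sz nn)) ℂ)) : Prop :=
  ∀ (a : Fin q → ℂ) (g : ∀ l i, Matrix (Fin (nn l i)) (Fin (nn l i)) ℂ), (∀ l i, g l i * Bm l i * (g l i)ᵀ = Bm l i) →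
    ∀ x ∈ T, EM 1 (fun l => uu (a l)) (fun l => bd (g l)) * x ∈ T

theorem fibB (hB : ∀ l i, (Bm l i).det ≠ 0) (hTF : T ⊆ FPB J Bm w b₀ {x | IsUnit x})
    (hst : StbB Bm T) {x : Matrix B₀ B₀ ℂ} (hx : x ∈ PJ T) {u : Fin q → ℂ}
    {X : ∀ l i, Matrix (Fin (nn l i)) (Fin (nn l i)) ℂ}
    (hX : ∀ l i, X l i * J l i * (X l i)ᵀ = x b₀ b₀ ^ w l i • Bm l i) :
    EM x (fun l => kum (u l) (x b₀ b₀)) (fun l => bd (X l)) ∈ T := by
  obtain ⟨κ, Y', hY⟩ := hx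
  obtain ⟨x', v, Y, h1, h2, h3, h4⟩ := hTF hY
  obtain ⟨rfl, rfl, rfl⟩ := EM_inj h4
  have hμ := (cm_inv h1 h2).2.1
  have hu : ∀ l i, IsUnit (Y l i) := fun l i => unit_of_form (pow_ne_zero _ hμ) (hB l i) (h3 l i)
  have h5 := hst (fun i => (u i - v i) / x b₀ b₀) (fun l i => X l i * (Y l i)⁻¹) (fun l i => by
    have h7 : (Y l i)⁻¹ * Bm l i * ((Y l i)⁻¹)ᵀ = (x b₀ b₀ ^ w l i)⁻¹ • J l i := by
      have hud := (Matrix.isUnit_iff_isUnit_det _).1 (hu l i)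
      have h8 : Bm l i = (x b₀ b₀ ^ w l i)⁻¹ • (Y l i * J l i * (Y l i)ᵀ) := by
        rw [h3, smul_smul, inv_mul_cancel₀ (pow_ne_zero _ hμ), one_smul]
      have h9 : (Y l i)ᵀ * ((Y l i)⁻¹)ᵀ = 1 := by rw [← transpose_mul, nonsing_inv_mul _ hud, transpose_one]
      rw [h8, Matrix.mul_smul, Matrix.smul_mul]
      congr 1
      calc (Y l i)⁻¹ * (Y l i * J l i * (Y l i)ᵀ) * ((Y l i)⁻¹)ᵀ =
            ((Y l i)⁻¹ * Y l i) * J l i * ((Y l i)ᵀ * ((Y l i)⁻¹)ᵀ) := by simp only [Matrix.mul_assoc]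
        _ = J l i := by rw [nonsing_inv_mul _ hud, h9, Matrix.one_mul, Matrix.mul_one]
    rw [transpose_mul]
    calc X l i * (Y l i)⁻¹ * Bm l i * (((Y l i)⁻¹)ᵀ * (X l i)ᵀ) =
          X l i * ((Y l i)⁻¹ * Bm l i * ((Y l i)⁻¹)ᵀ) * (X l i)ᵀ := by simp only [Matrix.mul_assoc]
      _ = Bm l i := by
          rw [h7, Matrix.mul_smul, Matrix.smul_mul, hX, smul_smul, inv_mul_cancel₀ (pow_ne_zero _ hμ), one_smul]) _ hY
  rw [EM_mul, Matrix.one_mul] at h5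
  convert h5 using 2
  · funext i
    rw [uu_kum]
    congr 1
    field_simp
    ring
  · funext l
    rw [← bd_mul]
    congr 1
    funext i
    rw [Matrix.mul_assoc, nonsing_inv_mul _ ((Matrix.isUnit_iff_isUnit_det _).1 (hu l i)), Matrix.mul_one]

theorem pj_allB (hJ : ∀ l i, (J l i)ᵀ = -J l i) (hJd : ∀ l i, (J l i).det ≠ 0) (hB : ∀ l i, (Bm l i).det ≠ 0)
    (hT : IsSubtorsor K T)
    (hTF : T ⊆ FPB J Bm w b₀ {x | IsUnit x}) (hst : StbB Bm T) {τ : ℂ} (hτ : τ ≠ 0)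
    {c : ∀ l i, Matrix (Fin (nn l i)) (Fin (nn l i)) ℂ}
    (hc : ∀ l i, c l i * J l i * (c l i)ᵀ = τ ^ w l i • Bm l i) :
    IsSubtorsor K (PJ T) ∧ T = FPB J Bm w b₀ (PJ T) := by
  classical
  have hPu : ∀ x ∈ PJ T, IsUnit x ∧ Cm b₀ x := by
    rintro x ⟨κ, X, hX⟩
    obtain ⟨x', v, Y', h1, h2, h3, h4⟩ := hTF hX
    obtain ⟨rfl, rfl, rfl⟩ := EM_inj h4
    exact ⟨h1, h2⟩
  have hfib := fun x (hx : x ∈ PJ T) (u : Fin q → ℂ) X hX => fibB (u := u) (X := X) hB hTF hst hx hX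
  refine ⟨?_, ?_⟩
  · choose e he1 he2 using fun l i => lag_mat (hJ l i) (hJd l i)
    have hsec : ∀ l i (μ : ℂ), (c l i * dl (e l i) ((μ / τ) ^ w l i)) * J l i *
        (c l i * dl (e l i) ((μ / τ) ^ w l i))ᵀ = μ ^ w l i • Bm l i := by
      intro l i μ
      rw [transpose_mul]
      calc c l i * dl (e l i) ((μ / τ) ^ w l i) * J l i * ((dl (e l i) ((μ / τ) ^ w l i))ᵀ * (c l i)ᵀ) =
          c l i * (dl (e l i) ((μ / τ) ^ w l i) * J l i * (dl (e l i) ((μ / τ) ^ w l i))ᵀ) * (c l i)ᵀ := by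
            simp only [Matrix.mul_assoc]
        _ = μ ^ w l i • Bm l i := by
          rw [dl_J (he1 l i) (he2 l i), Matrix.mul_smul, Matrix.smul_mul, hc, smul_smul, div_pow,
            div_mul_cancel₀ _ (pow_ne_zero _ hτ)]
    let G : Matrix B₀ B₀ ℂ → Matrix (IM B₀ (sz nn)) (IM B₀ (sz nn)) ℂ := fun x =>
      EM x (fun l => kum 0 (x b₀ b₀)) fun l => bd fun i => c l i * dl (e l i) ((x b₀ b₀ / τ) ^ w l i)
    have hG : ∀ a b, Pol fun x => G x a b := by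
      refine EM_pol (fun a b => Pol.coord a b) (fun i a b => ?_) (fun l a b => ?_)
      · fin_cases a <;> fin_cases b
        · exact Pol.const 1
        · exact Pol.const 0
        · exact Pol.const 0
        · exact Pol.coord b₀ b₀
      · refine bd_pol (X := fun x : Matrix B₀ B₀ ℂ => fun i => c l i * dl (e l i) ((x b₀ b₀ / τ) ^ w l i))
          (fun i a b => ?_) a b
        simp only [Matrix.mul_apply]
        refine Pol.sum _ fun d _ => Pol.mul (Pol.const _) ?_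
        simp only [dl, Matrix.add_apply, Matrix.smul_apply, smul_eq_mul]
        refine Pol.add (Pol.const _) (Pol.mul (Pol.pow ?_ _) (Pol.const _))
        simp only [div_eq_mul_inv]
        exact Pol.mul (Pol.coord _ _) (Pol.const _)
    refine sub_of (fun x hx => (hPu x hx).1) ?_ ?_ ?_
    · rintro x ⟨κ, X, hX⟩ y ⟨ν, Y, hY⟩ z ⟨ρ, Z, hZ⟩
      have h1 := hT.torsor _ hX _ hY _ hZ
      obtain ⟨h2, h3, h4⟩ := unit_of_EM (hT.isUnit _ hY)
      rw [EM_inv h2 h3 h4, EM_mul, EM_mul] at h1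
      exact ⟨_, _, h1⟩
    · rintro σ hσ x ⟨κ, X, hX⟩
      have h1 := aut_mem hT hσ hX
      rw [EM_map] at h1
      exact ⟨_, _, h1⟩
    · intro y hu hF
      have hcm : Cm b₀ y := by
        intro j hj
        constructor
        · exact hF (fun y => y b₀ j) (Pol.coord _ _) fun x hx => ((hPu x hx).2 j hj).1
        · exact hF (fun y => y j b₀) (Pol.coord _ _) fun x hx => ((hPu x hx).2 j hj).2
      have hμ := (cm_inv hu hcm).2.1
      refine ⟨fun i => kum 0 (y b₀ b₀), fun l => bd fun i => c l i * dl (e l i) ((y b₀ b₀ / τ) ^ w l i), ?_⟩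
      obtain ⟨I, -, hI⟩ := hT.algebraic
      refine (hI _).2 ⟨EM_isUnit hu (fun i => kum_unit hμ) fun l =>
        bd_unit fun i => unit_of_form (pow_ne_zero _ hμ) (hB l i) (hsec l i _), fun p hp => ?_⟩
      refine hF (fun x => MvPolynomial.eval (fl (G x)) p) (Pol.comp hG p) fun x hx => ?_
      have h1 := hfib x hx (fun _ => 0) (fun l i => c l i * dl (e l i) ((x b₀ b₀ / τ) ^ w l i)) fun l i => hsec l i _
      exact ((hI _).1 h1).2 p hp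
  · ext y
    constructor
    · intro hy
      obtain ⟨x, v, X, h1, h2, h3, h4⟩ := hTF hy
      refine ⟨x, v, X, ⟨fun i => kum (v i) (x b₀ b₀), fun l => bd (X l), ?_⟩, h2, h3, h4⟩
      rw [← h4]
      exact hy
    · rintro ⟨x, v, X, h1, h2, h3, rfl⟩
      exact hfib x h1 v X h3

theorem pj_omB (hB : ∀ l i, (Bm l i).det ≠ 0) (hJK : ∀ l i a b, J l i a b ∈ K) (hBK : ∀ l i a b, Bm l i a b ∈ K)
    {c₀ : Matrix B₀ B₀ ℂ} (hc₀ : IsUnit c₀) (hcm : Cm b₀ c₀) {ℓ : Fin q → ℂ}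
    {c : ∀ l i, Matrix (Fin (nn l i)) (Fin (nn l i)) ℂ}
    (hc : ∀ l i, c l i * J l i * (c l i)ᵀ = c₀ b₀ b₀ ^ w l i • Bm l i)
    (hall : ∀ T : Set (Matrix (IM B₀ (sz nn)) (IM B₀ (sz nn)) ℂ), IsSubtorsor K T →
      EM c₀ (fun i => kum (ℓ i) (c₀ b₀ b₀)) (fun l => bd (c l)) ∈ T →
      T ⊆ FPB J Bm w b₀ {x | IsUnit x} → T = FPB J Bm w b₀ (PJ T) ∧ IsSubtorsor K (PJ T))
    {Ω₀ : Set (Matrix B₀ B₀ ℂ)} (hΩ : Om K c₀ Ω₀) :
    Om K (EM c₀ (fun i => kum (ℓ i) (c₀ b₀ b₀)) (fun l => bd (c l))) (FPB J Bm w b₀ Ω₀) := by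
  obtain ⟨h1, h2, h3⟩ := hΩ
  refine ⟨subT_iff.2 (fpb_sub hB hJK hBK (subT_iff.1 h1)), ⟨c₀, ℓ, c, h2, hcm, hc, rfl⟩, fun T hT hcT => ?_⟩
  have hT' := subT_iff.1 hT
  have hU : IsSubtorsor K (FPB (nn := nn) J Bm w b₀ {x | IsUnit x}) := fpb_sub hB hJK hBK units_sub
  have hI := Pool.Agent.Y123.GN.inter_sub hT' hU
  have hcI : EM c₀ (fun i => kum (ℓ i) (c₀ b₀ b₀)) (fun l => bd (c l)) ∈ T ∩ FPB J Bm w b₀ {x | IsUnit x} :=
    ⟨hcT, ⟨c₀, ℓ, c, hc₀, hcm, hc, rfl⟩⟩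
  obtain ⟨h4, h5⟩ := hall _ hI hcI Set.inter_subset_right
  have h6 : Ω₀ ⊆ PJ (T ∩ FPB J Bm w b₀ {x | IsUnit x}) := h3 _ (subT_iff.2 h5) ⟨_, _, hcI⟩
  rintro _ ⟨x, u, X, e1, e2, e3, rfl⟩
  have h7 : EM x (fun i => kum (u i) (x b₀ b₀)) (fun l => bd (X l)) ∈ T ∩ FPB J Bm w b₀ {x | IsUnit x} := by
    rw [h4]
    exact ⟨x, u, X, h6 e1, e2, e3, rfl⟩
  exact h7.1

end

/-- the fibre product property for all subtorsors -/
theorem all_of_staB {B₀ : Type} [Fintype B₀] [DecidableEq B₀] {q : ℕ} {kk : Fin q → ℕ} {m : ∀ l, Fin (kk l) → ℕ}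
    {K : Subfield ℂ} {c₀ : Matrix B₀ B₀ ℂ} {β : ∀ l i, Fin (m l i) → ℚ} (hm : ∀ l i, 1 ≤ m l i)
    (hβ : ∀ l i j, ∀ a : ℤ, β l i j ≠ a)
    {Ω : ∀ l i, Matrix (Fin (n2 m l i)) (Fin (n2 m l i)) ℂ} {t : Fin q → ℕ} (ht : ∀ i, 2 ≤ t i) (h : StaB K c₀ β Ω t)
    {w : ∀ l, Fin (kk l) → ℕ} {Bm : ∀ l i, Matrix (Fin (n2 m l i)) (Fin (n2 m l i)) ℂ}
    (hΩB : ∀ l i, PB β Ω l i = tpi ^ w l i • Bm l i)
    (hB : ∀ l i, (Bm l i).det ≠ 0) {b₀ : B₀}
    {T : Set (Matrix (IM B₀ (sz (n2 m))) (IM B₀ (sz (n2 m))) ℂ)} (hT : IsSubtorsor K T) (hcT : totB c₀ β Ω t ∈ T)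
    (hTF : T ⊆ FPB (fun l i => JJ (β l i)) Bm w b₀ {x | IsUnit x}) :
    IsSubtorsor K (PJ T) ∧ T = FPB (fun l i => JJ (β l i)) Bm w b₀ (PJ T) := by
  have hQ := fun l i => Pool.Agent.Y119.HZ.QD_QB (hm l i) (not_int (hβ l i))
  refine pj_allB (fun l i => Pool.Agent.Y119.HY.Jc_skew (hQ l i)) (fun l i => Pool.Agent.Y119.HY.Jc_det (hQ l i)) hB hT hTF ?_
    tpi_ne (c := cB β Ω t) fun l i => ?_
  · intro a g hg x hx
    refine h T hT hcT a g (fun l i => ?_) x hx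
    rw [hΩB, Matrix.mul_smul, Matrix.smul_mul, hg]
  · rw [cB_form hm hβ Ω ht, hΩB]

end Pool.Agent.W2helper4.HJ
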