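import Pool.Agent.Y119.HY.Fam

/-!
# Systems with unipotent monodromy at the origin satisfy the hypotheses of the theorem on tuples of G-function families
-/

set_option autoImplicit false

open PowerSeries Pool.Agent.Y113 Pool.Agent.Y120.GF Pool.Agent.Y120.GH

namespace Pool.Agent.W2helper4.HJ

open Pool.Agent.Y119.HY (cm Ep E Ep_eval E_HD E_neg cm_apply cm_pow)
open Pool.Agent.Y119.HZ

variable {n : ℕ}

/-- the rational matrix -/
noncomputable def rm (N : Matrix (Fin n) (Fin n) ℤ) : Matrix (Fin n) (Fin n) ℚ := N.map (Int.castRingHom ℚ)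

/-- A system with unipotent monodromy at the origin: the entries of `H z ^ N` are the solutions, the entries of `H` and of
its inverse are G-functions. -/
structure US (N : Matrix (Fin n) (Fin n) ℤ) (H W : Matrix (Fin n) (Fin n) ℚ⟦X⟧) (T : Polynomial ℤ)
    (A : Fin n → Fin n → Polynomial ℤ) : Prop where
  nil : rm N ^ n = 0
  inv : H * W = 1
  ode : ∀ i j, ps T * (X * d⁄dX ℚ (H i j) + ∑ k, H i k * C (rm N k j)) = ∑ k, ps (A i k) * H k j
  zero : ∀ i j, coeff 0 (H i j) = if i = j then 1 else 0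
  gH : ∀ i j, SDc (H i j)
  gW : ∀ i j, SDc (W i j)
  T0 : T ≠ 0

variable {N : Matrix (Fin n) (Fin n) ℤ} {H W : Matrix (Fin n) (Fin n) ℚ⟦X⟧} {T : Polynomial ℤ}
    {A : Fin n → Fin n → Polynomial ℤ}

/-- the system for the entries of the holomorphic part -/
noncomputable def B2 (N : Matrix (Fin n) (Fin n) ℤ) (T : Polynomial ℤ) (A : Fin n → Fin n → Polynomial ℤ)
    (p q : Fin n × Fin n) : Polynomial ℤ :=
  (if q.2 = p.2 then A p.1 q.1 else 0) - (if q.1 = p.1 then T * Polynomial.C (N q.2 p.2) else 0)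

/-- summation -/
lemma sum_B2 {R : Type*} [CommRing R] (f : Polynomial ℤ →+* R) (p : Fin n × Fin n)
    (x : Fin n × Fin n → R) : ∑ q, f (B2 N T A p q) * x q =
      ∑ k, f (A p.1 k) * x (k, p.2) - f T * ∑ l : Fin n, f (Polynomial.C (N l p.2)) * x (p.1, l) := by
  unfold B2
  simp only [map_sub, sub_mul, Finset.sum_sub_distrib]
  congr 1
  · rw [Fintype.sum_prod_type]
    refine Finset.sum_congr rfl fun k _ => ?_
    rw [Finset.sum_eq_single p.2]
    · simp
    · intro l _ hl
      rw [if_neg hl, map_zero, zero_mul]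
    · intro h
      exact absurd (Finset.mem_univ _) h
  · rw [Fintype.sum_prod_type, Finset.sum_eq_single p.1]
    · rw [Finset.mul_sum]
      refine Finset.sum_congr rfl fun l _ => ?_
      rw [if_pos rfl, map_mul]
      ring
    · intro k _ hk
      refine Finset.sum_eq_zero fun l _ => ?_
      rw [if_neg hk, map_zero, zero_mul]
    · intro h
      exact absurd (Finset.mem_univ _) h

lemma psR_N (l j : Fin n) : psR (Polynomial.C (N l j)) = C (rm N l j) := by
  rw [psR_apply]
  unfold ps rm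
  rw [Polynomial.map_C, Polynomial.coe_C, Matrix.map_apply]

lemma ode_B2 (h : US N H W T A) (p : Fin n × Fin n) : ps (Polynomial.X * T) * d⁄dX ℚ (H p.1 p.2) =
      ∑ q, ps (B2 N T A p q) * H q.1 q.2 := by
  have h1 := sum_B2 (N := N) (T := T) (A := A) psR p (fun q => H q.1 q.2)
  simp only [psR_N] at h1
  simp only [psR_apply] at h1
  rw [h1, ← h.ode, ps_X_mul]
  have h2 : ∑ l, C (rm N l p.2) * H p.1 l = ∑ k, H p.1 k * C (rm N k p.2) :=
    Finset.sum_congr rfl fun l _ => mul_comm _ _
  rw [h2]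
  ring

/-! ### the fundamental matrix -/

/-- complex power series as constants in the polynomials in the logarithm -/
noncomputable def Ph (N : Matrix (Fin n) (Fin n) ℤ) (H : Matrix (Fin n) (Fin n) ℚ⟦X⟧) (p q : Fin n × Fin n) :
    Polynomial (PowerSeries ℂ) :=
  ∑ c, Polynomial.C (cx (H p.1 c)) * (pE (cm (rm N)) c q.1 q.2 p.2).map (C (R := ℂ))

lemma Ph_coeff (p q : Fin n × Fin n) (k : ℕ) : (Ph N H p q).coeff k =
    ∑ c, cx (H p.1 c) * C ((pE (cm (rm N)) c q.1 q.2 p.2).coeff k) := by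
  unfold Ph
  rw [Polynomial.finsetSum_coeff]
  refine Finset.sum_congr rfl fun c _ => ?_
  rw [Polynomial.coeff_C_mul, Polynomial.coeff_map]

lemma cxR_N (l j : Fin n) : cxR (Polynomial.C (N l j)) = C (cm (rm N) l j) := by
  show cx (psR (Polynomial.C (N l j))) = _
  rw [psR_N, cx_C]
  rfl

lemma cm_nil (h : US N H W T A) : cm (rm N) ^ n = 0 := by
  rw [← cm_pow, h.nil, Pool.Agent.Y119.HY.cm_zero]

theorem Ph_ode (h : US N H W T A) (p q : Fin n × Fin n) (k : ℕ) :
    cxR T * ((X : PowerSeries ℂ) * PowerSeries.derivative ℂ ((Ph N H p q).coeff k) +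
      ((k : PowerSeries ℂ) + 1) * (Ph N H p q).coeff (k + 1)) = ∑ l, cxR (B2 N T A p l) * (Ph N H l q).coeff k := by
  have hN : cm (rm N) ^ n = 0 := cm_nil h
  set NN := cm (rm N) with hNd
  obtain ⟨i, j⟩ := p
  obtain ⟨a, c'⟩ := q
  -- the equation over the complex numbers
  have hode : ∀ i j, cxR T * (X * PowerSeries.derivative ℂ (cx (H i j)) + ∑ k, cx (H i k) * C (NN k j)) =
      ∑ k, cxR (A i k) * cx (H k j) := by
    intro i j
    have h1 := congrArg cx (h.ode i j)
    rw [map_mul, map_add, map_mul, map_sum, map_sum, cx_der] at h1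
    have h2 : cx (X : ℚ⟦X⟧) = X := by rw [cx, map_X]
    rw [h2] at h1
    simp only [map_mul, cx_C] at h1
    exact h1
  rw [sum_B2]
  simp only [cxR_N]
  simp only [Ph_coeff]
  -- the derivative of the coefficients
  have hd : PowerSeries.derivative ℂ (∑ c, cx (H i c) * C ((pE NN c a c' j).coeff k)) =
      ∑ c, PowerSeries.derivative ℂ (cx (H i c)) * C ((pE NN c a c' j).coeff k) := by
    rw [map_sum]
    refine Finset.sum_congr rfl fun c _ => ?_
    rw [Derivation.leibniz, PowerSeries.derivative_C]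
    simp only [smul_eq_mul]
    ring
  have hk : ((k : PowerSeries ℂ) + 1) * ∑ c, cx (H i c) * C ((pE NN c a c' j).coeff (k + 1)) =
      ∑ c, (∑ d, cx (H i d) * C (NN d c)) * C ((pE NN c a c' j).coeff k) -
      ∑ l, C (NN l j) * ∑ c, cx (H i c) * C ((pE NN c a c' l).coeff k) := by
    have e1 : ((k : PowerSeries ℂ) + 1) = C ((k : ℂ) + 1) := by rw [map_add, map_one, map_natCast]
    have e2 : ∀ c, C ((k : ℂ) + 1) * (cx (H i c) * C ((pE NN c a c' j).coeff (k + 1))) =
        cx (H i c) * (∑ d, C (NN c d) * C ((pE NN d a c' j).coeff k)) -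
        cx (H i c) * ∑ d, C (NN d j) * C ((pE NN c a c' d).coeff k) := by
      intro c
      have e3 : C ((k : ℂ) + 1) * C ((pE NN c a c' j).coeff (k + 1)) =
          (∑ d, C (NN c d) * C ((pE NN d a c' j).coeff k)) - ∑ d, C (NN d j) * C ((pE NN c a c' d).coeff k) := by
        rw [← map_mul, pE_deriv hN, map_sub, map_sum, map_sum]
        simp only [map_mul]
      rw [← mul_sub, ← e3]
      ring
    rw [e1, Finset.mul_sum, Finset.sum_congr rfl fun c _ => e2 c, Finset.sum_sub_distrib]
    congr 1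
    · simp only [Finset.mul_sum, Finset.sum_mul]
      rw [Finset.sum_comm]
      exact Finset.sum_congr rfl fun c _ => Finset.sum_congr rfl fun d _ => by ring
    · simp only [Finset.mul_sum]
      rw [Finset.sum_comm]
      exact Finset.sum_congr rfl fun c _ => Finset.sum_congr rfl fun d _ => by ring
  rw [hd, hk]
  have hmain : cxR T * ((X : PowerSeries ℂ) * ∑ c, PowerSeries.derivative ℂ (cx (H i c)) * C ((pE NN c a c' j).coeff k) +
      ∑ c, (∑ d, cx (H i d) * C (NN d c)) * C ((pE NN c a c' j).coeff k)) =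
      ∑ k', cxR (A i k') * ∑ c, cx (H k' c) * C ((pE NN c a c' j).coeff k) := by
    have e1 : (X : PowerSeries ℂ) * ∑ c, PowerSeries.derivative ℂ (cx (H i c)) * C ((pE NN c a c' j).coeff k) +
        ∑ c, (∑ d, cx (H i d) * C (NN d c)) * C ((pE NN c a c' j).coeff k) =
        ∑ c, (X * PowerSeries.derivative ℂ (cx (H i c)) + ∑ d, cx (H i d) * C (NN d c)) *
          C ((pE NN c a c' j).coeff k) := by
      rw [Finset.mul_sum, ← Finset.sum_add_distrib]
      exact Finset.sum_congr rfl fun c _ => by ring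
    rw [e1, Finset.mul_sum]
    have e2 : ∀ c, cxR T * ((X * PowerSeries.derivative ℂ (cx (H i c)) + ∑ d, cx (H i d) * C (NN d c)) *
          C ((pE NN c a c' j).coeff k)) = ∑ k', cxR (A i k') * (cx (H k' c) * C ((pE NN c a c' j).coeff k)) := by
      intro c
      rw [← mul_assoc, hode i c, Finset.sum_mul]
      exact Finset.sum_congr rfl fun k' _ => by ring
    rw [Finset.sum_congr rfl fun c _ => e2 c, Finset.sum_comm]
    exact Finset.sum_congr rfl fun k' _ => by rw [Finset.mul_sum]
  rw [← hmain]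
  ring

/-! ### the hypotheses over `Fin r` -/

/-- the entries as a family -/
noncomputable def hg (H : Matrix (Fin n) (Fin n) ℚ⟦X⟧) (a : Fin (n * n)) : ℚ⟦X⟧ := H (ix n a).1 (ix n a).2

lemma rho_Ph (h : US N H W T A) (p q : Fin n × Fin n) : rho (Ph N H p q) = if p = q then 1 else 0 := by
  have hN : cm (rm N) ^ n = 0 := cm_nil h
  have hN' : (-cm (rm N)) ^ n = 0 := by rw [neg_pow, hN, mul_zero]
  unfold Ph
  rw [map_sum]
  have h1 : ∀ c, rho (Polynomial.C (cx (H p.1 c)) * (pE (cm (rm N)) c q.1 q.2 p.2).map (C (R := ℂ))) =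
      (if p.1 = c then 1 else 0) * ((if c = q.1 then 1 else 0) * (if q.2 = p.2 then 1 else 0)) := by
    intro c
    unfold rho
    rw [map_mul, RingHom.comp_apply, RingHom.comp_apply, Polynomial.coe_evalRingHom, Polynomial.eval_C]
    congr 1
    · rw [← coeff_zero_eq_constantCoeff_apply, coeff_cx, h.zero]
      split_ifs <;> simp
    · have h3 : Polynomial.eval 0 ((pE (cm (rm N)) c q.1 q.2 p.2).map (C (R := ℂ))) =
          C ((pE (cm (rm N)) c q.1 q.2 p.2).eval 0) := by
        have := Polynomial.eval_map_apply (p := pE (cm (rm N)) c q.1 q.2 p.2) (C (R := ℂ)) 0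
        rw [map_zero] at this
        exact this
      rw [h3]
      unfold pE
      rw [Polynomial.eval_mul, Ep_eval_zero hN, Ep_eval_zero hN']
      simp
  simp only [h1]
  rw [Finset.sum_eq_single p.1]
  · rw [if_pos rfl, one_mul]
    by_cases h2 : p = q
    · rw [if_pos h2, h2, if_pos rfl, if_pos rfl, one_mul]
    · rw [if_neg h2]
      by_cases h3 : p.1 = q.1
      · rw [if_neg (fun h4 : q.2 = p.2 => h2 (Prod.ext h3 h4.symm)), mul_zero]
      · rw [if_neg h3, zero_mul]
  · intro c _ hc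
    rw [if_neg (Ne.symm hc), zero_mul]
  · intro h
    exact absurd (Finset.mem_univ _) h

theorem qu_hg (h : US N H W T A) :
    QU0 (Polynomial.X * T) (fun a c : Fin (n * n) => B2 N T A (ix n a) (ix n c)) := by
  classical
  obtain ⟨B, hB0, hB⟩ := pE_bound (cm (rm N))
  obtain ⟨C₁, hC₁, hs, -⟩ := Pool.Agent.Y119.HY.SDc.unif (y := fun p : Fin n × Fin n => H p.1 p.2) fun p => h.gH p.1 p.2
  refine ⟨1, one_ne_zero, 0, (n * B + 1) * C₁, Matrix.of fun a c => Ph N H (ix n a) (ix n c), fun a c k m => ?_,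
    fun a c k => ?_, ?_⟩
  · rw [Matrix.of_apply, Ph_coeff, map_sum]
    have h1 : ∀ d, ‖coeff m (cx (H (ix n a).1 d) * C ((pE (cm (rm N)) d (ix n c).1 (ix n c).2 (ix n a).2).coeff k))‖ ≤
        C₁ ^ (m + 1) * B := by
      intro d
      rw [coeff_mul_C, norm_mul, norm_coeff_cx]
      exact mul_le_mul (hs (_, d) m) (hB _ _ _ _ _) (norm_nonneg _) (by positivity)
    refine (norm_sum_le _ _).trans ((Finset.sum_le_sum fun d _ => h1 d).trans ?_)
    rw [Finset.sum_const, Finset.card_univ, Fintype.card_fin, nsmul_eq_mul, mul_pow]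
    have h2 : (n : ℝ) * B ≤ (n * B + 1) ^ (m + 1) := by
      have h3 : 0 ≤ (n : ℝ) * B := by positivity
      exact le_trans (by linarith) (le_self_pow₀ (by linarith) (by omega))
    calc (n : ℝ) * (C₁ ^ (m + 1) * B) = (n * B) * C₁ ^ (m + 1) := by ring
      _ ≤ _ := mul_le_mul_of_nonneg_right h2 (by positivity)
  · have h1 := Ph_ode h (ix n a) (ix n c) k
    simp only [expand_poly one_ne_zero, Polynomial.expand_one]
    simp only [← cxR_apply]
    rw [Nat.cast_zero, zero_mul, sub_zero, Nat.cast_one, one_mul, pow_one]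
    have h2 : ∑ l : Fin (n * n), cxR (B2 N T A (ix n a) (ix n l)) *
        ((Matrix.of fun a c => Ph N H (ix n a) (ix n c)) l c).coeff k =
        ∑ l, cxR (B2 N T A (ix n a) l) * (Ph N H l (ix n c)).coeff k :=
      Equiv.sum_comp (ix n) fun l => cxR (B2 N T A (ix n a) l) * (Ph N H l (ix n c)).coeff k
    rw [h2, ← h1, map_mul]
    have h3 : cxR Polynomial.X = (X : PowerSeries ℂ) := by
      rw [cxR_apply, Polynomial.map_X, Polynomial.coe_X]
    rw [h3, mul_assoc]
    rfl
  · intro h0
    have h1 := congrArg rho h0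
    rw [RingHom.map_det, map_zero] at h1
    have h2 : rho.mapMatrix (Matrix.of fun a c : Fin (n * n) => Ph N H (ix n a) (ix n c)) = 1 := by
      ext a c
      rw [RingHom.mapMatrix_apply, Matrix.map_apply, Matrix.of_apply, rho_Ph h, Matrix.one_apply]
      by_cases h3 : a = c
      · rw [if_pos h3, if_pos (by rw [h3])]
      · rw [if_neg h3, if_neg fun h4 => h3 ((ix n).injective h4)]
    rw [h2, Matrix.det_one] at h1
    exact one_ne_zero h1

/-- **the hypothesis of the theorem on tuples** -/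
theorem hfam_hg (h : US N H W T A) (δ : ℕ) :
    ∃ (B : Finset (Fin δ → Option (Fin (n * n)))) (a : Polynomial ℤ)
      (M : (Fin δ → Option (Fin (n * n))) → B → Polynomial ℤ), a ≠ 0 ∧
      (∀ b, ps a * yw (hg H) b = ∑ β, ps (M b β) * yw (hg H) β.1) ∧ One (XF δ fun β : B => yw (hg H) β.1) := by
  obtain ⟨q, C, hG⟩ := gsysL (N := rm N) h.nil h.inv h.ode h.gH h.gW
  have hG' := hG.reindex (ix n)
  have hT : Polynomial.X * T ≠ 0 := mul_ne_zero Polynomial.X_ne_zero h.T0
  refine family_gsys (h := hg H) (A := fun a c => B2 N T A (ix n a) (ix n c)) hT (fun i => ?_) hG' (qu_hg h) δ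
  have h1 := ode_B2 h (ix n i)
  have h2 : ∑ j : Fin (n * n), ps (B2 N T A (ix n i) (ix n j)) * hg H j =
      ∑ q, ps (B2 N T A (ix n i) q) * H q.1 q.2 :=
    Equiv.sum_comp (ix n) fun q => ps (B2 N T A (ix n i) q) * H q.1 q.2
  exact h1.trans h2.symm

end Pool.Agent.W2helper4.HJ
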