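import Pool.Agent.W2helper4.HJ.Gen
import Pool.Agent.Y119.HY.Fin2

/-!
# Systems with unipotent monodromy at the origin: few tuples of fibres with exceptional relations
-/

set_option autoImplicit false

open PowerSeries Pool.Agent.Y113 Pool.Agent.Y120.GF Pool.Agent.Y120.GH

namespace Pool.Agent.W2helper4.HJ

open Pool.Agent.Y119.HY (cm E Hf Yf Vr Rel Gal E_add E_zero E_mul_neg Sol Ep Ep_eval)
open Pool.Agent.Y119.HZ

section one
variable {n : ℕ} {N : Matrix (Fin n) (Fin n) ℤ} {H : Matrix (Fin n) (Fin n) ℚ⟦X⟧} {N1 : Matrix (Fin n) (Fin n) ℂ}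

/-- the coefficient matrices -/
noncomputable def Hcc (H : Matrix (Fin n) (Fin n) ℚ⟦X⟧) (k : ℕ) : Matrix (Fin n) (Fin n) ℂ := cm (cf H k)

lemma Hcc_apply (k : ℕ) (i j : Fin n) : Hcc H k i j = ((coeff k (H i j) : ℚ) : ℂ) := rfl

/-- the entries converge for `t > 1` -/
lemma Cv_H (hN : cm (rm N) ^ n = 0) (hs : Sol (cm (rm N)) N1 (Hcc H)) {t : ℝ} (ht : 1 < t) (i j : Fin n) :
    Cv t (H i j) := by
  have h1 := (hs.growth hN i j).summable
    (r := 1 / t) (by positivity) (by rw [div_lt_one (by linarith)]; exact ht)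
  refine h1.congr fun m => ?_
  congr 1
  rw [Hcc_apply]
  have h3 : ((coeff m (H i j) : ℚ) : ℂ) = (((coeff m (H i j) : ℚ) : ℝ) : ℂ) := by push_cast; rfl
  rw [h3, Complex.norm_real, Real.norm_eq_abs]

/-- the values -/
lemma ev_H (t : ℝ) (i j : Fin n) : ((ev t (H i j) : ℝ) : ℂ) = Hf (Hcc H) (((1 / t : ℝ)) : ℂ) i j := by
  unfold Hf
  rw [Matrix.of_apply]
  unfold Pool.Agent.Y119.HY.ps ev
  rw [Complex.ofReal_tsum]
  refine tsum_congr fun m => ?_
  show _ = Hcc H m i j * _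
  rw [Hcc_apply]
  push_cast
  rfl

lemma ev_aevalg (hN : cm (rm N) ^ n = 0) (hs : Sol (cm (rm N)) N1 (Hcc H)) {t : ℝ} (ht : 1 < t)
    (R : MvPolynomial (Fin (n * n)) (Polynomial ℚ)) :
    Cv t (MvPolynomial.aeval (hg H) R) ∧ ((ev t (MvPolynomial.aeval (hg H) R) : ℝ) : ℂ) =
      MvPolynomial.eval₂ (evq (((1 / t : ℝ)) : ℂ)) (fun j => ((ev t (hg H j) : ℝ) : ℂ)) R := by
  have ht0 : 0 < t := by linarith
  induction R using MvPolynomial.induction_on with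
  | C p =>
    have h1 : MvPolynomial.aeval (hg H) (MvPolynomial.C p) = (p : ℚ⟦X⟧) := by
      rw [MvPolynomial.aeval_C, PowerSeries.algebraMap_apply']
      simp
    rw [h1, MvPolynomial.eval₂_C]
    refine ⟨Cv.coe p, ?_⟩
    rw [ev_coe]
    unfold evq
    have h2 : (((1 / t : ℝ)) : ℂ) = algebraMap ℝ ℂ (1 / t) := rfl
    rw [h2]
    show _ = Polynomial.aeval (algebraMap ℝ ℂ (1 / t)) p
    rw [Polynomial.aeval_algebraMap_apply]
    rfl
  | add p q hp hq =>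
    rw [map_add, MvPolynomial.eval₂_add, ← hp.2, ← hq.2, Cv.ev_add ht0 hp.1 hq.1]
    refine ⟨Cv.add ht0 hp.1 hq.1, ?_⟩
    push_cast
    rfl
  | mul_X p j hp =>
    have h1 : Cv t (hg H j) := Cv_H hN hs ht _ _
    rw [map_mul, MvPolynomial.aeval_X, MvPolynomial.eval₂_mul, MvPolynomial.eval₂_X, ← hp.2, Cv.ev_mul ht0 hp.1 h1]
    refine ⟨Cv.mul ht0 hp.1 h1, ?_⟩
    push_cast
    rfl

/-- **invariance of the relations between the entries of the holomorphic part** -/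
theorem rel_invg (hN : cm (rm N) ^ n = 0) (hs : Sol (cm (rm N)) N1 (Hcc H))
    {R : MvPolynomial (Fin (n * n)) (Polynomial ℚ)} (hR : MvPolynomial.aeval (hg H) R = 0)
    {x : ℝ} (hx : 0 < x) (hx1 : x < 1) {κ : Matrix (Fin n) (Fin n) ℂ}
    (hκ : E (cm (rm N)) (-Complex.log x) * κ * E (cm (rm N)) (Complex.log x) ∈ Gal (Yf (cm (rm N)) (Hcc H))) :
    MvPolynomial.eval₂ (evq (x : ℂ)) (fun j => (Hf (Hcc H) (x : ℂ) * κ) (ix n j).1 (ix n j).2) R = 0 := by
  set NN := cm (rm N) with hNd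
  -- the relation
  have hrel : PR NN R ∈ Rel (Yf NN (Hcc H)) := by
    intro y hy hy1
    rw [ev_PR]
    have e1 : Yf NN (Hcc H) (y : ℂ) * E NN (-Complex.log y) = Hf (Hcc H) (y : ℂ) := by
      unfold Yf
      rw [Matrix.mul_assoc, E_mul_neg hN, mul_one]
    rw [e1]
    have hy' : 1 < 1 / y := by rw [lt_div_iff₀ hy]; linarith
    have h1 := (ev_aevalg hN hs hy' R).2
    rw [hR] at h1
    have h2 : ev (1 / y) (0 : ℚ⟦X⟧) = 0 := by
      unfold ev
      simp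
    rw [h2, Complex.ofReal_zero, one_div_one_div] at h1
    have h3 : (fun j => ((ev (1 / y) (hg H j) : ℝ) : ℂ)) = fun j => Hf (Hcc H) (y : ℂ) (ix n j).1 (ix n j).2 := by
      funext j
      unfold hg
      rw [ev_H, one_div_one_div]
    rw [h3] at h1
    exact h1.symm
  have h1 := hκ _ hrel x hx hx1
  rw [ev_PR] at h1
  set L : ℂ := Complex.log x with hL
  have e2 : Yf NN (Hcc H) (x : ℂ) * (E NN (-L) * κ * E NN L) * E NN (-L) = Hf (Hcc H) (x : ℂ) * κ := by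
    unfold Yf
    have e3 : E NN L * E NN (-L) = 1 := E_mul_neg hN L
    calc Hf (Hcc H) (x : ℂ) * E NN (Complex.log x) * (E NN (-L) * κ * E NN L) * E NN (-L) =
          Hf (Hcc H) (x : ℂ) * (E NN L * E NN (-L)) * κ * (E NN L * E NN (-L)) := by
            simp only [Matrix.mul_assoc]
            rfl
      _ = _ := by rw [e3, mul_one, mul_one]
  rw [e2] at h1
  exact h1

end one

/-! ### the substitution -/

variable {k : ℕ} {n : Fin k → ℕ}

/-- the rational coefficients of `exp (- N L)` -/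
noncomputable def qeg {n : ℕ} (N : Matrix (Fin n) (Fin n) ℚ) (l : ℕ) (c d : Fin n) : ℚ :=
  (-1) ^ l / (l.factorial : ℚ) * (N ^ l) c d

lemma E_qeg {n : ℕ} (N : Matrix (Fin n) (Fin n) ℚ) (L : ℂ) (c d : Fin n) :
    E (cm N) (-L) c d = ∑ l ∈ Finset.range n, ((qeg N l c d : ℚ) : ℂ) * L ^ l := by
  unfold E
  rw [Matrix.sum_apply]
  refine Finset.sum_congr rfl fun l _ => ?_
  rw [Matrix.smul_apply, ← Pool.Agent.Y119.HY.cm_pow, Pool.Agent.Y119.HY.cm_apply, smul_eq_mul, neg_pow]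
  unfold qeg
  push_cast
  ring

/-- the part with rational coefficients -/
noncomputable def rpg (N : ∀ i, Matrix (Fin (n i)) (Fin (n i)) ℚ) (i : Fin k) (a c d : Fin (n i)) :
    MvPolynomial (Vx n) ℚ :=
  MvPolynomial.X ⟨i, some ((ix (n i)).symm (a, c))⟩ *
    ∑ l ∈ Finset.range (n i), MvPolynomial.C (qeg (N i) l c d) * MvPolynomial.X ⟨i, none⟩ ^ l

/-- the substitution -/
noncomputable def subg (N : ∀ i, Matrix (Fin (n i)) (Fin (n i)) ℚ) (Ω : ∀ i, Matrix (Fin (n i)) (Fin (n i)) ℂ)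
    (v : Jx n) : MvPolynomial (Vx n) ℂ :=
  match v with
  | ⟨i, none⟩ => MvPolynomial.X ⟨i, none⟩
  | ⟨i, some p⟩ => ∑ c, ∑ d, MvPolynomial.map (algebraMap ℚ ℂ) (rpg N i p.1 c d) * MvPolynomial.C (Ω i d p.2)

variable {N : ∀ i, Matrix (Fin (n i)) (Fin (n i)) ℚ}

lemma aeval_rpg (Z : ∀ i, Matrix (Fin (n i)) (Fin (n i)) ℂ) (l : Fin k → ℂ) (i : Fin k) (a c d : Fin (n i)) :
    MvPolynomial.aeval (pt (fun i j => Z i (ix (n i) j).1 (ix (n i) j).2) l)
      (MvPolynomial.map (algebraMap ℚ ℂ) (rpg N i a c d)) = Z i a c * E (cm (N i)) (-l i) c d := by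
  unfold rpg
  rw [map_mul, map_mul, MvPolynomial.map_X, MvPolynomial.aeval_X, map_sum, map_sum, E_qeg]
  congr 1
  · unfold pt
    simp
  · refine Finset.sum_congr rfl fun e _ => ?_
    rw [map_mul, map_mul, map_pow, map_pow, MvPolynomial.map_X, MvPolynomial.aeval_X, MvPolynomial.map_C, MvPolynomial.aeval_C]
    rfl

lemma aeval_subg (Ω : ∀ i, Matrix (Fin (n i)) (Fin (n i)) ℂ) (Z : ∀ i, Matrix (Fin (n i)) (Fin (n i)) ℂ) (l : Fin k → ℂ)
    (v : Jx n) : MvPolynomial.aeval (pt (fun i j => Z i (ix (n i) j).1 (ix (n i) j).2) l) (subg N Ω v) =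
      pw l (fun i => Z i * E (cm (N i)) (-l i) * Ω i) v := by
  obtain ⟨i, _ | p⟩ := v
  · show MvPolynomial.aeval _ (MvPolynomial.X _) = _
    rw [MvPolynomial.aeval_X]
    rfl
  · show MvPolynomial.aeval _ (∑ c, ∑ d, MvPolynomial.map (algebraMap ℚ ℂ) (rpg N i p.1 c d) *
      MvPolynomial.C (Ω i d p.2)) = (Z i * E (cm (N i)) (-l i) * Ω i) p.1 p.2
    rw [map_sum, Matrix.mul_apply]
    simp only [map_sum, map_mul, aeval_rpg, Matrix.mul_apply, Finset.sum_mul]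
    rw [Finset.sum_comm]
    refine Finset.sum_congr rfl fun d _ => Finset.sum_congr rfl fun c _ => ?_
    rw [MvPolynomial.aeval_C]
    rfl

lemma deg_subg (Ω : ∀ i, Matrix (Fin (n i)) (Fin (n i)) ℂ) (v : Jx n) : (subg N Ω v).totalDegree ≤ dg n := by
  obtain ⟨i, _ | p⟩ := v
  · show (MvPolynomial.X _ : MvPolynomial (Vx n) ℂ).totalDegree ≤ _
    rw [MvPolynomial.totalDegree_X]
    unfold dg
    omega
  · show (∑ c, ∑ d, MvPolynomial.map (algebraMap ℚ ℂ) (rpg N i p.1 c d) * MvPolynomial.C (Ω i d p.2)).totalDegree ≤ _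
    refine (MvPolynomial.totalDegree_finsetSum _ _).trans (Finset.sup_le fun c _ => ?_)
    refine (MvPolynomial.totalDegree_finsetSum _ _).trans (Finset.sup_le fun d _ => ?_)
    refine (MvPolynomial.totalDegree_mul _ _).trans ?_
    rw [MvPolynomial.totalDegree_C, add_zero]
    have h0 : (MvPolynomial.map (algebraMap ℚ ℂ) (rpg N i p.1 c d)).totalDegree ≤ (rpg N i p.1 c d).totalDegree :=
      Finset.sup_mono (MvPolynomial.support_map_subset _ _)
    refine h0.trans ?_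
    unfold rpg
    refine (MvPolynomial.totalDegree_mul _ _).trans ?_
    rw [MvPolynomial.totalDegree_X]
    have h1 : n i ≤ ∑ i, n i := Finset.single_le_sum (f := n) (fun _ _ => Nat.zero_le _) (Finset.mem_univ i)
    have h2 : (∑ l ∈ Finset.range (n i), MvPolynomial.C (qeg (N i) l c d) *
        (MvPolynomial.X ⟨i, none⟩ : MvPolynomial (Vx n) ℚ) ^ l).totalDegree ≤ n i := by
      refine (MvPolynomial.totalDegree_finsetSum _ _).trans (Finset.sup_le fun l hl => ?_)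
      refine (MvPolynomial.totalDegree_mul _ _).trans ?_
      rw [MvPolynomial.totalDegree_C, zero_add, MvPolynomial.totalDegree_X_pow]
      exact (Finset.mem_range.1 hl).le
    unfold dg
    omega

lemma mul_subg {V : Submodule ℚ ℂ} (Ω : ∀ i, Matrix (Fin (n i)) (Fin (n i)) ℂ) {p : MvPolynomial (Vx n) ℂ} (hp : MV V p)
    (v : Jx n) : MV (Ext V (fo Ω)) (p * subg N Ω v) := by
  obtain ⟨i, _ | q⟩ := v
  · have h1 := MV.ext Ω (hp.mul_rat (MvPolynomial.X ⟨i, none⟩))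
    rwa [MvPolynomial.map_X] at h1
  · show MV (Ext V (fo Ω)) (p * ∑ c, ∑ d, MvPolynomial.map (algebraMap ℚ ℂ) (rpg N i q.1 c d) *
      MvPolynomial.C (Ω i d q.2))
    rw [Finset.mul_sum]
    refine MV.sum _ fun c _ => ?_
    rw [Finset.mul_sum]
    refine MV.sum _ fun d _ => ?_
    rw [← mul_assoc]
    intro m
    rw [mul_comm, MvPolynomial.coeff_C_mul, mul_comm]
    exact mem_Ext_one Ω (some ⟨i, d, q.2⟩) (hp.mul_rat _ m)

lemma MV_msg (Ω : ∀ i, Matrix (Fin (n i)) (Fin (n i)) ℂ) {V : Submodule ℚ ℂ} {c : ℂ} (hc : c ∈ V) (ms : Multiset (Jx n)) :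
    MV (Vn Ω V (Multiset.card ms)) (MvPolynomial.C c * (ms.map (subg N Ω)).prod) ∧
      (MvPolynomial.C c * (ms.map (subg N Ω)).prod).totalDegree ≤ Multiset.card ms * dg n := by
  classical
  induction ms using Multiset.induction_on with
  | empty =>
    rw [Multiset.map_zero, Multiset.prod_zero, mul_one, Multiset.card_zero, zero_mul, MvPolynomial.totalDegree_C]
    refine ⟨fun m => ?_, le_rfl⟩
    rw [MvPolynomial.coeff_C]
    split_ifs
    · exact hc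
    · exact V.zero_mem
  | cons v ms ih =>
    have h1 : MvPolynomial.C c * ((v ::ₘ ms).map (subg N Ω)).prod =
        (MvPolynomial.C c * (ms.map (subg N Ω)).prod) * subg N Ω v := by
      rw [Multiset.map_cons, Multiset.prod_cons]
      ring
    rw [h1, Multiset.card_cons]
    refine ⟨mul_subg Ω ih.1 v, (MvPolynomial.totalDegree_mul _ _).trans ?_⟩
    rw [add_mul, one_mul]
    exact add_le_add ih.2 (deg_subg Ω v)

/-- the substituted polynomial -/
theorem aeval_MVg (Ω : ∀ i, Matrix (Fin (n i)) (Fin (n i)) ℂ) {V : Submodule ℚ ℂ} {δ : ℕ} {P : MvPolynomial (Jx n) ℂ}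
    (hP : P.totalDegree ≤ δ) (hV : ∀ s, P.coeff s ∈ V) :
    MV (Vn Ω V δ) (MvPolynomial.aeval (subg N Ω) P) ∧ (MvPolynomial.aeval (subg N Ω) P).totalDegree ≤ δ * dg n := by
  classical
  have h1 : MvPolynomial.aeval (subg N Ω) P = ∑ s ∈ P.support, MvPolynomial.C (P.coeff s) *
      ((Finsupp.toMultiset s).map (subg N Ω)).prod := by
    rw [MvPolynomial.aeval_def, MvPolynomial.eval₂_eq]
    refine Finset.sum_congr rfl fun s _ => ?_
    congr 1
    rw [Finsupp.toMultiset_map, Finsupp.prod_toMultiset, Finsupp.prod_mapDomain_index (by simp) (by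
      intro a b c
      rw [pow_add])]
    rfl
  have h2 : ∀ s ∈ P.support, Multiset.card (Finsupp.toMultiset s) ≤ δ := by
    intro s hs
    rw [Finsupp.card_toMultiset]
    exact (MvPolynomial.le_totalDegree hs).trans hP
  rw [h1]
  refine ⟨MV.sum _ fun s hs => MV_mono Ω (h2 s hs) (MV_msg Ω (hV s) _).1, ?_⟩
  refine (MvPolynomial.totalDegree_finsetSum _ _).trans (Finset.sup_le fun s hs => ?_)
  exact (MV_msg Ω (hV s) _).2.trans (Nat.mul_le_mul_right _ (h2 s hs))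

/-! ### the theorem on tuples -/

/-- a submonoid of matrices which preserve the relations, and contains the monodromy at the origin and the inverses of
the values of the holomorphic part -/
structure GD {n : ℕ} (N : Matrix (Fin n) (Fin n) ℤ) (H : Matrix (Fin n) (Fin n) ℚ⟦X⟧) (N1 : Matrix (Fin n) (Fin n) ℂ)
    (G : Submonoid (Matrix (Fin n) (Fin n) ℂ)) : Prop where
  sol : Sol (cm (rm N)) N1 (Hcc H)
  gal : ∀ g ∈ G, g ∈ Gal (Yf (cm (rm N)) (Hcc H))
  exp : ∀ s, E (cm (rm N)) s ∈ G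
  inv : ∀ t : ℕ, 2 ≤ t → ∃ W ∈ G, Hf (Hcc H) (((1 / (t : ℝ) : ℝ)) : ℂ) * W = 1

/-- the period matrix at `1 / t` -/
noncomputable def YT {n : ℕ} (N : Matrix (Fin n) (Fin n) ℤ) (H : Matrix (Fin n) (Fin n) ℚ⟦X⟧) (t : ℕ) :
    Matrix (Fin n) (Fin n) ℂ :=
  Hf (Hcc H) (((1 / (t : ℝ) : ℝ)) : ℂ) * E (cm (rm N)) (-((Real.log t : ℝ) : ℂ))

theorem relI_vanishg {NZ : ∀ i, Matrix (Fin (n i)) (Fin (n i)) ℤ} {H : ∀ i, Matrix (Fin (n i)) (Fin (n i)) ℚ⟦X⟧}
    {N1 : ∀ i, Matrix (Fin (n i)) (Fin (n i)) ℂ} {G : ∀ i, Submonoid (Matrix (Fin (n i)) (Fin (n i)) ℂ)}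
    (hN : ∀ i, cm (rm (NZ i)) ^ n i = 0)
    (hG : ∀ i, GD (NZ i) (H i) (N1 i) (G i)) {δ : ℕ} {t : Fin k → ℕ} (ht : ∀ i, 2 ≤ t i)
    {κ : ∀ i, Matrix (Fin (n i)) (Fin (n i)) ℂ}
    (hκ : ∀ i, κ i ∈ G i) (l : Fin k → ℂ)
    {P : MvPolynomial (Vx n) ℂ} (hP : P ∈ relI δ (fun i => hg (H i)) t) :
    MvPolynomial.aeval (pt (fun i j => (Hf (Hcc (H i)) (((1 / (t i : ℝ) : ℝ)) : ℂ) * κ i) (ix (n i) j).1 (ix (n i) j).2) l) P = 0 := by
  set θ := pt (fun i j => (Hf (Hcc (H i)) (((1 / (t i : ℝ) : ℝ)) : ℂ) * κ i) (ix (n i) j).1 (ix (n i) j).2) l with hθ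
  have h1 : relI δ (fun i => hg (H i)) t ≤ RingHom.ker (MvPolynomial.aeval (R := ℂ) θ).toRingHom := by
    unfold relI
    rw [Ideal.span_le]
    rintro _ ⟨i, R, -, hR, rfl⟩
    show (MvPolynomial.aeval θ) (MvPolynomial.rename (fun j => (⟨i, some j⟩ : Vx n)) (MvPolynomial.map (spec (t i)) R)) = 0
    rw [MvPolynomial.aeval_rename, MvPolynomial.aeval_def, MvPolynomial.eval₂_map]
    have h2 : (algebraMap ℂ ℂ).comp (spec (t i)) = evq (((1 / (t i : ℝ) : ℝ)) : ℂ) := by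
      rw [← spec_eq]
      rfl
    rw [h2]
    have h3 : (2 : ℝ) ≤ t i := by exact_mod_cast ht i
    have h4 := rel_invg (hN i) (hG i).sol (R := R) hR (x := 1 / (t i : ℝ)) (by positivity)
      (by rw [div_lt_one (by linarith)]; linarith) (κ := κ i)
      ((hG i).gal _ ((G i).mul_mem ((G i).mul_mem ((hG i).exp _) (hκ i)) ((hG i).exp _)))
    have h5 : (θ ∘ fun j => (⟨i, some j⟩ : Vx n)) = fun j : Fin (n i * n i) =>
        (Hf (Hcc (H i)) (((1 / (t i : ℝ) : ℝ)) : ℂ) * κ i) (ix (n i) j).1 (ix (n i) j).2 := by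
      funext j
      rfl
    rw [h5]
    exact h4
  exact h1 hP

/-- **Few exceptional tuples.** -/
theorem uni_tuples (k δ D : ℕ) (n : Fin k → ℕ) {NZ : ∀ i, Matrix (Fin (n i)) (Fin (n i)) ℤ}
    {H W : ∀ i, Matrix (Fin (n i)) (Fin (n i)) ℚ⟦X⟧} {T : Fin k → Polynomial ℤ}
    {A : ∀ i, Fin (n i) → Fin (n i) → Polynomial ℤ}
    {N1 : ∀ i, Matrix (Fin (n i)) (Fin (n i)) ℂ} {G : ∀ i, Submonoid (Matrix (Fin (n i)) (Fin (n i)) ℂ)}
    (hU : ∀ i, US (NZ i) (H i) (W i) (T i) (A i)) (hG : ∀ i, GD (NZ i) (H i) (N1 i) (G i)) :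
    ∃ c C : ℝ, 0 < c ∧ 0 ≤ C ∧ ∀ (V : Submodule ℚ ℂ) [Module.Finite ℚ V], Module.finrank ℚ V ≤ D →
      ∀ Ω : (∀ i, Matrix (Fin (n i)) (Fin (n i)) ℂ), ∀ (x : Fin k → ℕ) (N : ℕ), (∀ i, 1 ≤ x i) → 1 ≤ N →
      ∀ S : Finset (Fin k → ℕ), (∀ t ∈ S, (∀ i, x i < t i ∧ t i ≤ x i + N) ∧ ∃ P : MvPolynomial (Jx n) ℂ,
        P.totalDegree ≤ δ ∧ (∀ s, P.coeff s ∈ V) ∧
        MvPolynomial.aeval (pw (fun i => ((Real.log (t i) : ℝ) : ℂ)) fun i => YT (NZ i) (H i) (t i) * Ω i) P = 0 ∧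
        ∃ (l : Fin k → ℂ) (g : ∀ i, Matrix (Fin (n i)) (Fin (n i)) ℂ), (∀ i, g i ∈ G i) ∧
          MvPolynomial.aeval (pw l fun i => g i * Ω i) P ≠ 0) →
      (S.card : ℝ) ≤ C * (N : ℝ) ^ (k - 1) * ∑ i, (1 + N / ((x i : ℝ) + N) ^ c) := by
  classical
  obtain ⟨c, C, hc, hC, hmain⟩ := tuples k (δ * dg n) ((Fintype.card (Option (Ix n))) ^ δ * D) (fun i => n i * n i)
    (fun i => hg (H i)) (fun i => by
      obtain ⟨C₁, -, hs, -⟩ := Pool.Agent.Y119.HY.SDc.unif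
        (y := fun p : Fin (n i) × Fin (n i) => H i p.1 p.2) fun p => (hU i).gH p.1 p.2
      exact ⟨C₁, fun j m => hs (ix (n i) j) m⟩) (fun i => hfam_hg (hU i) _)
  refine ⟨c, C, hc, hC, ?_⟩
  intro V _ hV Ω x N hx hN S hS
  obtain ⟨hfin, hrank⟩ := Vn_fin Ω V δ
  refine hmain (Vn Ω V δ) (hrank.trans (Nat.mul_le_mul_left _ hV)) x N hN S fun t htS => ?_
  obtain ⟨hbox, P, hPd, hPV, hP0, l, g, hg', hPg⟩ := hS t htS
  set sg := subg (fun i => rm (NZ i)) Ω with hsg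
  refine ⟨hbox, MvPolynomial.aeval sg P, (aeval_MVg Ω hPd hPV).2, (aeval_MVg Ω hPd hPV).1, ?_, ?_⟩
  · -- the value
    have h1 : valpt (fun i => hg (H i)) t =
        pt (fun i j => Hf (Hcc (H i)) (((1 / (t i : ℝ) : ℝ)) : ℂ) (ix (n i) j).1 (ix (n i) j).2)
          (fun i => ((Real.log (t i) : ℝ) : ℂ)) := by
      unfold valpt
      congr 1
      funext i j
      exact ev_H _ _ _
    have h2 : MvPolynomial.aeval (valpt (fun i => hg (H i)) t) (MvPolynomial.aeval sg P) =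
        MvPolynomial.aeval (fun v => MvPolynomial.aeval (valpt (fun i => hg (H i)) t) (sg v)) P :=
      MvPolynomial.aeval_bind₁ _ _ _
    rw [h2, h1]
    have h3 := fun v => aeval_subg (N := fun i => rm (NZ i)) Ω
      (fun i => Hf (Hcc (H i)) (((1 / (t i : ℝ) : ℝ)) : ℂ)) (fun i => ((Real.log (t i) : ℝ) : ℂ)) v
    simp only [hsg, h3]
    exact hP0
  · intro hmem
    apply hPg
    set N' := fun i => cm (rm (NZ i)) with hN'
    have hN : ∀ i, (N' i) ^ n i = 0 := fun i => cm_nil (hU i)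
    have ht2 : ∀ i, 2 ≤ t i := fun i => by
      have := (hbox i).1
      have := hx i
      omega
    choose W hWG hW1 using fun i => (hG i).inv (t i) (ht2 i)
    let κ : ∀ i, Matrix (Fin (n i)) (Fin (n i)) ℂ := fun i => W i * g i * E (N' i) (l i)
    have hκ : ∀ i, κ i ∈ G i := fun i =>
      (G i).mul_mem ((G i).mul_mem (hWG i) (hg' i)) ((hG i).exp (l i))
    have h1 := relI_vanishg hN hG ht2 hκ l hmem
    have h2 : MvPolynomial.aeval (pt (fun i j => (Hf (Hcc (H i)) (((1 / (t i : ℝ) : ℝ)) : ℂ) * κ i)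
        (ix (n i) j).1 (ix (n i) j).2) l) (MvPolynomial.aeval sg P) =
        MvPolynomial.aeval (fun v => MvPolynomial.aeval (pt (fun i j => (Hf (Hcc (H i)) (((1 / (t i : ℝ) : ℝ)) : ℂ) * κ i)
          (ix (n i) j).1 (ix (n i) j).2) l) (sg v)) P := MvPolynomial.aeval_bind₁ _ _ _
    rw [h2] at h1
    have h3 := fun v => aeval_subg (N := fun i => rm (NZ i)) Ω
      (fun i => Hf (Hcc (H i)) (((1 / (t i : ℝ) : ℝ)) : ℂ) * κ i) l v
    simp only [hsg, h3] at h1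
    have h4 : (fun i => Hf (Hcc (H i)) (((1 / (t i : ℝ) : ℝ)) : ℂ) * κ i * E (cm (rm (NZ i))) (-l i) * Ω i) =
        fun i => g i * Ω i := by
      funext i
      have e1 : E (N' i) (l i) * E (N' i) (-l i) = 1 := E_mul_neg (hN i) (l i)
      calc Hf (Hcc (H i)) (((1 / (t i : ℝ) : ℝ)) : ℂ) * κ i * E (N' i) (-l i) * Ω i =
          (Hf (Hcc (H i)) (((1 / (t i : ℝ) : ℝ)) : ℂ) * W i) * g i * (E (N' i) (l i) * E (N' i) (-l i)) * Ω i := by
            show Hf (Hcc (H i)) (((1 / (t i : ℝ) : ℝ)) : ℂ) * (W i * g i * E (N' i) (l i)) * E (N' i) (-l i) * Ω i = _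
            simp only [Matrix.mul_assoc]
        _ = g i * Ω i := by rw [hW1, e1, one_mul, mul_one]
    rw [h4] at h1
    exact h1

end Pool.Agent.W2helper4.HJ
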