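import Pool.Agent.W2helper4.HJ.Key
import Pool.Agent.Y890.MV.TorExc

/-!
# The torsors of several hypergeometric families at the same point
-/

set_option autoImplicit false
set_option linter.unusedSectionVars false

open Filter Topology Matrix Polynomial

namespace Pool.Agent.W2helper4.HJ

open Pool.Agent.Y119.HY
open Pool.Agent.Y890.MV (TorM evX evM evM_eq)

/-! ### the symplectic group -/

section sp
variable {n : ℕ} {J : Matrix (Fin n) (Fin n) ℂ}

/-- a submonoid which contains the transvections contains the symplectic group -/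
theorem sp_gen (hJ : J.transpose = -J) (hdet : J.det ≠ 0) (S : Submonoid (Matrix (Fin n) (Fin n) ℂ))
    (hS : ∀ x s, tv J x s ∈ S) (g : Matrix (Fin n) (Fin n) ℂ) (hg : g.transpose * J * g = J) : g ∈ S := by
  set ω : (Fin n → ℂ) →ₗ[ℂ] (Fin n → ℂ) →ₗ[ℂ] ℂ := Matrix.toLinearMap₂' ℂ J with hω
  have hωa : ∀ u v, ω u v = om J u v := by
    intro u v
    rw [hω, Matrix.toLinearMap₂'_apply']
    rfl
  have h0 : ∀ v, ω v v = 0 := fun v => by rw [hωa, om_self hJ]
  have hnd : ∀ u, (∀ v, ω u v = 0) → u = 0 := by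
    intro u hu
    have h1 : ∀ w : Fin n → ℂ, u ⬝ᵥ w = 0 := by
      intro w
      have h2 := hu (J⁻¹ *ᵥ w)
      rw [hωa] at h2
      unfold om at h2
      rw [mulVec_mulVec, mul_nonsing_inv _ (Ne.isUnit hdet), one_mulVec] at h2
      exact h2
    funext i
    have := h1 (Pi.single i 1)
    rwa [dotProduct_single_one] at this
  have hpres : ∀ u v, ω (Matrix.toLin' g u) (Matrix.toLin' g v) = ω u v := by
    intro u v
    rw [hωa, hωa, toLin'_apply, toLin'_apply]
    unfold om
    rw [mulVec_mulVec, ← vecMul_transpose, ← dotProduct_mulVec, mulVec_mulVec, ← Matrix.mul_assoc, hg]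
  have hmem := Pool.Agent.W948.ZC.TR.aux ℂ _ (Fin n → ℂ) ω rfl h0 hnd (Matrix.toLin' g) hpres
  have key : ∀ T ∈ Pool.Agent.W948.ZC.TR.G ω, LinearMap.toMatrix' T ∈ S := by
    intro T hT
    unfold Pool.Agent.W948.ZC.TR.G at hT
    induction hT using Submonoid.closure_induction with
    | mem T h =>
      obtain ⟨c, u, rfl⟩ := h
      have h1 : LinearMap.toMatrix' (1 + c • (ω u).smulRight u) = tv J u c := by
        apply (Matrix.toLin'.injective)
        rw [toLin'_toMatrix']
        ext x i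
        have h2 : (Matrix.toLin' (tv J u c)) (Pi.single x 1) = tv J u c *ᵥ (Pi.single x 1) := rfl
        rw [LinearMap.comp_apply, LinearMap.comp_apply, LinearMap.single_apply, h2, tv_mulVec, ← hωa]
        simp [LinearMap.add_apply, mul_assoc]
      rw [h1]
      exact hS _ c
    | one =>
      have : LinearMap.toMatrix' (1 : Module.End ℂ (Fin n → ℂ)) = 1 := LinearMap.toMatrix'_id
      rw [this]
      exact one_mem _
    | mul A B _ _ hA hB =>
      have : LinearMap.toMatrix' (A * B) = LinearMap.toMatrix' A * LinearMap.toMatrix' B :=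
        LinearMap.toMatrix'_mul A B
      rw [this]
      exact mul_mem hA hB
  have := key _ hmem
  rwa [LinearMap.toMatrix'_toLin'] at this

lemma sp_mul {g h : Matrix (Fin n) (Fin n) ℂ} (hg : g.transpose * J * g = J) (hh : h.transpose * J * h = J) :
    (g * h).transpose * J * (g * h) = J := by
  calc (g * h).transpose * J * (g * h) = h.transpose * (g.transpose * J * g) * h := by
        rw [transpose_mul]; simp only [Matrix.mul_assoc]
    _ = J := by rw [hg, hh]

/-- symplectic matrices are connected to the identity by polynomial paths -/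
theorem sp_path (hJ : J.transpose = -J) (hdet : J.det ≠ 0) (g : Matrix (Fin n) (Fin n) ℂ)
    (hg : g.transpose * J * g = J) : ∃ M : Matrix (Fin n) (Fin n) ℂ[X], M.map (Polynomial.eval 0) = 1 ∧
      M.map (Polynomial.eval 1) = g ∧ ∀ t, (M.map (Polynomial.eval t)).transpose * J * M.map (Polynomial.eval t) = J := by
  let S : Submonoid (Matrix (Fin n) (Fin n) ℂ) :=
    { carrier := {g | ∃ M : Matrix (Fin n) (Fin n) ℂ[X], M.map (Polynomial.eval 0) = 1 ∧
        M.map (Polynomial.eval 1) = g ∧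
        ∀ t, (M.map (Polynomial.eval t)).transpose * J * M.map (Polynomial.eval t) = J}
      mul_mem' := by
        rintro a b ⟨M, h1, h2, h3⟩ ⟨M', h1', h2', h3'⟩
        refine ⟨M * M', ?_, ?_, fun t => ?_⟩
        · rw [map_mul_eval, h1, h1', one_mul]
        · rw [map_mul_eval, h2, h2']
        · rw [map_mul_eval]
          exact sp_mul (h3 t) (h3' t)
      one_mem' := by
        refine ⟨1, ?_, ?_, fun t => ?_⟩
        · exact Matrix.map_one _ Polynomial.eval_zero Polynomial.eval_one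
        · exact Matrix.map_one _ Polynomial.eval_zero Polynomial.eval_one
        · rw [Matrix.map_one _ Polynomial.eval_zero Polynomial.eval_one, transpose_one, one_mul, mul_one] }
  have : g ∈ S := by
    refine sp_gen hJ hdet S (fun x s => ?_) g hg
    have e : ∀ t : ℂ, (1 + (Polynomial.C s * Polynomial.X : ℂ[X]) • vecMulVec (fun l => Polynomial.C (x l))
        (fun l => Polynomial.C ((x ᵥ* J) l))).map (Polynomial.eval t) = tv J x (s * t) := by
      intro t
      ext l k
      unfold tv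
      simp only [Matrix.map_apply, Matrix.add_apply, Matrix.smul_apply, smul_eq_mul, vecMulVec_apply,
        Polynomial.eval_add, Polynomial.eval_mul, Polynomial.eval_X, Polynomial.eval_C]
      congr 1
      rw [Matrix.one_apply, Matrix.one_apply]
      split_ifs <;> simp
    refine ⟨1 + (Polynomial.C s * Polynomial.X : ℂ[X]) • vecMulVec (fun l => Polynomial.C (x l))
      (fun l => Polynomial.C ((x ᵥ* J) l)), ?_, ?_, fun t => ?_⟩
    · rw [e, mul_zero, tv_zero']
    · rw [e, mul_one]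
    · rw [e]
      exact tv_isom hJ _ _
  exact this

lemma sp_inv (hdet : J.det ≠ 0) {g : Matrix (Fin n) (Fin n) ℂ} (hg : g.transpose * J * g = J) :
    ∃ gi : Matrix (Fin n) (Fin n) ℂ, g * gi = 1 ∧ gi.transpose * J * gi = J := by
  have hu : IsUnit J.det := Ne.isUnit hdet
  have h1 : (J⁻¹ * g.transpose * J) * g = 1 := by
    rw [Matrix.mul_assoc, Matrix.mul_assoc, ← Matrix.mul_assoc _ J, hg, nonsing_inv_mul _ hu]
  have h2 : g * (J⁻¹ * g.transpose * J) = 1 := mul_eq_one_comm.1 h1
  exact ⟨_, h2, VV_isom h2 hg⟩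

end sp

/-! ### families -/

/-- the form of a family -/
noncomputable def JJ {m : ℕ} (β : Fin m → ℚ) : Matrix (Fin (2 * m)) (Fin (2 * m)) ℂ := cm (Jm (2 * m) (QB β))

/-- the solutions -/
noncomputable def YY {m : ℕ} (β : Fin m → ℚ) (z : ℂ) : Matrix (Fin (2 * m)) (Fin (2 * m)) ℂ :=
  Yf (cm (Am (2 * m))) (Hc (2 * m) (QB β)) z

variable {r : ℕ} {m : Fin r → ℕ} (β : ∀ i, Fin (m i) → ℚ)

/-- the relations between the solutions of pairwise inequivalent families are invariant under the product of the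
symplectic groups -/
theorem joint_invar (hm : ∀ i, 1 ≤ m i) (hβ : ∀ i j, ∀ a : ℤ, β i j ≠ a)
    (hne : ∀ i k, i ≠ k → ¬ Eqv (β i) (β k)) (g : ∀ i, Matrix (Fin (2 * m i)) (Fin (2 * m i)) ℂ)
    (hg : ∀ i, (g i).transpose * JJ (β i) * g i = JJ (β i)) :
    bd g ∈ Gal (Yf (bd fun i => cm (Am (2 * m i))) (fun k => bd (fun i => Hc (2 * m i) (QB (β i)) k))) := by
  have hQ : ∀ i, QD (2 * m i) (QB (β i)) := fun i => Pool.Agent.Y119.HZ.QD_QB (hm i) (not_int (hβ i))
  have hs : ∀ i, Sol (cm (Am (2 * m i)))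
      (-vecMulVec (uc (2 * m i)) (uc (2 * m i) ᵥ* cm (Jm (2 * m i) (QB (β i))))) (Hc (2 * m i) (QB (β i))) := by
    intro i
    have h1 := sol_c (hQ i)
    rwa [cm_Bm (hQ i)] at h1
  have hex : ∀ i, ∃ v, VV (cm (Jm (2 * m i) (QB (β i)))) (cm (Am (2 * m i))) (uc (2 * m i)) (Hc (2 * m i) (QB (β i))) v :=
    fun i => exists_VV (hQ i).two (Jc_skew (hQ i)) (Jc_det (hQ i)) Ac_nil Jc_rel (hs i)
  choose v hv using hex
  have hnil : ∀ i, cm (Am (2 * m i)) ^ (2 * m i) = 0 := fun i => Ac_nil
  have hJs : ∀ i, (cm (Jm (2 * m i) (QB (β i)))).transpose = -cm (Jm (2 * m i) (QB (β i))) := fun i => Jc_skew (hQ i)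
  have hrel : ∀ i, (cm (Am (2 * m i))).transpose * cm (Jm (2 * m i) (QB (β i))) +
      cm (Jm (2 * m i) (QB (β i))) * cm (Am (2 * m i)) = 0 := fun i => Jc_rel
  refine density (J := fun i => cm (Jm (2 * m i) (QB (β i)))) (A := fun i => cm (Am (2 * m i))) (v := v)
    hJs hnil hrel _ (fun c x hx => ?_) (Gal_closed _) (fun s => ?_) (fun i => Jc_det (hQ i))
    (fun i => fam_ne (hm i) (hβ i) (hv i)) (fun i k hik => ?_) g hg
  · have h1 := conj_E (bd_nil hnil) (bd_Sol hs) c x hx
    rwa [bd_E hnil, bd_E hnil] at h1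
  · exact joint_tv (fun i => (hQ i).two) hJs hnil hv s
  · by_contra hcon
    push Not at hcon
    exact hne i k hik (fam_sep (hm i) (hm k) (hβ i) (hβ k) (hv i) (hv k) hcon)

/-- the variables: `log z` and the entries of the matrices -/
abbrev Sg (m : Fin r → ℕ) : Type := Option (Σ i : Fin r, Fin (2 * m i) × Fin (2 * m i))

/-- the slit disc -/
def UU : Set (Unit → ℂ) := {x | x () ∈ Complex.slitPlane ∧ ‖x ()‖ < 1}

/-- the functions -/
noncomputable def ff (s : Sg m) (x : Unit → ℂ) : ℂ :=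
  s.elim (Complex.log (x ())) fun q => YY (β q.1) (x ()) q.2.1 q.2.2

/-- the matrix with given coordinates -/
def mt {R : Type} (Y : Sg m → R) (i : Fin r) : Matrix (Fin (2 * m i)) (Fin (2 * m i)) R :=
  Matrix.of fun a b => Y (some ⟨i, (a, b)⟩)

/-- the torsor -/
def TT (_ : Unit → ℂ) : Set (Sg m → ℂ) := {Y | ∀ i, (mt Y i).transpose * JJ (β i) * mt Y i = JJ (β i)}

/-- translation of polynomials -/
noncomputable def tr (p : MvPolynomial (Sg m) (MvPolynomial Unit ℂ)) : MvPolynomial (Vr (∑ i, 2 * m i)) ℂ :=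
  MvPolynomial.eval₂Hom (MvPolynomial.eval₂Hom (MvPolynomial.C) (fun _ => MvPolynomial.X none))
    (fun s : Sg m => s.elim (MvPolynomial.X (some none)) fun q =>
      MvPolynomial.X (some (some (finSigmaFinEquiv ⟨q.1, q.2.1⟩, finSigmaFinEquiv ⟨q.1, q.2.2⟩)))) p

lemma tr_ev (p : MvPolynomial (Sg m) (MvPolynomial Unit ℂ)) (x : Unit → ℂ) (Y : Sg m → ℂ) :
    ev (tr p) (x ()) (Y none) (bd (mt Y)) = evX x Y p := by
  let E : MvPolynomial (Vr (∑ i, 2 * m i)) ℂ →+* ℂ := MvPolynomial.eval (pt (x ()) (Y none) (bd (mt Y)))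
  let T : MvPolynomial (Sg m) (MvPolynomial Unit ℂ) →+* MvPolynomial (Vr (∑ i, 2 * m i)) ℂ :=
    MvPolynomial.eval₂Hom (MvPolynomial.eval₂Hom (MvPolynomial.C) (fun _ => MvPolynomial.X none))
    (fun s : Sg m => s.elim (MvPolynomial.X (some none)) fun q =>
      MvPolynomial.X (some (some (finSigmaFinEquiv ⟨q.1, q.2.1⟩, finSigmaFinEquiv ⟨q.1, q.2.2⟩))))
  have h1 : E.comp T = MvPolynomial.eval₂Hom (MvPolynomial.eval x) Y := by
    refine MvPolynomial.ringHom_ext (fun a => ?_) ?_
    · have h2 : (E.comp T).comp MvPolynomial.C = MvPolynomial.eval x := by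
        refine MvPolynomial.ringHom_ext (fun b => ?_) (fun _ => ?_)
        · simp [E, T]
        · simp [E, T, pt]
      have h3 := congrArg (fun g => g a) h2
      simp only [RingHom.comp_apply] at h3
      rw [RingHom.comp_apply, h3]
      exact (MvPolynomial.eval₂Hom_C _ _ _).symm
    · rintro (_ | ⟨i, a, b⟩)
      · simp [E, T, pt]
      · simp only [E, T, RingHom.comp_apply, MvPolynomial.eval₂Hom_X', Option.elim_some, MvPolynomial.eval_X, pt]
        rw [bd_same]
        rfl
  exact congrArg (fun g => g p) h1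

lemma slit_real {x : ℝ} (h : 0 < x) : (x : ℂ) ∈ Complex.slitPlane := by
  left
  simpa using h

lemma UU_open : IsOpen UU := by
  have h1 : UU = (fun x : Unit → ℂ => x ()) ⁻¹' (Complex.slitPlane ∩ Metric.ball 0 1) := by
    ext x
    simp [UU]
  rw [h1]
  exact (Complex.isOpen_slitPlane.inter Metric.isOpen_ball).preimage (continuous_apply _)

lemma UU_conn : IsPreconnected UU := by
  have h1 : UU = (fun w : ℂ => fun _ : Unit => Complex.exp w) '' {w : ℂ | w.re < 0 ∧ w.im ∈ Set.Ioo (-Real.pi) Real.pi} := by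
    ext x
    constructor
    · rintro ⟨h1, h2⟩
      have h0 : x () ≠ 0 := Complex.slitPlane_ne_zero h1
      refine ⟨Complex.log (x ()), ⟨?_, ?_⟩, ?_⟩
      · rw [Complex.log_re]
        exact Real.log_neg (norm_pos_iff.2 h0) h2
      · rw [Complex.log_im]
        refine ⟨Complex.neg_pi_lt_arg _, ?_⟩
        rcases lt_or_eq_of_le (Complex.arg_le_pi (x ())) with h3 | h3
        · exact h3
        · exact absurd h3 (Complex.mem_slitPlane_iff_arg.1 h1).1
      · funext u
        exact Complex.exp_log h0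
    · rintro ⟨w, ⟨h1, h2⟩, rfl⟩
      refine ⟨?_, ?_⟩
      · rw [Complex.mem_slitPlane_iff_arg]
        refine ⟨?_, Complex.exp_ne_zero _⟩
        rw [Complex.arg_exp, toIocMod_eq_self Real.two_pi_pos |>.2]
        · exact h2.2.ne
        · constructor
          · exact h2.1
          · have := h2.2
            linarith
      · rw [Complex.norm_exp]
        rw [← Real.exp_zero]
        exact Real.exp_lt_exp.2 h1
  rw [h1]
  refine IsPreconnected.image ?_ _ ?_
  · apply Convex.isPreconnected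
    have h2 : Convex ℝ {w : ℂ | w.re < 0} := convex_halfSpace_re_lt 0
    have h3 : Convex ℝ {w : ℂ | w.im < Real.pi} := convex_halfSpace_im_lt _
    have h4 : Convex ℝ {w : ℂ | -Real.pi < w.im} := convex_halfSpace_im_gt _
    have h5 : {w : ℂ | w.re < 0 ∧ w.im ∈ Set.Ioo (-Real.pi) Real.pi} =
        {w : ℂ | w.re < 0} ∩ ({w : ℂ | -Real.pi < w.im} ∩ {w : ℂ | w.im < Real.pi}) := by
      ext w
      simp [Set.mem_Ioo]
    rw [h5]
    exact h2.inter (h4.inter h3)
  · exact (continuous_pi fun _ => Complex.continuous_exp).continuousOn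

lemma UU_nonempty : UU.Nonempty := by
  refine ⟨fun _ => ((1 / 2 : ℝ) : ℂ), slit_real (by norm_num), ?_⟩
  rw [Complex.norm_real]
  norm_num

lemma YY_an {m : ℕ} (hm : 1 ≤ m) {β : Fin m → ℚ} (hβ : ∀ i, ∀ a : ℤ, β i ≠ a) (a b : Fin (2 * m)) :
    AnalyticOnNhd ℂ (fun z => YY β z a b) (Complex.slitPlane ∩ Metric.ball 0 1) := by
  have hQ := Pool.Agent.Y119.HZ.QD_QB hm (not_int hβ)
  unfold YY Yf
  simp only [Matrix.mul_apply]
  refine Finset.analyticOnNhd_fun_sum _ fun l _ => ?_
  have h1 : AnalyticOnNhd ℂ (fun z => Hf (Hc (2 * m) (QB β)) z a l) (Complex.slitPlane ∩ Metric.ball 0 1) :=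
    (Hf_an (sol_c hQ) Ac_nil a l).mono Set.inter_subset_right
  refine AnalyticOnNhd.mul h1 ?_
  intro z hz
  unfold E
  simp only [Matrix.sum_apply, Matrix.smul_apply, smul_eq_mul]
  refine Finset.analyticAt_fun_sum _ fun i _ => ?_
  have h2 : AnalyticAt ℂ Complex.log z := analyticAt_clog hz.1
  exact ((h2.fun_pow i).fun_div analyticAt_const (by exact_mod_cast i.factorial_ne_zero)).fun_mul analyticAt_const

lemma ff_an (hm : ∀ i, 1 ≤ m i) (hβ : ∀ i j, ∀ a : ℤ, β i j ≠ a) (s : Sg m) : AnalyticOnNhd ℂ (ff β s) UU := by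
  intro x hx
  have hpr : AnalyticAt ℂ (fun x : Unit → ℂ => x ()) x :=
    (ContinuousLinearMap.proj (R := ℂ) (φ := fun _ : Unit => ℂ) ()).analyticAt x
  rcases s with _ | ⟨i, a, b⟩
  · exact AnalyticAt.fun_comp (g := Complex.log) (f := fun x : Unit → ℂ => x ()) (analyticAt_clog hx.1) hpr
  · have h1 := YY_an (hm i) (hβ i) a b (x ()) ⟨hx.1, by rw [Metric.mem_ball, dist_zero_right]; exact hx.2⟩
    exact AnalyticAt.fun_comp (g := fun z => YY (β i) z a b) (f := fun x : Unit → ℂ => x ()) h1 hpr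

/-- the solutions are symplectic -/
theorem YY_sp {m : ℕ} (hm : 1 ≤ m) {β : Fin m → ℚ} (hβ : ∀ i, ∀ a : ℤ, β i ≠ a) {x : Unit → ℂ} (hx : x ∈ UU) :
    (YY β (x ())).transpose * JJ β * YY β (x ()) = JJ β := by
  have hQ := Pool.Agent.Y119.HZ.QD_QB hm (not_int hβ)
  have hs := sol_c hQ
  have hreal : ∀ z ∈ Lens, (YY β z).transpose * JJ β * YY β z = JJ β := by
    intro z hz
    have hBJ : (cm (Bm (2 * m) (QB β))).transpose * JJ β + JJ β * cm (Bm (2 * m) (QB β)) = 0 := by
      unfold JJ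
      rw [cm_Bm hQ, transpose_neg, neg_mul, mul_neg, ← neg_add, tv_skew (Jc_skew hQ), neg_zero]
    exact self_pair Ac_nil Jc_rel hBJ hs hz
  ext a b
  have han : AnalyticOnNhd ℂ (fun x : Unit → ℂ => ((YY β (x ())).transpose * JJ β * YY β (x ())) a b) UU := by
    intro y hy
    have hpr : AnalyticAt ℂ (fun x : Unit → ℂ => x ()) y :=
      (ContinuousLinearMap.proj (R := ℂ) (φ := fun _ : Unit => ℂ) ()).analyticAt y
    have hY : ∀ c d, AnalyticAt ℂ (fun x : Unit → ℂ => YY β (x ()) c d) y := fun c d =>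
      AnalyticAt.fun_comp (g := fun z => YY β z c d) (f := fun x : Unit → ℂ => x ())
        (YY_an hm hβ c d (y ()) ⟨hy.1, by rw [Metric.mem_ball, dist_zero_right]; exact hy.2⟩) hpr
    simp only [Matrix.mul_apply, Matrix.transpose_apply]
    exact Finset.analyticAt_fun_sum _ fun l _ => (Finset.analyticAt_fun_sum _ fun k _ =>
      (hY k a).fun_mul analyticAt_const).fun_mul (hY l b)
  have h1 : Set.EqOn (fun x : Unit → ℂ => ((YY β (x ())).transpose * JJ β * YY β (x ())) a b)
      (fun _ => JJ β a b) UU := by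
    set x0 : Unit → ℂ := fun _ => ((1 / 2 : ℝ) : ℂ) with hx0
    have hx0U : x0 ∈ UU := by
      refine ⟨slit_real (by norm_num), ?_⟩
      rw [hx0, Complex.norm_real]
      norm_num
    refine han.eqOn_of_preconnected_of_eventuallyEq analyticOnNhd_const UU_conn hx0U ?_
    have h2 : {x : Unit → ℂ | x () ∈ Lens} ∈ 𝓝 x0 :=
      (isOpen_Lens.preimage (continuous_apply ())).mem_nhds (real_mem_Lens (by norm_num) (by norm_num))
    filter_upwards [h2] with y hy
    rw [hreal _ hy]
  exact h1 hx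

/-- **The relations between the solutions at the same point of pairwise inequivalent families.** -/
theorem torT (hm : ∀ i, 1 ≤ m i) (hβ : ∀ i j, ∀ a : ℤ, β i j ≠ a) (hne : ∀ i k, i ≠ k → ¬ Eqv (β i) (β k)) :
    TorM UU (ff β) (TT β) := by
  have hQ : ∀ i, QD (2 * m i) (QB (β i)) := fun i => Pool.Agent.Y119.HZ.QD_QB (hm i) (not_int (hβ i))
  have hdet : ∀ i, (JJ (β i)).det ≠ 0 := fun i => Jc_det (hQ i)
  have hnil : ∀ i, cm (Am (2 * m i)) ^ (2 * m i) = 0 := fun i => Ac_nil
  have hmt : ∀ x : Unit → ℂ, mt (fun s => ff β s x) = fun i => YY (β i) (x ()) := fun x => rfl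
  refine ⟨?_, ?_, ?_, ?_⟩
  · intro x hx i
    rw [hmt]
    exact YY_sp (hm i) (hβ i) hx
  · intro p hp
    set Yt := Yf (bd fun i => cm (Am (2 * m i))) (fun k => bd (fun i => Hc (2 * m i) (QB (β i)) k)) with hYt
    have hYt' : ∀ z, Yt z = bd fun i => YY (β i) z := fun z => bd_Yf hnil z
    have hrel : tr p ∈ Rel Yt := by
      intro x hx hx1
      have h1 := hp (fun _ => (x : ℂ)) ⟨slit_real hx, by
        rw [Complex.norm_real, Real.norm_of_nonneg hx.le]; exact hx1⟩
      rw [evM_eq, ← tr_ev] at h1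
      rw [hYt']
      exact h1
    -- real points
    have hreal : ∀ (L : ℂ) (Z : ∀ i, Matrix (Fin (2 * m i)) (Fin (2 * m i)) ℂ),
        (∀ i, (Z i).transpose * JJ (β i) * Z i = JJ (β i)) → ∀ x : ℝ, 0 < x → x < 1 →
        ev (tr p) (x : ℂ) L (bd Z) = 0 := by
      intro L Z hZ x hx hx1
      have hxU : (fun _ => (x : ℂ)) ∈ UU := ⟨slit_real hx, by
        rw [Complex.norm_real, Real.norm_of_nonneg hx.le]; exact hx1⟩
      choose Yi hYi1 hYi2 using fun i => sp_inv (hdet i) (YY_sp (hm i) (hβ i) hxU)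
      set c := L - Complex.log x with hc
      have hE : ∀ i, (E (cm (Am (2 * m i))) (-c)).transpose * JJ (β i) * E (cm (Am (2 * m i))) (-c) = JJ (β i) :=
        fun i => E_isom Ac_nil Jc_rel (-c)
      have hg := joint_invar β hm hβ hne (fun i => E (cm (Am (2 * m i))) (-c) * (Yi i * Z i))
        (fun i => sp_mul (hE i) (sp_mul (hYi2 i) (hZ i)))
      have h1 : Pool.Agent.Y119.HY.sb 0 (bd fun i => E (cm (Am (2 * m i))) (-c) * (Yi i * Z i)) (tr p) ∈ Rel Yt := by
        intro y hy hy1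
        rw [ev_sb, add_zero]
        exact hg _ hrel y hy hy1
      have hs : ∀ i, Sol (cm (Am (2 * m i))) (cm (Bm (2 * m i) (QB (β i)))) (Hc (2 * m i) (QB (β i))) := fun i =>
        sol_c (hQ i)
      have h2 := mono_zero (bd_nil hnil) (bd_Sol hs) c h1 hx hx1
      rw [ev_sb, add_zero, bd_Yf hnil, bd_E hnil, ← bd_mul, ← bd_mul] at h2
      have e1 : Complex.log (x : ℂ) + c = L := by rw [hc]; ring
      have e2 : (fun i => Yf (cm (Am (2 * m i))) (Hc (2 * m i) (QB (β i))) (x : ℂ) * E (cm (Am (2 * m i))) c *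
          (E (cm (Am (2 * m i))) (-c) * (Yi i * Z i))) = Z := by
        funext i
        have h3 : E (cm (Am (2 * m i))) c * E (cm (Am (2 * m i))) (-c) = 1 := E_mul_neg (hnil i) c
        have h4 : Yf (cm (Am (2 * m i))) (Hc (2 * m i) (QB (β i))) (x : ℂ) * Yi i = 1 := hYi1 i
        calc _ = Yf (cm (Am (2 * m i))) (Hc (2 * m i) (QB (β i))) (x : ℂ) *
              (E (cm (Am (2 * m i))) c * E (cm (Am (2 * m i))) (-c)) * (Yi i * Z i) := by
              simp only [Matrix.mul_assoc]
          _ = (Yf (cm (Am (2 * m i))) (Hc (2 * m i) (QB (β i))) (x : ℂ) * Yi i) * Z i := by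
              rw [h3, mul_one, ← Matrix.mul_assoc]
          _ = Z i := by rw [h4, one_mul]
      rw [e1, e2] at h2
      exact h2
    intro x _ Y hY
    rw [← tr_ev]
    set q : ℂ[X] := evp (tr p) Polynomial.X (C (Y none)) ((bd (mt Y)).map C) with hq
    have hqe : ∀ s, q.eval s = ev (tr p) s (Y none) (bd (mt Y)) := by
      intro s
      rw [hq, eval_evp, Polynomial.eval_X, eval_C, map_C_eval]
    have h0 : q = 0 := by
      refine Polynomial.eq_zero_of_infinite_isRoot q (Set.Infinite.mono (s := (fun x : ℝ => (x : ℂ)) '' Set.Ioo 0 1) ?_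
        ((Set.Ioo_infinite (by norm_num)).image Complex.ofReal_injective.injOn))
      rintro _ ⟨y, hy, rfl⟩
      show q.eval _ = 0
      rw [hqe]
      exact hreal _ _ hY y hy.1 hy.2
    rw [← hqe, h0, Polynomial.eval_zero]
  · intro x hx Y hY
    choose Yi hYi1 hYi2 using fun i => sp_inv (hdet i) (YY_sp (hm i) (hβ i) hx)
    choose M hM0 hM1 hMt using fun i => sp_path (Jc_skew (hQ i)) (hdet i) (Yi i * mt Y i) (sp_mul (hYi2 i) (hY i))
    refine ⟨fun s => s.elim (C (Complex.log (x ())) + Polynomial.X * C (Y none - Complex.log (x ())))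
      fun q => (((YY (β q.1) (x ())).map C) * M q.1) q.2.1 q.2.2, ?_, ?_, ?_⟩
    · rintro (_ | ⟨i, a, b⟩)
      · simp [ff]
      · have h1 := map_mul_eval ((YY (β i) (x ())).map C) (M i) 0
        rw [hM0, map_C_eval, mul_one] at h1
        exact congrFun (congrFun h1 a) b
    · rintro (_ | ⟨i, a, b⟩)
      · simp
      · have h1 := map_mul_eval ((YY (β i) (x ())).map C) (M i) 1
        rw [hM1, map_C_eval, ← Matrix.mul_assoc, hYi1, one_mul] at h1
        exact congrFun (congrFun h1 a) b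
    · intro t i
      have h1 := map_mul_eval ((YY (β i) (x ())).map C) (M i) t
      rw [map_C_eval] at h1
      have e : mt (fun s : Sg m => (s.elim (C (Complex.log (x ())) + Polynomial.X * C (Y none - Complex.log (x ())))
          fun q => (((YY (β q.1) (x ())).map C) * M q.1) q.2.1 q.2.2).eval t) i =
          YY (β i) (x ()) * (M i).map (Polynomial.eval t) := by
        rw [← h1]
        rfl
      rw [e]
      exact sp_mul (YY_sp (hm i) (hβ i) hx) (hMt i t)
  · refine ⟨1, one_ne_zero, fun x0 _ _ Y0 hY0 => ⟨fun s => MvPolynomial.C (Y0 s), fun x _ _ => ?_, fun s => ?_⟩⟩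
    · have e : (fun s => MvPolynomial.eval x (MvPolynomial.C (Y0 s)) / MvPolynomial.eval x 1) = Y0 := by
        funext s
        simp
      rw [e]
      exact hY0
    · simp

end Pool.Agent.W2helper4.HJ
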