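import Pool.Agent.W2helper4.HJ.Gen2
import Pool.Agent.W2helper4.HJ.Tor

/-!
# Direct sums of hypergeometric systems as systems with unipotent monodromy at the origin
-/

set_option autoImplicit false

open PowerSeries Pool.Agent.Y113 Matrix

namespace Pool.Agent.W2helper4.HJ

open Pool.Agent.Y119.HY (cm E Hf Yf Hc Hq Am Jm Bm QB QD Sol Ac_nil Jc_rel Jc_skew Jc_det sol_c cm_zero cm_pow cm_apply
  E_mul_neg E_isom)
open Pool.Agent.Y119.HZ

variable {r : ℕ} {m : Fin r → ℕ}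

/-- the shifts -/
def NZ (m : Fin r → ℕ) : Matrix (Fin (∑ i, 2 * m i)) (Fin (∑ i, 2 * m i)) ℤ :=
  bd fun i => Matrix.of fun a b : Fin (2 * m i) => Ni a b

lemma rm_NZ (m : Fin r → ℕ) : rm (NZ m) = bd fun i => Am (2 * m i) := by
  unfold rm NZ
  rw [bd_map _ (map_zero _)]
  congr 1
  funext i
  ext a b
  rw [Matrix.map_apply, Matrix.of_apply]
  unfold Ni Am
  rw [Matrix.of_apply]
  split_ifs <;> simp

lemma cm_bd {n : Fin r → ℕ} (X : ∀ i, Matrix (Fin (n i)) (Fin (n i)) ℚ) : cm (bd X) = bd fun i => cm (X i) :=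
  bd_map _ (map_zero _) X

lemma cm_NZ (m : Fin r → ℕ) : cm (rm (NZ m)) = bd fun i => cm (Am (2 * m i)) := by
  rw [rm_NZ, cm_bd]

/-- the holomorphic part -/
noncomputable def HH (β : ∀ i, Fin (m i) → ℚ) : Matrix (Fin (∑ i, 2 * m i)) (Fin (∑ i, 2 * m i)) ℚ⟦X⟧ :=
  bd fun i => Hp (2 * m i) (QB (β i))

/-- its inverse -/
noncomputable def WW (β : ∀ i, Fin (m i) → ℚ) : Matrix (Fin (∑ i, 2 * m i)) (Fin (∑ i, 2 * m i)) ℚ⟦X⟧ :=
  bd fun i => Wp (2 * m i) (QB (β i))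

/-- the matrix of the system -/
noncomputable def AA (D : ℕ) (b : ∀ i, Fin (2 * m i) → Fin (2 * m i) → ℤ) (p q : Fin (∑ i, 2 * m i)) : Polynomial ℤ :=
  bd (fun i => Matrix.of fun a c => A1 (2 * m i) D (b i) a c) p q

lemma exists_bb (β : ∀ i, Fin (m i) → ℚ) : ∃ (D : ℕ) (b : ∀ i, Fin (2 * m i) → Fin (2 * m i) → ℤ), D ≠ 0 ∧
    ∀ i a c, (b i a c : ℚ) = D * Bm (2 * m i) (QB (β i)) a c := by
  classical
  choose D b hD hb using fun i => exists_b (2 * m i) (QB (β i))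
  refine ⟨∏ i, D i, fun i a c => (∏ j ∈ Finset.univ.erase i, (D j : ℤ)) * b i a c,
    Finset.prod_ne_zero_iff.2 fun i _ => hD i, fun i a c => ?_⟩
  rw [Int.cast_mul, hb i a c, ← Finset.mul_prod_erase Finset.univ _ (Finset.mem_univ i)]
  push_cast
  ring

lemma SDc_zero : SDc (0 : ℚ⟦X⟧) := by
  have := SDc_C 0
  rwa [map_zero] at this

lemma bd_all {n : Fin r → ℕ} {R : Type*} [Zero R] {P : R → Prop} (h0 : P 0) {X : ∀ i, Matrix (Fin (n i)) (Fin (n i)) R}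
    (h : ∀ i a b, P (X i a b)) (p q : Fin (∑ i, n i)) : P (bd X p q) := by
  obtain ⟨⟨i, a⟩, rfl⟩ := (finSigmaFinEquiv (m := r) (n := n)).surjective p
  obtain ⟨⟨j, b⟩, rfl⟩ := (finSigmaFinEquiv (m := r) (n := n)).surjective q
  by_cases hij : i = j
  · subst hij
    rw [bd_same]
    exact h i a b
  · rw [bd_diff _ hij]
    exact h0

/-- the entries are G-functions -/
lemma gH_one {m : ℕ} (hm : 1 ≤ m) {β : Fin m → ℚ} (hβ : ∀ i, ∀ a : ℤ, β i ≠ a) (a b : Fin (2 * m)) :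
    SDc (Hp (2 * m) (QB β) a b) :=
  Pool.Agent.Y119.HY.sdc_hps (not_int hβ) (QD_QB hm (not_int hβ)) a b

theorem us_HH (β : ∀ i, Fin (m i) → ℚ) (hm : ∀ i, 1 ≤ m i) (hβ : ∀ i j, ∀ a : ℤ, β i j ≠ a) {D : ℕ} (hD : D ≠ 0)
    {b : ∀ i, Fin (2 * m i) → Fin (2 * m i) → ℤ} (hb : ∀ i a c, (b i a c : ℚ) = D * Bm (2 * m i) (QB (β i)) a c) :
    US (NZ m) (HH β) (WW β) (T1 D) (AA D b) := by
  have hQ : ∀ i, QD (2 * m i) (QB (β i)) := fun i => QD_QB (hm i) (not_int (hβ i))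
  refine ⟨?_, ?_, ?_, ?_, ?_, ?_, ?_⟩
  · rw [rm_NZ, ← bd_pow]
    have h1 : (fun i => Am (2 * m i) ^ (∑ i, 2 * m i)) = fun i => (0 : Matrix (Fin (2 * m i)) (Fin (2 * m i)) ℚ) := by
      funext i
      exact pow_eq_zero_of_le (n_le (n := fun i => 2 * m i) i) Pool.Agent.Y119.HY.Am_nil
    rw [h1, bd_zero]
  · unfold HH WW
    rw [← bd_mul]
    have h1 : (fun i => Hp (2 * m i) (QB (β i)) * Wp (2 * m i) (QB (β i))) =
        fun i => (1 : Matrix (Fin (2 * m i)) (Fin (2 * m i)) ℚ⟦X⟧) := by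
      funext i
      exact mul_Wp (hQ i)
    rw [h1, bd_one]
  · -- the differential equation
    have hth : Matrix.of (fun p q => X * d⁄dX ℚ (HH β p q)) = bd fun i => Matrix.of fun a c =>
        X * d⁄dX ℚ (Hp (2 * m i) (QB (β i)) a c) := by
      unfold HH
      refine bd_ext (fun i a c => ?_) (fun i j h a c => ?_)
      · rw [Matrix.of_apply, bd_same, bd_same, Matrix.of_apply]
      · rw [Matrix.of_apply, bd_diff _ h, bd_diff _ h, map_zero, mul_zero]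
    have hkm : Matrix.of (fun p q => (C (rm (NZ m) p q) : ℚ⟦X⟧)) = bd fun i => Matrix.of fun a c =>
        (C (Am (2 * m i) a c) : ℚ⟦X⟧) := by
      rw [rm_NZ]
      exact bd_map (fun x : ℚ => (C x : ℚ⟦X⟧)) (map_zero _) _
    have hAA : Matrix.of (fun p q => ps (AA D b p q)) = bd fun i => Matrix.of fun a c => ps (A1 (2 * m i) D (b i) a c) := by
      unfold AA
      refine bd_ext (fun i a c => ?_) (fun i j h a c => ?_)
      · rw [Matrix.of_apply, bd_same, bd_same, Matrix.of_apply, Matrix.of_apply]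
      · rw [Matrix.of_apply, bd_diff _ h, bd_diff _ h]
        exact map_zero psR
    have key : ps (T1 D) • (Matrix.of (fun p q => X * d⁄dX ℚ (HH β p q)) +
        HH β * Matrix.of (fun p q => (C (rm (NZ m) p q) : ℚ⟦X⟧))) = Matrix.of (fun p q => ps (AA D b p q)) * HH β := by
      rw [hth, hkm, hAA]
      unfold HH
      rw [← bd_mul, ← bd_add, ← bd_smul, ← bd_mul]
      congr 1
      funext i
      refine Matrix.ext fun a c => ?_
      rw [Matrix.smul_apply, Matrix.add_apply, Matrix.mul_apply, Matrix.mul_apply, smul_eq_mul]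
      exact ode_int (hQ i) (hb i) a c
    intro i j
    have h1 := congrFun (congrFun key i) j
    rw [Matrix.smul_apply, Matrix.add_apply, Matrix.mul_apply, Matrix.mul_apply, smul_eq_mul] at h1
    exact h1
  · intro i j
    have h1 : (HH β).map (coeff 0) = 1 := by
      unfold HH
      rw [bd_map _ (map_zero _)]
      have h2 : (fun i => (Hp (2 * m i) (QB (β i))).map (coeff (R := ℚ) 0)) =
          fun i => (1 : Matrix (Fin (2 * m i)) (Fin (2 * m i)) ℚ) := by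
        funext i
        have h3 : cf (Hp (2 * m i) (QB (β i))) 0 = Hq (2 * m i) (QB (β i)) 0 := cf_Hp 0
        rw [Pool.Agent.Y119.HY.Hq_zero] at h3
        exact h3
      rw [h2, bd_one]
    have h2 := congrFun (congrFun h1 i) j
    rw [Matrix.map_apply, Matrix.one_apply] at h2
    exact h2
  · exact fun p q => bd_all (P := SDc) SDc_zero (fun i a c => gH_one (hm i) (hβ i) a c) p q
  · exact fun p q => bd_all (P := SDc) SDc_zero (fun i a c => SDc_Wp (gH_one (hm i) (hβ i)) a c) p q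
  · refine mul_ne_zero (Polynomial.C_ne_zero.2 (by exact_mod_cast hD)) ?_
    intro h0
    have := congrArg (Polynomial.eval 0) h0
    simp at this

/-! ### the group -/

/-- the product of the symplectic groups -/
noncomputable def GS (β : ∀ i, Fin (m i) → ℚ) : Submonoid (Matrix (Fin (∑ i, 2 * m i)) (Fin (∑ i, 2 * m i)) ℂ) where
  carrier := {g | ∃ γ : ∀ i, Matrix (Fin (2 * m i)) (Fin (2 * m i)) ℂ,
    (∀ i, (γ i)ᵀ * JJ (β i) * γ i = JJ (β i)) ∧ g = bd γ}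
  one_mem' := ⟨fun i => 1, fun i => by rw [transpose_one, Matrix.one_mul, Matrix.mul_one], bd_one.symm⟩
  mul_mem' := by
    rintro _ _ ⟨γ, h1, rfl⟩ ⟨δ, h2, rfl⟩
    exact ⟨fun i => γ i * δ i, fun i => sp_mul (h1 i) (h2 i), (bd_mul _ _).symm⟩

lemma mem_GS {β : ∀ i, Fin (m i) → ℚ} {γ : ∀ i, Matrix (Fin (2 * m i)) (Fin (2 * m i)) ℂ}
    (h : ∀ i, (γ i)ᵀ * JJ (β i) * γ i = JJ (β i)) : bd γ ∈ GS β := ⟨γ, h, rfl⟩

lemma Hcc_HH (β : ∀ i, Fin (m i) → ℚ) (k : ℕ) : Hcc (HH β) k = bd fun i => Hc (2 * m i) (QB (β i)) k := by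
  unfold Hcc
  have h1 : cf (HH β) k = bd fun i => Hq (2 * m i) (QB (β i)) k := by
    unfold cf HH
    rw [bd_map _ (map_zero _)]
    congr 1
    funext i
    exact cf_Hp k
  rw [h1, cm_bd]
  rfl

/-- the holomorphic part is an isometry -/
lemma Hf_sp {m : ℕ} (hm : 1 ≤ m) {β : Fin m → ℚ} (hβ : ∀ i, ∀ a : ℤ, β i ≠ a) {t : ℕ} (ht : 2 ≤ t) :
    (Hf (Hc (2 * m) (QB β)) (((1 / (t : ℝ) : ℝ)) : ℂ))ᵀ * JJ β * Hf (Hc (2 * m) (QB β)) (((1 / (t : ℝ) : ℝ)) : ℂ) =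
      JJ β := by
  have hQ := QD_QB hm (not_int hβ)
  have hN : cm (Am (2 * m)) ^ (2 * m) = 0 := Ac_nil
  have h1 := isom_mul (Yt_form hQ ht) (E_isom hN (Jc_rel (Q := QB β)) ((Real.log t : ℝ) : ℂ))
  have h2 : Yt (2 * m) (QB β) t * E (cm (Am (2 * m))) ((Real.log t : ℝ) : ℂ) =
      Hf (Hc (2 * m) (QB β)) (((1 / (t : ℝ) : ℝ)) : ℂ) := by
    unfold Yt
    have h3 : E (cm (Am (2 * m))) (-((Real.log t : ℝ) : ℂ)) * E (cm (Am (2 * m))) ((Real.log t : ℝ) : ℂ) = 1 := by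
      have := E_mul_neg hN (-((Real.log t : ℝ) : ℂ))
      rwa [neg_neg] at this
    rw [Matrix.mul_assoc, h3, mul_one]
  rwa [h2] at h1

theorem gd_HH (β : ∀ i, Fin (m i) → ℚ) (hm : ∀ i, 1 ≤ m i) (hβ : ∀ i j, ∀ a : ℤ, β i j ≠ a)
    (hne : ∀ i k, i ≠ k → ¬ Eqv (β i) (β k)) :
    GD (NZ m) (HH β) (bd fun i => cm (Bm (2 * m i) (QB (β i)))) (GS β) := by
  have hQ : ∀ i, QD (2 * m i) (QB (β i)) := fun i => QD_QB (hm i) (not_int (hβ i))
  have hnil : ∀ i, cm (Am (2 * m i)) ^ (2 * m i) = 0 := fun i => Ac_nil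
  have hH : Hcc (HH β) = fun k => bd fun i => Hc (2 * m i) (QB (β i)) k := funext fun k => Hcc_HH β k
  refine ⟨?_, ?_, ?_, ?_⟩
  · rw [cm_NZ, hH]
    exact bd_Sol fun i => sol_c (hQ i)
  · rintro _ ⟨γ, hγ, rfl⟩
    rw [cm_NZ, hH]
    exact joint_invar β hm hβ hne γ hγ
  · intro s
    rw [cm_NZ, bd_E hnil]
    exact mem_GS fun i => E_isom (hnil i) Jc_rel s
  · intro t ht
    choose W hW1 hW2 hW3 using fun i => isom_inv (Jc_det (hQ i)) (Hf_sp (hm i) (hβ i) ht)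
    refine ⟨bd W, mem_GS hW3, ?_⟩
    rw [hH, bd_Hf, ← bd_mul]
    have h1 : (fun i => Hf (fun k => Hc (2 * m i) (QB (β i)) k) (((1 / (t : ℝ) : ℝ)) : ℂ) * W i) =
        fun i => (1 : Matrix (Fin (2 * m i)) (Fin (2 * m i)) ℂ) := by
      funext i
      exact hW1 i
    rw [h1, bd_one]

/-- the period matrix is block diagonal -/
theorem YT_HH (β : ∀ i, Fin (m i) → ℚ) (t : ℕ) :
    YT (NZ m) (HH β) t = bd fun i => Yt (2 * m i) (QB (β i)) t := by
  have hnil : ∀ i, cm (Am (2 * m i)) ^ (2 * m i) = 0 := fun i => Ac_nil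
  have hH : Hcc (HH β) = fun k => bd fun i => Hc (2 * m i) (QB (β i)) k := funext fun k => Hcc_HH β k
  unfold YT
  rw [cm_NZ, hH, bd_E hnil, bd_Hf, ← bd_mul]
  rfl

end Pool.Agent.W2helper4.HJ
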