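import Pool.Agent.W2helper4.HJ.Alg

/-!
# Families with the same pairings have the same exponents at infinity
-/

set_option autoImplicit false

open Filter Topology Matrix

namespace Pool.Agent.W2helper4.HJ

open Pool.Agent.Y119.HY

/-- equality of multisets of values gives a bijection -/
lemma exists_equiv {m : ℕ} {α : Type*} {f g : Fin m → α}
    (h : Multiset.map f Finset.univ.val = Multiset.map g Finset.univ.val) : ∃ e : Fin m ≃ Fin m, ∀ j, f j = g (e j) := by
  classical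
  have h1 : ∀ c, Nonempty ({j // f j = c} ≃ {j // g j = c}) := by
    intro c
    have h2 := congrArg (Multiset.count c) h
    rw [Multiset.count_map, Multiset.count_map] at h2
    refine ⟨Fintype.equivOfCardEq ?_⟩
    rw [Fintype.card_subtype, Fintype.card_subtype]
    have e1 : ∀ k : Fin m → α, Finset.univ.filter (fun j => k j = c) = Finset.univ.filter (fun j => c = k j) := by
      intro k
      ext j
      simp [eq_comm]
    rw [e1 f, e1 g]
    exact h2
  refine ⟨Equiv.ofFiberEquiv fun c => (h1 c).some, fun j => ?_⟩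
  exact (Equiv.ofFiberEquiv_map _ j).symm

/-- the constant factor of the sine series -/
noncomputable def S1 : PowerSeries ℂ := Sn_split.choose

lemma Sn_eq : Sn = PowerSeries.X * S1 := Sn_split.choose_spec.1

lemma S1_ne : PowerSeries.constantCoeff S1 ≠ 0 := Sn_split.choose_spec.2

/-- the sines -/
noncomputable def sb {m : ℕ} (β : Fin m → ℚ) (j : Fin m) : ℂ := Complex.sin ((Real.pi : ℂ) * (β j : ℂ)) ^ 2

lemma sb_real {m : ℕ} (β : Fin m → ℚ) (j : Fin m) : sb β j = ((Real.sin (Real.pi * (β j : ℝ)) ^ 2 : ℝ) : ℂ) := by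
  unfold sb
  push_cast
  rfl

lemma sb_pos {m : ℕ} {β : Fin m → ℚ} (hβ : ∀ i, ∀ a : ℤ, β i ≠ a) (j : Fin m) :
    0 < Real.sin (Real.pi * (β j : ℝ)) ^ 2 := by
  have h : Real.sin (Real.pi * (β j : ℝ)) ≠ 0 := by
    rw [Ne, Real.sin_eq_zero_iff]
    rintro ⟨a, ha⟩
    have h1 : (a : ℝ) = (β j : ℝ) := by
      have := Real.pi_ne_zero
      have h2 : Real.pi * ((a : ℝ) - (β j : ℝ)) = 0 := by linear_combination ha
      have h3 := (mul_eq_zero.1 h2).resolve_left this
      linarith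
    apply hβ j a
    exact_mod_cast h1.symm
  positivity

/-- the polynomial of the exponents -/
noncomputable def PP {m : ℕ} (β : Fin m → ℚ) : Polynomial ℂ := ∏ j, (Polynomial.X - Polynomial.C (sb β j))

lemma aeval_PP {m : ℕ} (β : Fin m → ℚ) :
    Polynomial.aeval (Sn ^ 2) (PP β) = ∏ j, (Sn ^ 2 - PowerSeries.C (sb β j)) := by
  unfold PP
  rw [map_prod]
  refine Finset.prod_congr rfl fun j _ => ?_
  rw [map_sub, Polynomial.aeval_X, Polynomial.aeval_C]
  rfl

lemma rescale_dvd {n : ℕ} {φ : PowerSeries ℂ} (h : PowerSeries.X ^ n ∣ φ) (a : ℂ) :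
    PowerSeries.X ^ n ∣ PowerSeries.rescale a φ := by
  rw [PowerSeries.X_pow_dvd_iff] at h ⊢
  intro k hk
  rw [PowerSeries.coeff_rescale, h k hk, mul_zero]

lemma isUnit_of_ne {φ : PowerSeries ℂ} (h : PowerSeries.constantCoeff φ ≠ 0) : IsUnit φ := by
  rw [PowerSeries.isUnit_iff_constantCoeff]
  exact isUnit_iff_ne_zero.2 h

/-- the pairings of the vanishing cycle of a hypergeometric family -/
theorem fam_key {m : ℕ} (hm : 1 ≤ m) {β : Fin m → ℚ}
    (hβ : ∀ i, ∀ l : ℕ, (l : ℚ) + β i ≠ 0 ∧ (l : ℚ) + -β i ≠ 0) {v : Fin (2 * m) → ℂ}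
    (hv : VV (cm (Jm (2 * m) (QB β))) (cm (Am (2 * m))) (uc (2 * m)) (Hc (2 * m) (QB β)) v) :
    ∃ W : PowerSeries ℂ, (∀ a < 2 * m, om (cm (Jm (2 * m) (QB β))) v (cm (Am (2 * m)) ^ a *ᵥ v) =
      -PowerSeries.coeff (2 * m - 1 - a) W) ∧
      PowerSeries.X ^ (2 * m) ∣ S1 ^ (2 * m) * W - Polynomial.aeval (Sn ^ 2) (PP β) := by
  have hQ := Pool.Agent.Y119.HZ.QD_QB hm hβ
  obtain ⟨G, hG1, hG2⟩ := hq_lim β hm
  have hlast : 2 * m - 1 < 2 * m := by omega
  have hG : ∀ j : Fin (2 * m), (v ᵥ* cm (Jm (2 * m) (QB β))) j = -PowerSeries.coeff (j : ℕ) G := by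
    intro j
    have h1 := VV_lim hQ.two (Jc_skew hQ) Ac_nil hv ⟨2 * m - 1, hlast⟩ j
    have h2 : uc (2 * m) ⟨2 * m - 1, hlast⟩ = 1 := by
      unfold uc
      rw [if_pos (by simp only; omega)]
    rw [h2, one_mul] at h1
    have hPG : PG fun k => ((hq (2 * m) (QB β) k (2 * m - 1) j : ℚ) : ℂ) :=
      (sol_c hQ).growth Ac_nil ⟨2 * m - 1, hlast⟩ j
    have h3 := abel hPG (hG1 j)
    exact tendsto_nhds_unique h1 h3
  set Qp := Polynomial.aeval (PowerSeries.X : PowerSeries ℂ) (QB β) with hQp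
  set R : PowerSeries ℂ →+* PowerSeries ℂ := PowerSeries.rescale (-1) with hR
  set V := gv v with hV
  set P := Polynomial.aeval (Sn ^ 2) (PP β) with hP
  have hRR : ∀ φ, R (R φ) = φ := by
    intro φ
    rw [hR, PowerSeries.rescale_rescale]
    norm_num
  have hRQ : R Qp = Qp := by
    ext k
    rw [hR, PowerSeries.coeff_rescale, hQp, coeff_aeval_X]
    rcases Nat.even_or_odd k with h | h
    · rw [h.neg_one_pow, one_mul]
    · rw [hQ.sym k h]
      simp
  have h1 : PowerSeries.X ^ (2 * m) ∣ G - Qp * R V := by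
    rw [PowerSeries.X_pow_dvd_iff]
    intro k hk
    have h2 := vecMul_Jm (Q := QB β) hQ.even (by omega) v ⟨k, hk⟩
    rw [hG ⟨k, hk⟩] at h2
    rw [map_sub]
    exact sub_eq_zero.2 (neg_injective h2)
  have h2 : PowerSeries.X ^ (2 * m) ∣ R G - Qp * V := by
    have h3 := rescale_dvd h1 (-1)
    rwa [← hR, map_sub, map_mul, hRQ, hRR] at h3
  have h4 : G * R G * S1 ^ (2 * m) = Qp * P := by
    have h5 : PowerSeries.X ^ (2 * m) * (G * R G * S1 ^ (2 * m)) = PowerSeries.X ^ (2 * m) * (Qp * P) := by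
      have h6 : G * R G * Sn ^ (2 * m) = Qp * PowerSeries.X ^ (2 * m) * P := by
        rw [hP, aeval_PP]
        exact hG2
      rw [Sn_eq, mul_pow] at h6
      linear_combination h6
    exact mul_left_cancel₀ (pow_ne_zero _ PowerSeries.X_ne_zero) h5
  have hQu : IsUnit Qp := by
    apply isUnit_of_ne
    rw [← PowerSeries.coeff_zero_eq_constantCoeff_apply, hQp, coeff_aeval_X]
    have h5 := hQ.ne 0
    rw [Nat.cast_zero, ← Polynomial.coeff_zero_eq_eval_zero] at h5
    exact_mod_cast h5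
  refine ⟨G * V, fun a ha => om_gen hG ha, ?_⟩
  rw [← hQu.dvd_mul_left (a := PowerSeries.X ^ (2 * m))]
  have h5 : Qp * (S1 ^ (2 * m) * (G * V) - P) = -(S1 ^ (2 * m) * G * (R G - Qp * V)) := by
    linear_combination h4
  rw [h5, dvd_neg]
  exact h2.mul_left _

lemma coeff_zero_S {m : ℕ} (hm : 1 ≤ m) (D : Polynomial ℂ) {W : PowerSeries ℂ}
    (h : PowerSeries.X ^ (2 * m) ∣ S1 ^ (2 * m) * W - Polynomial.aeval (Sn ^ 2) D) :
    PowerSeries.constantCoeff S1 ^ (2 * m) * PowerSeries.coeff 0 W = D.coeff 0 := by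
  have h1 := (PowerSeries.X_pow_dvd_iff.1 h) 0 (by omega)
  rw [map_sub, sub_eq_zero, PowerSeries.coeff_zero_eq_constantCoeff_apply,
    PowerSeries.coeff_zero_eq_constantCoeff_apply, map_mul, map_pow] at h1
  rw [PowerSeries.coeff_zero_eq_constantCoeff_apply, h1]
  have h2 : PowerSeries.constantCoeff Sn = 0 := by rw [Sn_eq, map_mul]; simp
  have h3 : (PowerSeries.constantCoeff (R := ℂ)) (Polynomial.aeval (Sn ^ 2) D) =
      Polynomial.eval ((PowerSeries.constantCoeff (R := ℂ)) (Sn ^ 2)) D := by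
    rw [Polynomial.aeval_def, Polynomial.hom_eval₂]
    have h4 : (PowerSeries.constantCoeff (R := ℂ)).comp (algebraMap ℂ (PowerSeries ℂ)) = RingHom.id ℂ := by
      ext a
      exact PowerSeries.constantCoeff_C a
    rw [h4, Polynomial.eval₂_id]
  rw [h3, map_pow, h2, zero_pow two_ne_zero, Polynomial.coeff_zero_eq_eval_zero]

lemma PP_zero {m : ℕ} {β : Fin m → ℚ} (hβ : ∀ i, ∀ a : ℤ, β i ≠ a) :
    ∃ c : ℝ, 0 < c ∧ (PP β).coeff 0 = (-1) ^ m * (c : ℂ) := by
  refine ⟨∏ j, Real.sin (Real.pi * (β j : ℝ)) ^ 2, Finset.prod_pos fun j _ => sb_pos hβ j, ?_⟩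
  rw [Polynomial.coeff_zero_eq_eval_zero]
  unfold PP
  rw [Polynomial.eval_prod]
  have h1 : (-1 : ℂ) ^ m = ∏ _j : Fin m, (-1 : ℂ) := by
    rw [Finset.prod_const, Finset.card_univ, Fintype.card_fin]
  rw [h1]
  push_cast
  rw [← Finset.prod_mul_distrib]
  refine Finset.prod_congr rfl fun j _ => ?_
  rw [Polynomial.eval_sub, Polynomial.eval_X, Polynomial.eval_C, sb_real]
  push_cast
  ring

lemma not_int {m : ℕ} {β : Fin m → ℚ} (hβ : ∀ i, ∀ a : ℤ, β i ≠ a) (i : Fin m) (l : ℕ) :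
    (l : ℚ) + β i ≠ 0 ∧ (l : ℚ) + -β i ≠ 0 := by
  constructor
  · intro h
    apply hβ i (-(l : ℤ))
    push_cast
    linear_combination h
  · intro h
    apply hβ i (l : ℤ)
    push_cast
    linear_combination -h

/-- a polynomial in `S²` of high order vanishes -/
lemma high_order {m : ℕ} {D : Polynomial ℂ} (h : PowerSeries.X ^ (2 * m) ∣ Polynomial.aeval (Sn ^ 2) D)
    (hD : D.degree < m) : D = 0 := by
  by_contra h0
  set a := D.natTrailingDegree with ha
  have ha1 : D.coeff a ≠ 0 := Polynomial.trailingCoeff_nonzero_iff_nonzero.2 h0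
  have ha2 : a < m := by
    have h1 := Polynomial.natTrailingDegree_le_natDegree D
    have h2 := (Polynomial.natDegree_lt_iff_degree_lt h0).2 hD
    omega
  have h1 := (PowerSeries.X_pow_dvd_iff.1 h) (2 * a) (by omega)
  rw [Polynomial.aeval_eq_sum_range, map_sum] at h1
  have hS : ∀ k, (Sn ^ 2) ^ k = PowerSeries.X ^ (2 * k) * S1 ^ (2 * k) := by
    intro k
    rw [Sn_eq, ← pow_mul, mul_pow]
  rw [Finset.sum_eq_single a] at h1
  · rw [PowerSeries.coeff_smul, hS, PowerSeries.coeff_X_pow_mul', if_pos le_rfl, Nat.sub_self,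
      PowerSeries.coeff_zero_eq_constantCoeff_apply, map_pow, smul_eq_mul] at h1
    exact mul_ne_zero ha1 (pow_ne_zero _ S1_ne) h1
  · intro k _ hk
    rw [PowerSeries.coeff_smul, hS, PowerSeries.coeff_X_pow_mul']
    split_ifs with h2
    · have h3 : k < a := by omega
      rw [Polynomial.coeff_eq_zero_of_lt_natTrailingDegree h3, zero_smul]
    · rw [smul_zero]
  · intro h2
    exfalso
    apply h2
    rw [Finset.mem_range, Nat.lt_succ_iff]
    exact Polynomial.natTrailingDegree_le_natDegree D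

/-- equivalence of the exponents at infinity: `{± β_j}` and `{± β'_j}` agree modulo `ℤ` -/
def Eqv {m m' : ℕ} (β : Fin m → ℚ) (β' : Fin m' → ℚ) : Prop :=
  ∃ e : Fin m ≃ Fin m', ∀ j, ∃ a : ℤ, β j = a + β' (e j) ∨ β j = a - β' (e j)

lemma sin_sq_eq {x y : ℚ} (h : Real.sin (Real.pi * (x : ℝ)) ^ 2 = Real.sin (Real.pi * (y : ℝ)) ^ 2) :
    ∃ a : ℤ, x = a + y ∨ x = a - y := by
  have h1 : Real.cos (2 * Real.pi * (y : ℝ)) = Real.cos (2 * Real.pi * (x : ℝ)) := by
    have e1 : 2 * Real.pi * (y : ℝ) = 2 * (Real.pi * (y : ℝ)) := by ring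
    have e2 : 2 * Real.pi * (x : ℝ) = 2 * (Real.pi * (x : ℝ)) := by ring
    rw [e1, e2, Real.cos_two_mul, Real.cos_two_mul]
    have h2 := Real.sin_sq_add_cos_sq (Real.pi * (x : ℝ))
    have h3 := Real.sin_sq_add_cos_sq (Real.pi * (y : ℝ))
    linarith
  rw [Real.cos_eq_cos_iff] at h1
  obtain ⟨k, hk⟩ := h1
  have hpi := Real.pi_ne_zero
  refine ⟨k, ?_⟩
  rcases hk with hk | hk
  · left
    have h2 : 2 * Real.pi * ((x : ℝ) - (k + y)) = 0 := by linear_combination hk
    have h3 := (mul_eq_zero.1 h2).resolve_left (mul_ne_zero two_ne_zero hpi)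
    have h4 : (x : ℝ) = k + y := by linarith
    exact_mod_cast h4
  · right
    have h2 : 2 * Real.pi * ((x : ℝ) - (k - y)) = 0 := by linear_combination hk
    have h3 := (mul_eq_zero.1 h2).resolve_left (mul_ne_zero two_ne_zero hpi)
    have h4 : (x : ℝ) = k - y := by linarith
    exact_mod_cast h4

lemma PP_monic {m : ℕ} (β : Fin m → ℚ) : (PP β).Monic := Polynomial.monic_prod_of_monic _ _ fun j _ => Polynomial.monic_X_sub_C _

lemma PP_deg {m : ℕ} (β : Fin m → ℚ) : (PP β).degree = m := by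
  rw [Polynomial.degree_eq_natDegree (PP_monic β).ne_zero]
  unfold PP
  rw [Polynomial.natDegree_prod_of_monic _ _ fun j _ => Polynomial.monic_X_sub_C _]
  simp

lemma PP_inj {m : ℕ} {β β' : Fin m → ℚ} (h : PP β = PP β') : Eqv β β' := by
  have h1 : ∀ γ : Fin m → ℚ, (PP γ).roots = Multiset.map (sb γ) Finset.univ.val := by
    intro γ
    have : PP γ = (Multiset.map (fun a => Polynomial.X - Polynomial.C a) (Multiset.map (sb γ) Finset.univ.val)).prod := by
      rw [Multiset.map_map]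
      rfl
    rw [this, Polynomial.roots_multiset_prod_X_sub_C]
  have h2 : Multiset.map (sb β) Finset.univ.val = Multiset.map (sb β') Finset.univ.val := by rw [← h1, ← h1, h]
  obtain ⟨e, he⟩ := exists_equiv h2
  refine ⟨e, fun j => sin_sq_eq ?_⟩
  have h3 := he j
  rw [sb_real, sb_real] at h3
  exact_mod_cast h3

/-- the pairing as a linear map -/
def lom {n : ℕ} (J : Matrix (Fin n) (Fin n) ℂ) (v : Fin n → ℂ) : (Fin n → ℂ) →ₗ[ℂ] ℂ :=
  { toFun := fun x => om J v x, map_add' := om_add v, map_smul' := fun c x => om_smul c v x }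

/-- **Separation.** -/
theorem fam_sep {m m' : ℕ} (hm : 1 ≤ m) (hm' : 1 ≤ m') {β : Fin m → ℚ} {β' : Fin m' → ℚ}
    (hβ : ∀ i, ∀ a : ℤ, β i ≠ a) (hβ' : ∀ i, ∀ a : ℤ, β' i ≠ a) {v : Fin (2 * m) → ℂ} {v' : Fin (2 * m') → ℂ}
    (hv : VV (cm (Jm (2 * m) (QB β))) (cm (Am (2 * m))) (uc (2 * m)) (Hc (2 * m) (QB β)) v)
    (hv' : VV (cm (Jm (2 * m') (QB β'))) (cm (Am (2 * m'))) (uc (2 * m')) (Hc (2 * m') (QB β')) v')
    (h : ∀ s, fv (cm (Jm (2 * m) (QB β))) (cm (Am (2 * m))) v s ^ 2 =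
      fv (cm (Jm (2 * m') (QB β'))) (cm (Am (2 * m'))) v' s ^ 2) : Eqv β β' := by
  obtain ⟨W, hW1, hW2⟩ := fam_key hm (not_int hβ) hv
  obtain ⟨W', hW1', hW2'⟩ := fam_key hm' (not_int hβ') hv'
  obtain ⟨c, hc, hc0⟩ := PP_zero hβ
  obtain ⟨c', hc', hc0'⟩ := PP_zero hβ'
  have hd := coeff_zero_S hm _ hW2
  have hd' := coeff_zero_S hm' _ hW2'
  have hW0 : PowerSeries.coeff 0 W ≠ 0 := by
    intro h0
    rw [h0, mul_zero, hc0] at hd
    have : (c : ℂ) ≠ 0 := by exact_mod_cast hc.ne'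
    exact mul_ne_zero (pow_ne_zero _ (by norm_num)) this hd.symm
  have hW0' : PowerSeries.coeff 0 W' ≠ 0 := by
    intro h0
    rw [h0, mul_zero, hc0'] at hd'
    have : (c' : ℂ) ≠ 0 := by exact_mod_cast hc'.ne'
    exact mul_ne_zero (pow_ne_zero _ (by norm_num)) this hd'.symm
  set p := pl (cm (Am (2 * m))) v (lom (cm (Jm (2 * m) (QB β))) v) with hp
  set p' := pl (cm (Am (2 * m'))) v' (lom (cm (Jm (2 * m') (QB β'))) v') with hp'
  have hco : ∀ a < 2 * m, p.coeff a = -PowerSeries.coeff (2 * m - 1 - a) W / (a.factorial : ℂ) := by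
    intro a ha
    rw [← hW1 a ha]
    exact pl_coeff v (lom (cm (Jm (2 * m) (QB β))) v) ⟨a, ha⟩
  have hco' : ∀ a < 2 * m', p'.coeff a = -PowerSeries.coeff (2 * m' - 1 - a) W' / (a.factorial : ℂ) := by
    intro a ha
    rw [← hW1' a ha]
    exact pl_coeff v' (lom (cm (Jm (2 * m') (QB β'))) v') ⟨a, ha⟩
  have hdeg : ∀ (k : ℕ) (N : Matrix (Fin (2 * k)) (Fin (2 * k)) ℂ) (w : Fin (2 * k) → ℂ) (l : (Fin (2 * k) → ℂ) →ₗ[ℂ] ℂ),
      1 ≤ k → (pl N w l).coeff (2 * k - 1) ≠ 0 → (pl N w l).natDegree = 2 * k - 1 := by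
    intro k N w l hk hne
    refine le_antisymm ?_ (Polynomial.le_natDegree_of_ne_zero hne)
    unfold pl
    refine Polynomial.natDegree_sum_le_of_forall_le _ _ fun i _ => ?_
    refine (Polynomial.natDegree_monomial_le _).trans ?_
    have := i.2
    omega
  have hpd : p.natDegree = 2 * m - 1 := by
    refine hdeg m _ _ _ hm ?_
    rw [← hp, hco _ (by omega), Nat.sub_self]
    exact div_ne_zero (neg_ne_zero.2 hW0) (by exact_mod_cast (2 * m - 1).factorial_ne_zero)
  have hpd' : p'.natDegree = 2 * m' - 1 := by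
    refine hdeg m' _ _ _ hm' ?_
    rw [← hp', hco' _ (by omega), Nat.sub_self]
    exact div_ne_zero (neg_ne_zero.2 hW0') (by exact_mod_cast (2 * m' - 1).factorial_ne_zero)
  have hsq : p ^ 2 = p' ^ 2 := by
    refine Polynomial.funext fun s => ?_
    rw [Polynomial.eval_pow, Polynomial.eval_pow, hp, hp', pl_eval, pl_eval]
    exact h s
  have hmm : m = m' := by
    have h1 := congrArg Polynomial.natDegree hsq
    rw [Polynomial.natDegree_pow, Polynomial.natDegree_pow, hpd, hpd'] at h1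
    omega
  subst hmm
  have hfac : ∀ a : ℕ, (a.factorial : ℂ) ≠ 0 := fun a => by exact_mod_cast a.factorial_ne_zero
  rcases sq_eq_sq_iff_eq_or_eq_neg.1 hsq with h1 | h1
  · have h2 : ∀ k < 2 * m, PowerSeries.coeff k W = PowerSeries.coeff k W' := by
      intro k hk
      have h3 : p.coeff (2 * m - 1 - k) = p'.coeff (2 * m - 1 - k) := by rw [h1]
      rw [hco _ (by omega), hco' _ (by omega)] at h3
      have e1 : 2 * m - 1 - (2 * m - 1 - k) = k := by omega
      rw [e1, div_left_inj' (hfac _)] at h3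
      exact neg_injective h3
    have h3 : PowerSeries.X ^ (2 * m) ∣ W - W' := by
      rw [PowerSeries.X_pow_dvd_iff]
      intro k hk
      rw [map_sub, h2 k hk, sub_self]
    have h4 : PowerSeries.X ^ (2 * m) ∣ Polynomial.aeval (Sn ^ 2) (PP β - PP β') := by
      have e1 : Polynomial.aeval (Sn ^ 2) (PP β - PP β') = S1 ^ (2 * m) * (W - W') -
          ((S1 ^ (2 * m) * W - Polynomial.aeval (Sn ^ 2) (PP β)) -
            (S1 ^ (2 * m) * W' - Polynomial.aeval (Sn ^ 2) (PP β'))) := by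
        rw [map_sub]; ring
      rw [e1]
      exact dvd_sub (h3.mul_left _) (dvd_sub hW2 hW2')
    have h5 : PP β - PP β' = 0 := by
      refine high_order h4 ?_
      rw [← PP_deg β]
      exact Polynomial.degree_sub_lt_left (by rw [PP_deg, PP_deg]) (PP_monic β).ne_zero
        (by rw [(PP_monic β).leadingCoeff, (PP_monic β').leadingCoeff])
    exact PP_inj (sub_eq_zero.1 h5)
  · exfalso
    have h3 : p.coeff (2 * m - 1) = (-p').coeff (2 * m - 1) := by rw [h1]
    rw [Polynomial.coeff_neg, hco _ (by omega), hco' _ (by omega), Nat.sub_self, ← neg_div, div_left_inj' (hfac _)] at h3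
    have h4 : PowerSeries.coeff 0 W + PowerSeries.coeff 0 W' = 0 := by linear_combination -h3
    have h5 : (-1 : ℂ) ^ m * ((c + c' : ℝ) : ℂ) = 0 := by
      push_cast
      rw [mul_add, ← hc0, ← hc0', ← hd, ← hd', ← mul_add, h4, mul_zero]
    have h6 : ((c + c' : ℝ) : ℂ) ≠ 0 := by
      have : c + c' ≠ 0 := by positivity
      exact_mod_cast this
    exact mul_ne_zero (pow_ne_zero _ (by norm_num)) h6 h5

/-- the last pairing does not vanish -/
theorem fam_ne {m : ℕ} (hm : 1 ≤ m) {β : Fin m → ℚ}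
    (hβ : ∀ i, ∀ a : ℤ, β i ≠ a) {v : Fin (2 * m) → ℂ}
    (hv : VV (cm (Jm (2 * m) (QB β))) (cm (Am (2 * m))) (uc (2 * m)) (Hc (2 * m) (QB β)) v) :
    om (cm (Jm (2 * m) (QB β))) v (cm (Am (2 * m)) ^ (2 * m - 1) *ᵥ v) ≠ 0 := by
  obtain ⟨W, hW1, hW2⟩ := fam_key hm (not_int hβ) hv
  obtain ⟨c, hc, hc0⟩ := PP_zero hβ
  have hd := coeff_zero_S hm _ hW2
  rw [hW1 _ (by omega), Nat.sub_self]
  intro h0
  rw [neg_eq_zero] at h0
  rw [h0, mul_zero, hc0] at hd
  have : (c : ℂ) ≠ 0 := by exact_mod_cast hc.ne'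
  exact mul_ne_zero (pow_ne_zero _ (by norm_num)) this hd.symm

end Pool.Agent.W2helper4.HJ
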