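import Pool.Agent.W2helper4.HJ.Tay
import Pool.Agent.Y119.HY.Inv

/-!
# The asymptotics of the coefficients of the hypergeometric solutions
-/

set_option autoImplicit false

open Filter Topology

namespace Pool.Agent.W2helper4.HJ

open Pool.Agent.Y119.HY

variable {m : ℕ} (β : Fin m → ℚ)

/-- the polynomial `∏ (x² - β_j²)` at complex arguments -/
noncomputable def Qe (x : ℂ) : ℂ := Polynomial.aeval x (QB β)

lemma Qe_eq (x : ℂ) : Qe β x = ∏ j, ((x - (β j : ℂ)) * (x + (β j : ℂ))) := by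
  unfold Qe QB
  rw [map_prod]
  refine Finset.prod_congr rfl fun j _ => ?_
  simp only [map_sub, map_pow, Polynomial.aeval_X, Polynomial.aeval_C, eq_ratCast]
  ring

lemma Qe_neg (x : ℂ) : Qe β (-x) = Qe β x := by
  rw [Qe_eq, Qe_eq]
  exact Finset.prod_congr rfl fun j _ => by ring

/-- `∏ Q(l + x) / (l + 1 + x) ^ (2 m)` -/
noncomputable def pg (k : ℕ) (x : ℂ) : ℂ :=
  ∏ l ∈ Finset.range k, (Qe β ((l : ℂ) + x) * (((l : ℂ) + 1 + x)⁻¹) ^ (2 * m))

/-- `k (k + x) ^ (2 m - 1) a_k(x)` -/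
noncomputable def gg (k : ℕ) (x : ℂ) : ℂ := (k : ℂ) * ((k : ℂ) + x) ^ (2 * m - 1) * pg β k x

lemma pg_succ (k : ℕ) (x : ℂ) : pg β (k + 1) x = pg β k x * (Qe β ((k : ℂ) + x) * (((k : ℂ) + 1 + x)⁻¹) ^ (2 * m)) := by
  unfold pg
  rw [Finset.prod_range_succ]

lemma ne_of_half {x : ℂ} (hx : ‖x‖ ≤ 1 / 2) (l : ℕ) : (l : ℂ) + 1 + x ≠ 0 := by
  intro h
  have h1 : x = -((l : ℂ) + 1) := by linear_combination h
  have h2 : ‖x‖ = (l : ℝ) + 1 := by
    rw [h1, norm_neg]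
    have : ((l : ℂ) + 1) = (((l : ℝ) + 1 : ℝ) : ℂ) := by push_cast; rfl
    rw [this, Complex.norm_real, Real.norm_of_nonneg (by positivity)]
  rw [h2] at hx
  have : (0 : ℝ) ≤ l := Nat.cast_nonneg l
  linarith

lemma norm_add_ge {x : ℂ} (hx : ‖x‖ ≤ 1 / 2) {k : ℕ} (hk : 1 ≤ k) : (k : ℝ) / 2 ≤ ‖(k : ℂ) + x‖ := by
  have h1 : ‖(k : ℂ)‖ - ‖x‖ ≤ ‖(k : ℂ) + x‖ := by
    have := norm_sub_norm_le (k : ℂ) (-x)
    rw [norm_neg, sub_neg_eq_add] at this
    exact this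
  rw [Complex.norm_natCast] at h1
  have : (1 : ℝ) ≤ k := by exact_mod_cast hk
  linarith

/-- the ratio -/
noncomputable def rr (k : ℕ) (x : ℂ) : ℂ :=
  (1 + x / ((k : ℂ) * ((k : ℂ) + 1 + x))) * ∏ j, (1 + -((β j : ℂ) ^ 2 / ((k : ℂ) + x) ^ 2))

lemma gg_succ (hm : 1 ≤ m) {k : ℕ} (hk : 1 ≤ k) {x : ℂ} (hx : ‖x‖ ≤ 1 / 2) :
    gg β (k + 1) x = gg β k x * rr β k x := by
  have h1 : (k : ℂ) + 1 + x ≠ 0 := ne_of_half hx k
  have h2 : (k : ℂ) + x ≠ 0 := by
    obtain ⟨l, rfl⟩ := Nat.exists_eq_add_of_le' hk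
    have := ne_of_half hx l
    push_cast
    exact this
  have h3 : (k : ℂ) ≠ 0 := by
    have : k ≠ 0 := by omega
    exact_mod_cast this
  have hQ : Qe β ((k : ℂ) + x) = ((k : ℂ) + x) ^ (2 * m) *
      ∏ j, (1 + -((β j : ℂ) ^ 2 / ((k : ℂ) + x) ^ 2)) := by
    rw [Qe_eq, pow_mul]
    have : (((k : ℂ) + x) ^ 2) ^ m = ∏ _j : Fin m, ((k : ℂ) + x) ^ 2 := by
      rw [Finset.prod_const, Finset.card_univ, Fintype.card_fin]
    rw [this, ← Finset.prod_mul_distrib]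
    refine Finset.prod_congr rfl fun j _ => ?_
    field_simp
    ring
  unfold gg rr
  rw [pg_succ, hQ]
  set P := ∏ j, (1 + -((β j : ℂ) ^ 2 / ((k : ℂ) + x) ^ 2)) with hP
  set a := (k : ℂ) + 1 + x with ha
  have e1 : ((k + 1 : ℕ) : ℂ) + x = a := by rw [ha]; push_cast; ring
  rw [e1]
  obtain ⟨N, hN⟩ : ∃ N, 2 * m = N + 1 := ⟨2 * m - 1, by omega⟩
  rw [hN, Nat.add_sub_cancel]
  have e2 : a ^ N * (a⁻¹) ^ (N + 1) = a⁻¹ := by
    rw [inv_pow, pow_succ, mul_inv]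
    field_simp
  have e3 : (((k + 1 : ℕ) : ℂ)) * ((k : ℂ) + x) * a⁻¹ = (k : ℂ) * (1 + x / ((k : ℂ) * a)) := by
    have e4 : ((k + 1 : ℕ) : ℂ) = (k : ℂ) + 1 := by push_cast; ring
    rw [e4]
    field_simp
    rw [ha]
    ring
  calc ((k + 1 : ℕ) : ℂ) * a ^ N * (pg β k x * (((k : ℂ) + x) ^ (N + 1) * P * (a⁻¹) ^ (N + 1)))
      = (((k + 1 : ℕ) : ℂ) * ((k : ℂ) + x) * (a ^ N * (a⁻¹) ^ (N + 1))) * ((k : ℂ) + x) ^ N * pg β k x * P := by ring
    _ = _ := by rw [e2, e3]; ring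

/-- the constant of the estimate -/
noncomputable def SS : ℝ := 1 + ∑ j, 4 * ‖(β j : ℂ)‖ ^ 2

lemma rr_bound {k : ℕ} (hk : 1 ≤ k) {x : ℂ} (hx : ‖x‖ ≤ 1 / 2) :
    ‖rr β k x - 1‖ ≤ SS β * Real.exp (SS β) / (k : ℝ) ^ 2 := by
  have hS : 0 ≤ SS β := by unfold SS; positivity
  have hk0 : (1 : ℝ) ≤ k := by exact_mod_cast hk
  have hkp : (0 : ℝ) < k := by linarith
  set f : Option (Fin m) → ℂ := fun o => o.elim (x / ((k : ℂ) * ((k : ℂ) + 1 + x)))
    fun j => -((β j : ℂ) ^ 2 / ((k : ℂ) + x) ^ 2) with hf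
  have h1 : rr β k x = ∏ o, (1 + f o) := by
    rw [Fintype.prod_option]
    rfl
  have h2 := Finset.norm_prod_one_add_sub_one_le Finset.univ f
  rw [← h1] at h2
  have h3 : ∑ o, ‖f o‖ ≤ SS β / (k : ℝ) ^ 2 := by
    rw [Fintype.sum_option]
    unfold SS
    rw [add_div, Finset.sum_div]
    refine add_le_add ?_ (Finset.sum_le_sum fun j _ => ?_)
    · show ‖x / ((k : ℂ) * ((k : ℂ) + 1 + x))‖ ≤ _
      have e1 : (k : ℂ) + 1 + x = ((k + 1 : ℕ) : ℂ) + x := by push_cast; ring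
      have h4 := norm_add_ge hx (k := k + 1) (by omega)
      rw [e1, norm_div, norm_mul, Complex.norm_natCast]
      have h5 : (k : ℝ) / 2 ≤ ‖((k + 1 : ℕ) : ℂ) + x‖ := by
        refine le_trans ?_ h4
        push_cast
        linarith
      rw [div_le_div_iff₀ (mul_pos hkp (lt_of_lt_of_le (by positivity) h5)) (by positivity)]
      have h6 : (k : ℝ) * ((k : ℝ) / 2) ≤ (k : ℝ) * ‖((k + 1 : ℕ) : ℂ) + x‖ := mul_le_mul_of_nonneg_left h5 hkp.le
      have h7 : ‖x‖ * (k : ℝ) ^ 2 ≤ 1 / 2 * (k : ℝ) ^ 2 := mul_le_mul_of_nonneg_right hx (by positivity)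
      nlinarith
    · show ‖-((β j : ℂ) ^ 2 / ((k : ℂ) + x) ^ 2)‖ ≤ _
      have h4 := norm_add_ge hx hk
      rw [norm_neg, norm_div, norm_pow, norm_pow]
      rw [div_le_div_iff₀ (pow_pos (by linarith) 2) (by positivity)]
      have h5 : ((k : ℝ) / 2) ^ 2 ≤ ‖(k : ℂ) + x‖ ^ 2 := pow_le_pow_left₀ (by positivity) h4 2
      have h6 : (k : ℝ) ^ 2 ≤ 4 * ‖(k : ℂ) + x‖ ^ 2 := by nlinarith
      have h7 := mul_le_mul_of_nonneg_left h6 (show 0 ≤ ‖(β j : ℂ)‖ ^ 2 by positivity)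
      linarith
  have hb : SS β / (k : ℝ) ^ 2 ≤ SS β := div_le_self hS (one_le_pow₀ hk0)
  have h4 : Real.exp (∑ o, ‖f o‖) ≤ Real.exp (SS β / (k : ℝ) ^ 2) := Real.exp_le_exp.2 h3
  have h5 : ∀ y : ℝ, 0 ≤ y → Real.exp y - 1 ≤ y * Real.exp y := by
    intro y _
    have h6 := Real.add_one_le_exp (-y)
    have h7 : Real.exp y * Real.exp (-y) = 1 := by rw [← Real.exp_add]; simp
    have h8 := mul_le_mul_of_nonneg_left h6 (Real.exp_pos y).le
    nlinarith
  have h6 := h5 (SS β / (k : ℝ) ^ 2) (by positivity)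
  have h7 : SS β / (k : ℝ) ^ 2 * Real.exp (SS β / (k : ℝ) ^ 2) ≤ SS β / (k : ℝ) ^ 2 * Real.exp (SS β) :=
    mul_le_mul_of_nonneg_left (Real.exp_le_exp.2 hb) (by positivity)
  calc _ ≤ Real.exp (SS β / (k : ℝ) ^ 2) - 1 := h2.trans (by linarith)
    _ ≤ SS β / (k : ℝ) ^ 2 * Real.exp (SS β) := h6.trans h7
    _ = _ := by ring

lemma pg_diff (k : ℕ) : DifferentiableOn ℂ (pg β k) (Metric.ball 0 (1 / 2)) := by
  unfold pg
  refine DifferentiableOn.fun_finsetProd fun l _ => ?_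
  intro x hx
  rw [Metric.mem_ball, dist_zero_right] at hx
  refine DifferentiableAt.differentiableWithinAt ?_
  refine DifferentiableAt.fun_mul ?_ (DifferentiableAt.fun_pow (DifferentiableAt.fun_inv (by fun_prop) (ne_of_half hx.le l)) _)
  simp only [Qe_eq]
  fun_prop

lemma gg_diff (k : ℕ) : DifferentiableOn ℂ (gg β k) (Metric.ball 0 (1 / 2)) := by
  unfold gg
  exact DifferentiableOn.fun_mul (by fun_prop) (pg_diff β k)

lemma cont_pg (k : ℕ) : ContinuousOn (pg β k) (Metric.closedBall 0 (1 / 2)) := by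
  unfold pg
  refine continuousOn_finsetProd _ fun l _ => ?_
  intro x hx
  rw [Metric.mem_closedBall, dist_zero_right] at hx
  refine ContinuousAt.continuousWithinAt ?_
  refine ContinuousAt.fun_mul ?_ (ContinuousAt.fun_pow (ContinuousAt.inv₀ (by fun_prop) (ne_of_half hx l)) _)
  simp only [Qe_eq]
  fun_prop

lemma cont_gg (k : ℕ) : ContinuousOn (gg β k) (Metric.closedBall 0 (1 / 2)) := by
  unfold gg
  exact ContinuousOn.fun_mul (by fun_prop) (cont_pg β k)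

lemma cont_rr {k : ℕ} (hk : 1 ≤ k) : ContinuousOn (rr β k) (Metric.closedBall 0 (1 / 2)) := by
  unfold rr
  have h3 : (k : ℂ) ≠ 0 := by
    have : k ≠ 0 := by omega
    exact_mod_cast this
  intro x hx
  rw [Metric.mem_closedBall, dist_zero_right] at hx
  have h1 : (k : ℂ) + 1 + x ≠ 0 := ne_of_half hx k
  have h2 : (k : ℂ) + x ≠ 0 := by
    obtain ⟨l, rfl⟩ := Nat.exists_eq_add_of_le' hk
    have := ne_of_half hx l
    push_cast
    exact this
  refine ContinuousAt.continuousWithinAt ?_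
  refine ContinuousAt.fun_mul ?_ ?_
  · exact continuousAt_const.add (ContinuousAt.div (by fun_prop) (by fun_prop) (mul_ne_zero h3 h1))
  · refine tendsto_finsetProd _ fun j _ => ?_
    exact continuousAt_const.add (ContinuousAt.fun_neg (ContinuousAt.div (by fun_prop) (by fun_prop) (pow_ne_zero _ h2)))

theorem gg_lim (hm : 1 ≤ m) : ∃ g : ℂ → ℂ, TendstoUniformlyOn (gg β) g atTop (Metric.closedBall 0 (1 / 2)) := by
  set f : ℕ → ℂ → ℂ := fun k x => if k = 0 then gg β 1 x - 1 else rr β k x - 1 with hf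
  have h1 : ∀ k, 1 ≤ k → ∀ x ∈ Metric.closedBall (0 : ℂ) (1 / 2), ∏ l ∈ Finset.range k, (1 + f l x) = gg β k x := by
    intro k hk x hx
    rw [Metric.mem_closedBall, dist_zero_right] at hx
    induction k, hk using Nat.le_induction with
    | base => simp [hf]
    | succ k hk ih =>
      rw [Finset.prod_range_succ, ih, gg_succ β hm hk hx, hf]
      simp only
      rw [if_neg (by omega)]
      ring
  have h2 := Summable.hasProdUniformlyOn_nat_one_add (f := f) (K := Metric.closedBall (0 : ℂ) (1 / 2))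
    (isCompact_closedBall _ _) (u := fun k => SS β * Real.exp (SS β) / (k : ℝ) ^ 2)
    (by
      simp only [div_eq_mul_inv]
      exact (Real.summable_nat_pow_inv.2 one_lt_two).mul_left _)
    (by
      filter_upwards [eventually_ge_atTop 1] with k hk x hx
      rw [Metric.mem_closedBall, dist_zero_right] at hx
      rw [hf]
      simp only
      rw [if_neg (by omega)]
      exact rr_bound β hk hx)
    (by
      intro k
      rw [hf]
      simp only
      rcases Nat.eq_zero_or_pos k with h0 | h0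
      · subst h0
        simp only [if_true]
        exact (cont_gg β 1).sub continuousOn_const
      · have h0' : k ≠ 0 := by omega
        simp only [h0', if_false]
        exact (cont_rr β h0).sub continuousOn_const)
  refine ⟨_, (h2.tendstoUniformlyOn_finsetRange).congr ?_⟩
  filter_upwards [eventually_ge_atTop 1] with k hk x hx
  exact h1 k hk x hx

end Pool.Agent.W2helper4.HJ
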