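import Pool.Agent.W2helper4.HJ.Lim

/-!
# The limit of the coefficients and the product of the sine function
-/

set_option autoImplicit false

open Filter Topology

namespace Pool.Agent.W2helper4.HJ

open Pool.Agent.Y119.HY

variable {m : ℕ} (β : Fin m → ℚ)

/-- the partial products of the sine function -/
noncomputable def ee (k : ℕ) (x : ℂ) : ℂ :=
  (Real.pi : ℂ) * x * ∏ j ∈ Finset.range k, (1 - x ^ 2 / ((j : ℂ) + 1) ^ 2)

lemma ee_succ (k : ℕ) (x : ℂ) : ee (k + 1) x = ee k x * (1 - x ^ 2 / ((k : ℂ) + 1) ^ 2) := by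
  unfold ee
  rw [Finset.prod_range_succ, ← mul_assoc]

lemma ee_lim (x : ℂ) : Tendsto (fun k => ee k x) atTop (𝓝 (Complex.sin ((Real.pi : ℂ) * x))) :=
  Complex.tendsto_euler_sin_prod x

lemma pg_id {x : ℂ} (hx : ‖x‖ ≤ 1 / 2) (k : ℕ) :
    pg β k x * pg β k (-x) * ee k x ^ (2 * m) * (Qe β ((k : ℂ) + x) * Qe β ((k : ℂ) - x)) =
      Qe β x * x ^ (2 * m) * ∏ j, (ee k (x - β j) * ee k (x + β j)) := by
  induction k with
  | zero =>
    have h1 : Qe β ((0 : ℕ) - x) = Qe β x := by rw [Nat.cast_zero, zero_sub, Qe_neg]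
    rw [h1, Nat.cast_zero, zero_add]
    have h2 : ∀ y : ℂ, ee 0 y = (Real.pi : ℂ) * y := fun y => by unfold ee; simp
    have h3 : ∀ y : ℂ, pg β 0 y = 1 := fun y => by unfold pg; simp
    simp only [h2, h3]
    have h4 : ∏ j, ((Real.pi : ℂ) * (x - β j) * ((Real.pi : ℂ) * (x + β j))) = (Real.pi : ℂ) ^ (2 * m) * Qe β x := by
      rw [Qe_eq, pow_mul]
      have : ((Real.pi : ℂ) ^ 2) ^ m = ∏ _j : Fin m, (Real.pi : ℂ) ^ 2 := by
        rw [Finset.prod_const, Finset.card_univ, Fintype.card_fin]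
      rw [this, ← Finset.prod_mul_distrib]
      exact Finset.prod_congr rfl fun j _ => by ring
    rw [h4, mul_pow]
    ring
  | succ k ih =>
    have h1 : (k : ℂ) + 1 + x ≠ 0 := ne_of_half hx k
    have h2 : (k : ℂ) + 1 + -x ≠ 0 := ne_of_half (by rwa [norm_neg]) k
    have h3 : (k : ℂ) + 1 ≠ 0 := by exact_mod_cast Nat.succ_ne_zero k
    have h4 : ∏ j, (ee (k + 1) (x - β j) * ee (k + 1) (x + β j)) =
        (∏ j, (ee k (x - β j) * ee k (x + β j))) *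
          (Qe β (((k : ℂ) + 1) + x) * Qe β (((k : ℂ) + 1) - x) * ((((k : ℂ) + 1)⁻¹) ^ 4) ^ m) := by
      have h5 : ((((k : ℂ) + 1)⁻¹) ^ 4) ^ m = ∏ _j : Fin m, (((k : ℂ) + 1)⁻¹) ^ 4 := by
        rw [Finset.prod_const, Finset.card_univ, Fintype.card_fin]
      rw [Qe_eq, Qe_eq, h5, ← Finset.prod_mul_distrib, ← Finset.prod_mul_distrib, ← Finset.prod_mul_distrib]
      refine Finset.prod_congr rfl fun j _ => ?_
      rw [ee_succ, ee_succ]
      field_simp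
      ring
    have h5 : ∀ y : ℂ, Qe β (((k + 1 : ℕ) : ℂ) + y) = Qe β (((k : ℂ) + 1) + y) := fun y => by push_cast; rfl
    have h6 : ∀ y : ℂ, Qe β (((k + 1 : ℕ) : ℂ) - y) = Qe β (((k : ℂ) + 1) - y) := fun y => by push_cast; rfl
    rw [h5, h6, h4, pg_succ, pg_succ, ee_succ]
    have h7 : ∀ y : ℂ, Qe β ((k : ℂ) + -y) = Qe β ((k : ℂ) - y) := fun y => by rw [sub_eq_add_neg]
    rw [h7]
    have h8 : (((k : ℂ) + 1 + x)⁻¹) ^ (2 * m) * (((k : ℂ) + 1 + -x)⁻¹) ^ (2 * m) *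
        (1 - x ^ 2 / ((k : ℂ) + 1) ^ 2) ^ (2 * m) = ((((k : ℂ) + 1)⁻¹) ^ 4) ^ m := by
      rw [← mul_pow, ← mul_pow, ← pow_mul, show 4 * m = 2 * (2 * m) by ring, pow_mul _ 2 (2 * m)]
      congr 1
      field_simp
      ring
    rw [mul_pow (ee k x)]
    generalize (((k : ℂ) + 1 + x)⁻¹) ^ (2 * m) = a1 at h8 ⊢
    generalize (((k : ℂ) + 1 + -x)⁻¹) ^ (2 * m) = a2 at h8 ⊢
    generalize (1 - x ^ 2 / ((k : ℂ) + 1) ^ 2) ^ (2 * m) = a3 at h8 ⊢
    generalize ((((k : ℂ) + 1)⁻¹) ^ 4) ^ m = a4 at h8 ⊢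
    generalize ee k x ^ (2 * m) = a5 at ih ⊢
    generalize x ^ (2 * m) = a6 at ih ⊢
    linear_combination (a1 * a2 * a3 * (Qe β ((k : ℂ) + 1 + x) * Qe β ((k : ℂ) + 1 - x))) * ih +
      (Qe β x * a6 * (∏ j, (ee k (x - β j) * ee k (x + β j))) *
        (Qe β ((k : ℂ) + 1 + x) * Qe β ((k : ℂ) + 1 - x))) * h8

lemma tends_one (c : ℂ) : Tendsto (fun k : ℕ => ((k : ℂ) + c) / (k : ℂ)) atTop (𝓝 1) := by
  have h1 : Tendsto (fun k : ℕ => (1 : ℂ) + c * (k : ℂ)⁻¹) atTop (𝓝 (1 + c * 0)) :=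
    tendsto_const_nhds.add (tendsto_const_nhds.mul tendsto_inv_atTop_nhds_zero_nat)
  rw [mul_zero, add_zero] at h1
  refine h1.congr' ?_
  filter_upwards [eventually_ge_atTop 1] with k hk
  have : (k : ℂ) ≠ 0 := by
    have : k ≠ 0 := by omega
    exact_mod_cast this
  field_simp

/-- **The functional equation of the limit.** -/
theorem g_id (hm : 1 ≤ m) {g : ℂ → ℂ} (hg : TendstoUniformlyOn (gg β) g atTop (Metric.closedBall 0 (1 / 2)))
    {x : ℂ} (hx : ‖x‖ ≤ 1 / 2) : g x * g (-x) * Complex.sin ((Real.pi : ℂ) * x) ^ (2 * m) =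
      Qe β x * x ^ (2 * m) * ∏ j, (Complex.sin ((Real.pi : ℂ) * (x - β j)) * Complex.sin ((Real.pi : ℂ) * (x + β j))) := by
  have hx1 : x ∈ Metric.closedBall (0 : ℂ) (1 / 2) := by rwa [Metric.mem_closedBall, dist_zero_right]
  have hx2 : -x ∈ Metric.closedBall (0 : ℂ) (1 / 2) := by rwa [Metric.mem_closedBall, dist_zero_right, norm_neg]
  have l1 := hg.tendsto_at hx1
  have l2 := hg.tendsto_at hx2
  have lQ : ∀ y : ℂ, Tendsto (fun k : ℕ => Qe β ((k : ℂ) + y) / (k : ℂ) ^ (2 * m)) atTop (𝓝 1) := by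
    intro y
    have h1 : Tendsto (fun k : ℕ => ∏ j, ((((k : ℂ) + (y - β j)) / (k : ℂ)) * (((k : ℂ) + (y + β j)) / (k : ℂ)))) atTop
        (𝓝 (∏ _j : Fin m, (1 * 1))) := tendsto_finsetProd _ fun j _ => (tends_one _).mul (tends_one _)
    rw [mul_one, Finset.prod_const_one] at h1
    refine h1.congr fun k => ?_
    rw [Qe_eq, pow_mul]
    have : ((k : ℂ) ^ 2) ^ m = ∏ _j : Fin m, (k : ℂ) ^ 2 := by
      rw [Finset.prod_const, Finset.card_univ, Fintype.card_fin]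
    rw [this, ← Finset.prod_div_distrib]
    refine Finset.prod_congr rfl fun j _ => ?_
    rw [div_mul_div_comm]
    congr 1
    · ring
    · ring
  have lW : Tendsto (fun k : ℕ => ((((k : ℂ) + x) / (k : ℂ)) * (((k : ℂ) + -x) / (k : ℂ))) ^ (2 * m - 1)) atTop (𝓝 1) := by
    have h1 := ((tends_one x).mul (tends_one (-x))).pow (2 * m - 1)
    rwa [mul_one, one_pow] at h1
  have h1 : Tendsto (fun k : ℕ => (gg β k x * gg β k (-x) * ee k x ^ (2 * m)) *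
      ((Qe β ((k : ℂ) + x) / (k : ℂ) ^ (2 * m)) * (Qe β ((k : ℂ) + -x) / (k : ℂ) ^ (2 * m)))) atTop
      (𝓝 ((g x * g (-x) * Complex.sin ((Real.pi : ℂ) * x) ^ (2 * m)) * (1 * 1))) :=
    ((l1.mul l2).mul ((ee_lim x).pow _)).mul ((lQ x).mul (lQ (-x)))
  have h2 : Tendsto (fun k : ℕ => (Qe β x * x ^ (2 * m) * ∏ j, (ee k (x - β j) * ee k (x + β j))) *
      ((((k : ℂ) + x) / (k : ℂ)) * (((k : ℂ) + -x) / (k : ℂ))) ^ (2 * m - 1)) atTop
      (𝓝 ((Qe β x * x ^ (2 * m) * ∏ j, (Complex.sin ((Real.pi : ℂ) * (x - β j)) *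
        Complex.sin ((Real.pi : ℂ) * (x + β j)))) * 1)) :=
    (tendsto_const_nhds.mul (tendsto_finsetProd _ fun j _ => (ee_lim _).mul (ee_lim _))).mul lW
  rw [mul_one, mul_one] at h1
  rw [mul_one] at h2
  refine tendsto_nhds_unique (h1.congr' ?_) h2
  filter_upwards [eventually_ge_atTop 1] with k hk
  have hk0 : (k : ℂ) ≠ 0 := by
    have : k ≠ 0 := by omega
    exact_mod_cast this
  have h3 := pg_id β hx k
  rw [← h3]
  unfold gg
  obtain ⟨N, hN⟩ : ∃ N, 2 * m = N + 1 := ⟨2 * m - 1, by omega⟩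
  rw [hN, Nat.add_sub_cancel, sub_eq_add_neg, mul_pow, div_pow, div_pow, pow_succ (k : ℂ) N]
  have hK : (k : ℂ) ^ N ≠ 0 := pow_ne_zero _ hk0
  generalize (k : ℂ) ^ N = K at hK ⊢
  generalize ((k : ℂ) + x) ^ N = W1
  generalize ((k : ℂ) + -x) ^ N = W2
  generalize ee k x ^ (N + 1) = W3
  field_simp

/-- the Taylor series of the limit -/
theorem g_ty (hm : 1 ≤ m) {g : ℂ → ℂ} (hg : TendstoUniformlyOn (gg β) g atTop (Metric.closedBall 0 (1 / 2))) :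
    Ty g * PowerSeries.rescale (-1) (Ty g) * Ty (fun x => Complex.sin ((Real.pi : ℂ) * x)) ^ (2 * m) =
      Polynomial.aeval (PowerSeries.X : PowerSeries ℂ) (QB β) * PowerSeries.X ^ (2 * m) *
        ∏ j, (Ty (fun x => Complex.sin ((Real.pi : ℂ) * x)) ^ 2 -
          PowerSeries.C (Complex.sin ((Real.pi : ℂ) * (β j : ℂ)) ^ 2)) := by
  have hball : Metric.ball (0 : ℂ) (1 / 2) ∈ 𝓝 (0 : ℂ) := Metric.ball_mem_nhds _ (by norm_num)
  have hloc : TendstoLocallyUniformlyOn (gg β) g atTop (Metric.ball 0 (1 / 2)) :=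
    (hg.mono Metric.ball_subset_closedBall).tendstoLocallyUniformlyOn
  have hga : AnalyticAt ℂ g 0 :=
    (hloc.differentiableOn (Eventually.of_forall (gg_diff β)) Metric.isOpen_ball).analyticAt hball
  have hgn : AnalyticAt ℂ (fun x => g (-x)) 0 := by
    have h1 : AnalyticAt ℂ (fun x : ℂ => -x) 0 := analyticAt_id.neg
    exact AnalyticAt.comp' (by simpa using hga) h1
  have hs : AnalyticAt ℂ (fun x : ℂ => Complex.sin ((Real.pi : ℂ) * x)) 0 := by fun_prop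
  have hQ := Ty_aeval (P := QB β) (f := fun x => x) analyticAt_id
  rw [Ty_id] at hQ
  have hP : ∀ j, AnalyticAt ℂ (fun x : ℂ => Complex.sin ((Real.pi : ℂ) * x) ^ 2 -
      Complex.sin ((Real.pi : ℂ) * (β j : ℂ)) ^ 2) 0 := fun j => (hs.fun_pow 2).fun_sub analyticAt_const
  have e1 : Ty (fun x => g x * g (-x) * Complex.sin ((Real.pi : ℂ) * x) ^ (2 * m)) =
      Ty g * PowerSeries.rescale (-1) (Ty g) * Ty (fun x => Complex.sin ((Real.pi : ℂ) * x)) ^ (2 * m) := by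
    rw [Ty_mul (hga.fun_mul hgn) (hs.fun_pow _), Ty_mul hga hgn, Ty_neg, Ty_pow hs]
  have e2 : Ty (fun x => Polynomial.aeval x (QB β) * x ^ (2 * m) *
      ∏ j, (Complex.sin ((Real.pi : ℂ) * x) ^ 2 - Complex.sin ((Real.pi : ℂ) * (β j : ℂ)) ^ 2)) =
      Polynomial.aeval (PowerSeries.X : PowerSeries ℂ) (QB β) * PowerSeries.X ^ (2 * m) *
        ∏ j, (Ty (fun x => Complex.sin ((Real.pi : ℂ) * x)) ^ 2 -
          PowerSeries.C (Complex.sin ((Real.pi : ℂ) * (β j : ℂ)) ^ 2)) := by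
    have hid : AnalyticAt ℂ (fun x : ℂ => x) 0 := analyticAt_id
    rw [Ty_mul (hQ.1.fun_mul (hid.fun_pow _)) (Finset.analyticAt_fun_prod _ fun j _ => hP j),
      Ty_mul hQ.1 (hid.fun_pow _), hQ.2, Ty_pow hid, Ty_id, Ty_prod _ fun j _ => hP j]
    congr 1
    refine Finset.prod_congr rfl fun j _ => ?_
    rw [Ty_sub (hs.fun_pow 2) analyticAt_const, Ty_pow hs, Ty_const]
  rw [← e1, ← e2]
  apply Ty_congr
  filter_upwards [hball] with x hx
  rw [Metric.mem_ball, dist_zero_right] at hx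
  rw [g_id β hm hg hx.le]
  congr 1
  refine Finset.prod_congr rfl fun j _ => ?_
  rw [mul_sub, mul_add, Complex.sin_sub, Complex.sin_add]
  have h1 := Complex.sin_sq_add_cos_sq ((Real.pi : ℂ) * x)
  have h2 := Complex.sin_sq_add_cos_sq ((Real.pi : ℂ) * (β j : ℂ))
  set s := Complex.sin ((Real.pi : ℂ) * x)
  set c := Complex.cos ((Real.pi : ℂ) * x)
  set s' := Complex.sin ((Real.pi : ℂ) * (β j : ℂ))
  set c' := Complex.cos ((Real.pi : ℂ) * (β j : ℂ))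
  have h3 : c ^ 2 = 1 - s ^ 2 := by linear_combination h1
  have h4 : c' ^ 2 = 1 - s' ^ 2 := by linear_combination h2
  calc (s * c' - c * s') * (s * c' + c * s') = s ^ 2 * c' ^ 2 - c ^ 2 * s' ^ 2 := by ring
    _ = _ := by rw [h3, h4]; ring

/-- the Taylor coefficients of the approximations -/
theorem gg_ty (k j : ℕ) : PowerSeries.coeff j (Ty (gg β k)) = (k : ℂ) * ((hq (2 * m) (QB β) k (2 * m - 1) j : ℚ) : ℂ) := by
  set φ : PowerSeries ℚ →+* PowerSeries ℂ := PowerSeries.map (algebraMap ℚ ℂ) with hφ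
  have hl : ∀ l : ℕ, AnalyticAt ℂ (fun x : ℂ => (l : ℂ) + x) 0 := fun l => analyticAt_const.fun_add analyticAt_id
  have hl1 : ∀ l : ℕ, AnalyticAt ℂ (fun x : ℂ => (l : ℂ) + 1 + x) 0 := fun l => analyticAt_const.fun_add analyticAt_id
  have h0 : ∀ l : ℕ, (l : ℂ) + 1 + 0 ≠ 0 := fun l => by
    rw [add_zero]; exact_mod_cast Nat.succ_ne_zero l
  have hinv : ∀ l : ℕ, AnalyticAt ℂ (fun x : ℂ => ((l : ℂ) + 1 + x)⁻¹) 0 := fun l => (hl1 l).fun_inv (h0 l)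
  have hid : AnalyticAt ℂ (fun x : ℂ => x) 0 := analyticAt_id
  have tkx : ∀ l : ℕ, Ty (fun x : ℂ => (l : ℂ) + x) = φ (kx l) := by
    intro l
    rw [Ty_add analyticAt_const hid, Ty_const, Ty_id]
    unfold kx
    rw [hφ, map_add, PowerSeries.map_C, PowerSeries.map_X, map_natCast (algebraMap ℚ ℂ)]
  have tinv : ∀ l : ℕ, Ty (fun x : ℂ => ((l : ℂ) + 1 + x)⁻¹) = φ ((kx (l + 1))⁻¹) := by
    intro l
    have h1 := Ty_inv (hl1 l) (h0 l)
    have h2 : Ty (fun x : ℂ => (l : ℂ) + 1 + x) = φ (kx (l + 1)) := by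
      rw [← tkx]
      congr 1
      funext x
      push_cast
      ring
    have h3 : φ (kx (l + 1)) * φ ((kx (l + 1))⁻¹) = 1 := by rw [← map_mul, kx_succ_mul_inv, map_one]
    rw [h2] at h1
    calc Ty (fun x : ℂ => ((l : ℂ) + 1 + x)⁻¹) = (φ (kx (l + 1)) * φ ((kx (l + 1))⁻¹)) * Ty (fun x : ℂ => ((l : ℂ) + 1 + x)⁻¹) := by
          rw [h3, one_mul]
      _ = φ ((kx (l + 1))⁻¹) * (φ (kx (l + 1)) * Ty (fun x : ℂ => ((l : ℂ) + 1 + x)⁻¹)) := by ring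
      _ = _ := by rw [h1, mul_one]
  have tQ : ∀ l : ℕ, AnalyticAt ℂ (fun x => Qe β ((l : ℂ) + x)) 0 ∧
      Ty (fun x => Qe β ((l : ℂ) + x)) = φ (Polynomial.aeval (kx l) (QB β)) := by
    intro l
    have h1 := Ty_aeval (P := QB β) (hl l)
    refine ⟨h1.1, h1.2.trans ?_⟩
    rw [tkx, Polynomial.aeval_def, Polynomial.aeval_def, Polynomial.hom_eval₂]
    congr 1
  have tpg : AnalyticAt ℂ (pg β k) 0 ∧ Ty (pg β k) = φ (aq (2 * m) (QB β) k) := by
    have h1 : ∀ l ∈ Finset.range k, AnalyticAt ℂ (fun x => Qe β ((l : ℂ) + x) * (((l : ℂ) + 1 + x)⁻¹) ^ (2 * m)) 0 :=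
      fun l _ => (tQ l).1.fun_mul ((hinv l).fun_pow _)
    refine ⟨Finset.analyticAt_fun_prod _ h1, ?_⟩
    have h2 : Ty (pg β k) = ∏ l ∈ Finset.range k, Ty (fun x => Qe β ((l : ℂ) + x) * (((l : ℂ) + 1 + x)⁻¹) ^ (2 * m)) :=
      Ty_prod _ h1
    rw [h2]
    unfold aq
    rw [map_prod]
    refine Finset.prod_congr rfl fun l _ => ?_
    rw [Ty_mul (tQ l).1 ((hinv l).fun_pow _), (tQ l).2, Ty_pow (hinv l), tinv, map_mul, map_pow]
  have h3 : Ty (gg β k) = PowerSeries.C (k : ℂ) * φ (kx k ^ (2 * m - 1) * aq (2 * m) (QB β) k) := by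
    have h4 : Ty (gg β k) = Ty (fun x => ((k : ℂ) * ((k : ℂ) + x) ^ (2 * m - 1)) * pg β k x) := rfl
    rw [h4, Ty_mul (analyticAt_const.fun_mul ((hl k).fun_pow _)) tpg.1, Ty_mul analyticAt_const ((hl k).fun_pow _),
      Ty_pow (hl k), tkx, tpg.2, Ty_const, map_mul, map_pow]
    ring
  rw [h3, PowerSeries.coeff_C_mul, hφ, PowerSeries.coeff_map]
  rfl

/-- the coefficients have limits, described by the functional equation -/
theorem hq_lim (hm : 1 ≤ m) : ∃ G : PowerSeries ℂ,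
    (∀ j, Tendsto (fun k : ℕ => (k : ℂ) * ((hq (2 * m) (QB β) k (2 * m - 1) j : ℚ) : ℂ)) atTop
      (𝓝 (PowerSeries.coeff j G))) ∧
    G * PowerSeries.rescale (-1) G * Ty (fun x => Complex.sin ((Real.pi : ℂ) * x)) ^ (2 * m) =
      Polynomial.aeval (PowerSeries.X : PowerSeries ℂ) (QB β) * PowerSeries.X ^ (2 * m) *
        ∏ j, (Ty (fun x => Complex.sin ((Real.pi : ℂ) * x)) ^ 2 -
          PowerSeries.C (Complex.sin ((Real.pi : ℂ) * (β j : ℂ)) ^ 2)) := by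
  obtain ⟨g, hg⟩ := gg_lim β hm
  refine ⟨Ty g, fun j => ?_, g_ty β hm hg⟩
  simp only [← gg_ty]
  exact Ty_tendsto Metric.isOpen_ball (Metric.mem_ball_self (by norm_num))
    (hg.mono Metric.ball_subset_closedBall).tendstoLocallyUniformlyOn (gg_diff β) j

end Pool.Agent.W2helper4.HJ
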