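import Pool.Agent.W2helper4.HJ.Fib

/-!
# Torsors of periods of sums of hypergeometric motives in the same fibre

Let `β_1, …, β_m` be rational numbers which are not integers, `n = 2 m` and `θ = z d/dz`. The hypergeometric operator
`θ^n - z ∏_j (θ - β_j) (θ + β_j)` has maximally unipotent monodromy at `z = 0`. For `m = 1` its solutions are periods of
families of abelian varieties with real multiplication (of elliptic curves for denominators `2, 3, 4, 6`), for `m = 2` and
`β = (1/5, 2/5)` the operator is contiguous to the operator of the mirror quintic. The period matrix of the fibre at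
`z = 1 / t` is `(Y_β(t) Ω)ᵀ` (rows: Betti side, columns: de Rham side), where `Y_β(t)` is the matrix of the `(θ^a f_b)(1 / t)`,
`f_b` the Frobenius basis, and `Ω` is an invertible matrix of constants (the periods of the limit motive). We consider
every invertible complex matrix `Ω`, and write `M_(β,t)` for the de Rham-Betti object with this period matrix.

We consider several parameters `t_1, …, t_q`, and **for every parameter `t_l` several families**
`β_(l,1), …, β_(l,k_l)`, of any ranks `2 m_(l,i)`, with matrices `Ω_(l,i)`, such that for every `l` the `β_(l,i)` are pairwise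
inequivalent: `β` and `β'` are equivalent if they agree up to a permutation, signs and integers (equivalent families
have isomorphic local systems). Let `K` be a number field and `M_0` any de Rham-Betti object over `K`, for example the
realisation of any (pure or mixed) motive over `K`, with period matrix `C₀` (any invertible complex matrix). Let `K(t)`
be the Kummer motive of `t`, with the period matrix `((1, log t), (0, 2πi))`, and
`M = M_0 ⊕ ℚ(-1) ⊕ ⨁_l (K(t_l) ⊕ ⨁_i M_(β_(l,i),t_l))`.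
Then for almost all `t = (t_1, …, t_q)` (all but `C N^(q-1) ∑_l (1 + N / (x_l + N)^c)` of the `N^q` points of every box
`∏ (x_l, x_l + N]`, where `c > 0` and `C` depend only on the `β_(l,i)`, the degree of `K` and the rank of `M_0`):

1. Every `K`-subtorsor of `Iso(M_dR, M_B)` which contains the period matrix is stable under `∏_l (G_a × ∏_i Sp(P_(l,i)))`,
where `P_(l,i) = Ω_(l,i)ᵀ J_(l,i) Ω_(l,i)` is the form of `M_(β_(l,i),t_l)` on the Betti side.

2. If `P_(l,i) = (2πi)^(w_(l,i)) B_(l,i)` with matrices `B_(l,i)` over `K` (this is the case if the `M_(β_(l,i),t_l)` are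
realisations of motives with polarisations with values in `ℚ(-w_(l,i))`), then every `K`-subtorsor which contains the
period matrix and respects the decomposition, the extensions and the polarisations is the fibre product of its
projection `T_0` to `M_0 ⊕ ℚ(-1)`, which is a `K`-subtorsor, with the torsor of all `(u_l), (X_(l,i))`: it consists of all
`x_0 ⊕ μ ⊕ ⨁_l ((1, u_l; 0, μ) ⊕ ⨁_i X_(l,i))` with `x_0 ⊕ μ ∈ T_0` and `X_(l,i) J_(l,i) X_(l,i)ᵀ = μ^(w_(l,i)) B_(l,i)`.

3. The smallest `K`-subtorsor which contains the period matrix is such a fibre product, with `T_0` the smallest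
`K`-subtorsor which contains the period matrix of `M_0 ⊕ ℚ(-1)`; and for `M_0 = 0` the latter is the multiplicative group.

Consequences. For `M_0 = 0` the smallest `K`-subtorsor `Ω_M` is as large as the decomposition, the weights and the
polarisations permit. So if the summands are realisations of motives then `Ω_M = Ω^dRB_M = Ω^And_M`. In particular,
for almost all `t` the only homomorphisms of de Rham-Betti objects between the `M_(β_i,t)` for pairwise inequivalent
`β_i`, their duals and Tate twists are the obvious ones, and the same is true for all tensor constructions.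

The starting file `MP_cbf1af_ag/HypergeometricTorsors` has one family for every parameter; there the theorem on tuples of
independent points is used to see that the blocks are independent. Here the blocks in the same fibre are independent
because the joint monodromy group is the product of the symplectic groups (`Pool/Agent/W2helper4/HJ`, `joint_invar`): the
logarithm of the monodromy at `0` and the transvection at `1` generate the Lie algebra of the product as soon as the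
sequences `(J v_i, A^k v_i)` for the vanishing cycles `v_i` are not proportional. The vanishing cycle is determined by the
asymptotics of the coefficients of the solutions, and by Euler's product for the sine the generating series of the
sequence is `∏_j (1 + z sin²(πβ_j)) / …`, so that it determines the numbers `sin²(πβ_j)`. Then the theory of G-functions is
applied to the sum of the systems (`HJ/Gen`, `HJ/Gen2`), and a criterion for perfect groups (`Y123/GN`, `abs_main`) and a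
derivation of `ℂ` over `K` give the statement on subtorsors.
-/

set_option autoImplicit false

open PowerSeries Matrix

namespace W2helper4.HJ.OneFibre

/-- `T` is (the set of complex points of) a `K`-subtorsor of `GL_B = Iso (M_dR, M_B)`: it is closed under `x y⁻¹ z`, and
it is defined in `GL_B` by polynomials with coefficients in `K`. -/
def IsSubtorsor (K : Subfield ℂ) {B : Type} [Fintype B] [DecidableEq B] (T : Set (Matrix B B ℂ)) : Prop :=
  (∀ x ∈ T, ∀ y ∈ T, ∀ z ∈ T, x * y⁻¹ * z ∈ T) ∧ ∃ I : Set (MvPolynomial (B × B) K), ∀ x : Matrix B B ℂ, x ∈ T ↔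
    IsUnit x ∧ ∀ p ∈ I, MvPolynomial.eval (fun b => x b.1 b.2) (MvPolynomial.map (algebraMap K ℂ) p) = 0

/-- `Ω` is the smallest `K`-subtorsor which contains the period matrix `c` -/
def IsOmega (K : Subfield ℂ) {B : Type} [Fintype B] [DecidableEq B] (c : Matrix B B ℂ) (Ω : Set (Matrix B B ℂ)) : Prop :=
  IsSubtorsor K Ω ∧ c ∈ Ω ∧ ∀ T : Set (Matrix B B ℂ), IsSubtorsor K T → c ∈ T → Ω ⊆ T

/-- the power series `k + ε` in the variable `ε` -/
noncomputable def shift (k : ℕ) : PowerSeries ℚ := C (k : ℚ) + X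

/-- `a_k(ε) = ∏_{l < k} ∏_j ((l + ε)^2 - β_j^2) / (l + 1 + ε)^(2m)`. The series `∑_k a_k(ε) z^(k + ε)` solves the
equation `(θ^n - z ∏_j (θ^2 - β_j^2)) f = ε^n z^ε`, hence its coefficients `f_j` at `ε^j` with `j < n = 2m` are
solutions of the homogeneous equation. -/
noncomputable def frob {m : ℕ} (β : Fin m → ℚ) (k : ℕ) : PowerSeries ℚ :=
  ∏ l ∈ Finset.range k, ((∏ j, (shift l ^ 2 - C (β j ^ 2))) * ((shift (l + 1))⁻¹) ^ (2 * m))

/-- The matrix with the entries `(θ^i f_j)(1 / t)`, where `f_j(z)` is the coefficient of `ε^j` in the series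
`∑_k a_k(ε) z^(k + ε)`, `z^ε = ∑_l (log z)^l ε^l / l!`. -/
noncomputable def Y {m : ℕ} (β : Fin m → ℚ) (t : ℕ) : Matrix (Fin (2 * m)) (Fin (2 * m)) ℂ :=
  Matrix.of fun i j => ∑ l ∈ Finset.range ((j : ℕ) + 1), ((Real.log (1 / t) ^ l / l.factorial : ℝ) : ℂ) *
    ∑' k : ℕ, ((coeff ((j : ℕ) - l) (shift k ^ (i : ℕ) * frob β k) : ℚ) : ℂ) * (1 / (t : ℂ)) ^ k

/-- the polynomial `∏_j (x^2 - β_j^2)` -/
noncomputable def poly {m : ℕ} (β : Fin m → ℚ) : Polynomial ℚ := ∏ j, (Polynomial.X ^ 2 - Polynomial.C (β j ^ 2))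

/-- The matrix of the intersection form: the entry `(i, j)` is `(-1)^i q_{i+j+1-n}` for `i + j + 1 ≥ n` and `0`
otherwise, where `q_l` are the coefficients of `∏_j (x^2 - β_j^2)`. -/
noncomputable def J {m : ℕ} (β : Fin m → ℚ) : Matrix (Fin (2 * m)) (Fin (2 * m)) ℂ :=
  Matrix.of fun i j => if 2 * m ≤ (i : ℕ) + j + 1 then (((-1) ^ (i : ℕ) * (poly β).coeff (i + j + 1 - 2 * m) : ℚ) : ℂ) else 0

/-- `β` and `β'` agree up to a permutation, signs and integers -/
def Equivalent {m m' : ℕ} (β : Fin m → ℚ) (β' : Fin m' → ℚ) : Prop :=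
  ∃ e : Fin m ≃ Fin m', ∀ j, ∃ a : ℤ, β j = a + β' (e j) ∨ β j = a - β' (e j)

/-- the number `2πi` -/
noncomputable def twoPiI : ℂ := 2 * Real.pi * Complex.I

/-- the block matrix `x ⊕ μ`; for a period matrix `x` of `M_0` and `μ = 2πi` the period matrix of `M_0 ⊕ ℚ(-1)` -/
def withTate {r : ℕ} (x : Matrix (Fin r) (Fin r) ℂ) (μ : ℂ) : Matrix (Fin r ⊕ Unit) (Fin r ⊕ Unit) ℂ :=
  Matrix.fromBlocks x 0 0 (Matrix.of fun _ _ => μ)

/-- the block diagonal matrix with the blocks `X_i` -/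
def blocks {k : ℕ} {n : Fin k → ℕ} (X : ∀ i, Matrix (Fin (n i)) (Fin (n i)) ℂ) :
    Matrix (Fin (∑ i, n i)) (Fin (∑ i, n i)) ℂ :=
  (Matrix.blockDiagonal' X).submatrix finSigmaFinEquiv.symm finSigmaFinEquiv.symm

/-- the index set of the bases of `M_0 ⊕ ℚ(-1) ⊕ ⨁_l (K(t_l) ⊕ ⨁_i M_(l,i))` -/
abbrev Index (r : ℕ) {q : ℕ} {k : Fin q → ℕ} (m : ∀ l, Fin (k l) → ℕ) : Type :=
  (Fin r ⊕ Unit) ⊕ (Σ l : Fin q, Fin 2 ⊕ Fin (∑ i, 2 * m l i))

section
variable {r q : ℕ} {k : Fin q → ℕ} {m : ∀ l, Fin (k l) → ℕ}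

/-- the block matrix `x ⊕ μ ⊕ ⨁_l ((1, u_l; 0, μ) ⊕ ⨁_i X_(l,i))` -/
noncomputable def total (x : Matrix (Fin r) (Fin r) ℂ) (μ : ℂ) (u : Fin q → ℂ)
    (X : ∀ l i, Matrix (Fin (2 * m l i)) (Fin (2 * m l i)) ℂ) : Matrix (Index r m) (Index r m) ℂ :=
  Matrix.fromBlocks (withTate x μ) 0 0
    (Matrix.blockDiagonal' fun l => Matrix.fromBlocks !![1, u l; 0, μ] 0 0 (blocks (X l)))

/-- the period matrix of `M_0 ⊕ ℚ(-1) ⊕ ⨁_l (K(t_l) ⊕ ⨁_i M_(l,i))`, where `M_(l,i)` belongs to `β_(l,i)` and `t_l` -/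
noncomputable def periodMatrix (C₀ : Matrix (Fin r) (Fin r) ℂ) (β : ∀ l i, Fin (m l i) → ℚ)
    (Ω : ∀ l i, Matrix (Fin (2 * m l i)) (Fin (2 * m l i)) ℂ) (t : Fin q → ℕ) : Matrix (Index r m) (Index r m) ℂ :=
  total C₀ twoPiI (fun l => ((Real.log (t l) : ℝ) : ℂ)) fun l i => (Y (β l i) (t l) * Ω l i)ᵀ

/-- the forms on the Betti side -/
noncomputable def pairing (β : ∀ l i, Fin (m l i) → ℚ) (Ω : ∀ l i, Matrix (Fin (2 * m l i)) (Fin (2 * m l i)) ℂ)
    (l : Fin q) (i : Fin (k l)) : Matrix (Fin (2 * m l i)) (Fin (2 * m l i)) ℂ := (Ω l i)ᵀ * J (β l i) * Ω l i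

/-- 1: all `K`-subtorsors which contain the period matrix are stable under the group of all
`1 ⊕ ⨁_l ((1, a_l; 0, 1) ⊕ ⨁_i g_(l,i))` such that the `g_(l,i)` are isometries of the forms on the Betti side -/
def Stable (K : Subfield ℂ) (C₀ : Matrix (Fin r) (Fin r) ℂ) (β : ∀ l i, Fin (m l i) → ℚ)
    (Ω : ∀ l i, Matrix (Fin (2 * m l i)) (Fin (2 * m l i)) ℂ) (t : Fin q → ℕ) : Prop :=
  ∀ T : Set (Matrix (Index r m) (Index r m) ℂ), IsSubtorsor K T → periodMatrix C₀ β Ω t ∈ T →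
    ∀ (a : Fin q → ℂ) (g : ∀ l i, Matrix (Fin (2 * m l i)) (Fin (2 * m l i)) ℂ),
      (∀ l i, g l i * pairing β Ω l i * (g l i)ᵀ = pairing β Ω l i) → ∀ x ∈ T, total 1 1 a g * x ∈ T

/-- `(X_(l,i))` respects the polarisations, with multiplier `μ` -/
def Respects (β : ∀ l i, Fin (m l i) → ℚ) (w : ∀ l, Fin (k l) → ℕ)
    (B X : ∀ l i, Matrix (Fin (2 * m l i)) (Fin (2 * m l i)) ℂ) (μ : ℂ) : Prop :=
  ∀ l i, X l i * J (β l i) * (X l i)ᵀ = μ ^ w l i • B l i

/-- the matrices which respect the decomposition, the Kummer extensions and the polarisations -/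
def respecting (r : ℕ) (β : ∀ l i, Fin (m l i) → ℚ) (w : ∀ l, Fin (k l) → ℕ)
    (B : ∀ l i, Matrix (Fin (2 * m l i)) (Fin (2 * m l i)) ℂ) : Set (Matrix (Index r m) (Index r m) ℂ) :=
  {y | ∃ (x : Matrix (Fin r) (Fin r) ℂ) (μ : ℂ) (u : Fin q → ℂ) (X : ∀ l i, Matrix (Fin (2 * m l i)) (Fin (2 * m l i)) ℂ),
    Respects β w B X μ ∧ y = total x μ u X}

/-- the fibre product: the matrices `x ⊕ μ ⊕ ⨁_l ((1, u_l; 0, μ) ⊕ ⨁_i X_(l,i))` such that `x ⊕ μ` is in `T₀` and
`(X_(l,i))` respects the polarisations with the multiplier `μ` -/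
def fibreProduct (β : ∀ l i, Fin (m l i) → ℚ) (w : ∀ l, Fin (k l) → ℕ)
    (B : ∀ l i, Matrix (Fin (2 * m l i)) (Fin (2 * m l i)) ℂ) (T₀ : Set (Matrix (Fin r ⊕ Unit) (Fin r ⊕ Unit) ℂ)) :
    Set (Matrix (Index r m) (Index r m) ℂ) :=
  {y | ∃ (x : Matrix (Fin r) (Fin r) ℂ) (μ : ℂ) (u : Fin q → ℂ) (X : ∀ l i, Matrix (Fin (2 * m l i)) (Fin (2 * m l i)) ℂ),
    withTate x μ ∈ T₀ ∧ Respects β w B X μ ∧ y = total x μ u X}

/-- the projection to `M_0 ⊕ ℚ(-1)` -/
def proj (T : Set (Matrix (Index r m) (Index r m) ℂ)) : Set (Matrix (Fin r ⊕ Unit) (Fin r ⊕ Unit) ℂ) :=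
  {v | ∃ (x : Matrix (Fin r) (Fin r) ℂ) (μ : ℂ) (u : Fin q → ℂ) (X : ∀ l i, Matrix (Fin (2 * m l i)) (Fin (2 * m l i)) ℂ),
    v = withTate x μ ∧ total x μ u X ∈ T}

/-- 2 and 3: if the forms on the Betti side are `(2πi)^(w_(l,i))` times matrices over `K`, then all `K`-subtorsors which
contain the period matrix and respect the decomposition, the extensions and the polarisations are fibre products, and
the smallest `K`-subtorsor is the fibre product with the smallest `K`-subtorsor for `M_0 ⊕ ℚ(-1)`, which for `M_0 = 0` is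
the whole multiplicative group -/
def FibreProducts (K : Subfield ℂ) (C₀ : Matrix (Fin r) (Fin r) ℂ) (β : ∀ l i, Fin (m l i) → ℚ)
    (Ω : ∀ l i, Matrix (Fin (2 * m l i)) (Fin (2 * m l i)) ℂ) (t : Fin q → ℕ) : Prop :=
  ∀ (w : ∀ l, Fin (k l) → ℕ) (B : ∀ l i, Matrix (Fin (2 * m l i)) (Fin (2 * m l i)) ℂ), (∀ l i a b, B l i a b ∈ K) →
    (∀ l i, pairing β Ω l i = twoPiI ^ w l i • B l i) →
    (∀ T : Set (Matrix (Index r m) (Index r m) ℂ), IsSubtorsor K T → periodMatrix C₀ β Ω t ∈ T →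
      T ⊆ respecting r β w B → IsSubtorsor K (proj T) ∧ T = fibreProduct β w B (proj T)) ∧
    ∃ Ω₀, IsOmega K (withTate C₀ twoPiI) Ω₀ ∧ (r = 0 → Ω₀ = {x | IsUnit x}) ∧
      IsOmega K (periodMatrix C₀ β Ω t) (fibreProduct β w B Ω₀)

end

theorem frob_eq {m : ℕ} (β : Fin m → ℚ) (k : ℕ) : frob β k = Pool.Agent.Y119.HY.aq (2 * m) (Pool.Agent.Y119.HY.QB β) k := by
  unfold frob Pool.Agent.Y119.HY.aq
  refine Finset.prod_congr rfl fun l _ => ?_
  congr 1
  unfold Pool.Agent.Y119.HY.QB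
  rw [map_prod]
  refine Finset.prod_congr rfl fun j _ => ?_
  simp only [map_sub, map_pow, Polynomial.aeval_X, Polynomial.aeval_C]
  rfl

theorem J_eq {m : ℕ} (β : Fin m → ℚ) : J β = Pool.Agent.W2helper4.HJ.JJ β := by
  ext i j
  unfold Pool.Agent.W2helper4.HJ.JJ
  rw [Pool.Agent.Y119.HY.cm_apply]
  unfold J Pool.Agent.Y119.HY.Jm
  rw [Matrix.of_apply, Matrix.of_apply]
  split_ifs
  · rfl
  · simp

theorem Y_eq {m : ℕ} (β : Fin m → ℚ) (t : ℕ) :
    Y β t = Pool.Agent.Y119.HZ.Yt (2 * m) (Pool.Agent.Y119.HY.QB β) t := by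
  ext i j
  unfold Y Pool.Agent.Y119.HZ.Yt
  rw [Matrix.of_apply, Matrix.mul_apply]
  have hE : ∀ c : Fin (2 * m), Pool.Agent.Y119.HY.E (Pool.Agent.Y119.HY.cm (Pool.Agent.Y119.HY.Am (2 * m)))
      (-((Real.log t : ℝ) : ℂ)) c j = ∑ l ∈ Finset.range (2 * m),
        if (j : ℕ) = c + l then ((Real.log (1 / t) ^ l / l.factorial : ℝ) : ℂ) else 0 := by
    intro c
    unfold Pool.Agent.Y119.HY.E
    rw [Matrix.sum_apply]
    refine Finset.sum_congr rfl fun l _ => ?_
    rw [Matrix.smul_apply, ← Pool.Agent.Y119.HY.cm_pow, Pool.Agent.Y119.HY.cm_apply, Pool.Agent.Y119.HY.Am_pow, smul_eq_mul,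
      one_div, Real.log_inv]
    split_ifs
    · push_cast
      ring
    · simp
  simp only [hE, Finset.mul_sum]
  rw [Finset.sum_comm]
  have hsub : Finset.range ((j : ℕ) + 1) ⊆ Finset.range (2 * m) := by
    intro l hl
    rw [Finset.mem_range] at hl ⊢
    have := j.2
    omega
  refine Finset.sum_subset_zero_on_sdiff hsub (fun l hl => ?_) fun l hl => ?_
  · rw [Finset.mem_sdiff, Finset.mem_range, Finset.mem_range] at hl
    refine Finset.sum_eq_zero fun c _ => ?_
    rw [if_neg (by omega), mul_zero]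
  · rw [Finset.mem_range] at hl
    have hj := j.2
    rw [Finset.sum_eq_single (⟨(j : ℕ) - l, by omega⟩ : Fin (2 * m))]
    · rw [if_pos (by simp only; omega), mul_comm]
      congr 1
      unfold Pool.Agent.Y119.HY.Hf Pool.Agent.Y119.HY.ps
      rw [Matrix.of_apply]
      refine tsum_congr fun k => ?_
      show _ = ((Pool.Agent.Y119.HY.hq (2 * m) (Pool.Agent.Y119.HY.QB β) k i ((j : ℕ) - l) : ℚ) : ℂ) *
        (((1 / (t : ℝ) : ℝ)) : ℂ) ^ k
      rw [frob_eq]
      unfold Pool.Agent.Y119.HY.hq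
      push_cast
      rfl
    · intro c _ hc
      rw [if_neg, mul_zero]
      intro h
      apply hc
      apply Fin.ext
      simp only
      omega
    · intro h
      exact absurd (Finset.mem_univ _) h

theorem withTate_unit {r : ℕ} {x : Matrix (Fin r) (Fin r) ℂ} (hx : IsUnit x) {μ : ℂ} (hμ : μ ≠ 0) :
    IsUnit (withTate x μ) := by
  rw [Matrix.isUnit_iff_isUnit_det] at hx ⊢
  have h1 : (Matrix.of fun _ _ => μ : Matrix Unit Unit ℂ).det = μ := by
    rw [Matrix.det_unique]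
    rfl
  unfold withTate
  rw [Matrix.det_fromBlocks_zero₂₁, h1]
  exact hx.mul (isUnit_iff_ne_zero.2 hμ)

theorem withTate_one {r : ℕ} : withTate (1 : Matrix (Fin r) (Fin r) ℂ) 1 = 1 := by
  unfold withTate
  have h1 : (Matrix.of fun _ _ => (1 : ℂ) : Matrix Unit Unit ℂ) = 1 := by
    ext i j
    simp
  rw [h1, fromBlocks_one]

theorem cm_withTate {r : ℕ} (x : Matrix (Fin r) (Fin r) ℂ) (μ : ℂ) :
    Pool.Agent.Y123.SR.Cm (Sum.inr ()) (withTate x μ) := by
  rintro (k | ⟨⟩) hk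
  · exact ⟨rfl, rfl⟩
  · exact absurd rfl hk

theorem eq_withTate {r : ℕ} {x : Matrix (Fin r ⊕ Unit) (Fin r ⊕ Unit) ℂ}
    (h2 : Pool.Agent.Y123.SR.Cm (Sum.inr ()) x) :
    x = withTate (Matrix.of fun i j => x (Sum.inl i) (Sum.inl j)) (x (Sum.inr ()) (Sum.inr ())) := by
  ext i j
  rcases i with i | ⟨⟩
  · rcases j with j | ⟨⟩
    · rfl
    · exact (h2 (Sum.inl i) (by simp)).2
  · rcases j with j | ⟨⟩
    · exact (h2 (Sum.inl j) (by simp)).1
    · rfl

section
variable {r q : ℕ} {k : Fin q → ℕ} {m : ∀ l, Fin (k l) → ℕ} {β : ∀ l i, Fin (m l i) → ℚ} {w : ∀ l, Fin (k l) → ℕ}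
  {B : ∀ l i, Matrix (Fin (2 * m l i)) (Fin (2 * m l i)) ℂ}

/-- the forms on the de Rham side -/
noncomputable abbrev JJ (β : ∀ l i, Fin (m l i) → ℚ) (l : Fin q) (i : Fin (k l)) :
    Matrix (Fin (Pool.Agent.W2helper4.HJ.n2 m l i)) (Fin (Pool.Agent.W2helper4.HJ.n2 m l i)) ℂ :=
  Pool.Agent.W2helper4.HJ.JJ (β l i)

theorem fibreProduct_eq (Ω₀ : Set (Matrix (Fin r ⊕ Unit) (Fin r ⊕ Unit) ℂ)) :
    Pool.Agent.W2helper4.HJ.FPB (nn := Pool.Agent.W2helper4.HJ.n2 m) (JJ β) B w (Sum.inr ()) Ω₀ =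
      fibreProduct β w B Ω₀ := by
  ext y
  constructor
  · rintro ⟨x, u, X, h1, h2, h3, rfl⟩
    have h4 := eq_withTate h2
    refine ⟨Matrix.of fun i j => x (Sum.inl i) (Sum.inl j), x (Sum.inr ()) (Sum.inr ()), u, X, ?_, fun l i => ?_, ?_⟩
    · rw [← h4]
      exact h1
    · rw [J_eq]
      exact h3 l i
    · unfold Pool.Agent.Y123.GN.EM total
      rw [← h4]
      rfl
  · rintro ⟨x, μ, u, X, h1, h2, rfl⟩
    refine ⟨withTate x μ, u, X, h1, cm_withTate x μ, fun l i => ?_, rfl⟩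
    have h3 := h2 l i
    rw [J_eq] at h3
    exact h3

theorem respecting_sub {T : Set (Matrix (Index r m) (Index r m) ℂ)} (hT : ∀ x ∈ T, IsUnit x)
    (h : T ⊆ respecting r β w B) :
    T ⊆ Pool.Agent.W2helper4.HJ.FPB (nn := Pool.Agent.W2helper4.HJ.n2 m) (JJ β) B w (Sum.inr ()) {x | IsUnit x} := by
  rw [fibreProduct_eq]
  intro y hy
  obtain ⟨x, μ, u, X, h1, rfl⟩ := h hy
  exact ⟨x, μ, u, X, (Pool.Agent.Y123.GN.unit_of_EM
    (n := Pool.Agent.W2helper4.HJ.sz (Pool.Agent.W2helper4.HJ.n2 m)) (hT _ hy)).1, h1, rfl⟩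

theorem proj_eq {T : Set (Matrix (Index r m) (Index r m) ℂ)} (h : T ⊆ respecting r β w B) :
    Pool.Agent.Y123.GN.PJ (n := Pool.Agent.W2helper4.HJ.sz (Pool.Agent.W2helper4.HJ.n2 m)) T = proj T := by
  ext v
  constructor
  · rintro ⟨κ, X, hX⟩
    obtain ⟨x, μ, u, X', h1, h2⟩ := h hX
    obtain ⟨h3, -, -⟩ := Pool.Agent.Y123.GN.EM_inj (n := Pool.Agent.W2helper4.HJ.sz (Pool.Agent.W2helper4.HJ.n2 m))
      (show Pool.Agent.Y123.GN.EM v κ X = Pool.Agent.Y123.GN.EM (withTate x μ)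
        (fun i => Pool.Agent.Y123.GN.kum (u i) μ) (fun l => Pool.Agent.W2helper4.HJ.bd (X' l)) from h2)
    refine ⟨x, μ, u, X', h3, ?_⟩
    rw [← h2]
    exact hX
  · rintro ⟨x, μ, u, X, rfl, h1⟩
    exact ⟨_, _, h1⟩

end

/-- the smallest subtorsor of `ℚ(-1)` -/
theorem omega_tate {K : Subfield ℂ} (hK : ∀ x ∈ K, IsAlgebraic ℚ x) {C₀ : Matrix (Fin 0) (Fin 0) ℂ}
    {Ω₀ : Set (Matrix (Fin 0 ⊕ Unit) (Fin 0 ⊕ Unit) ℂ)} (h : IsOmega K (withTate C₀ twoPiI) Ω₀) :
    Ω₀ = {x | IsUnit x} := by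
  have hind : AlgebraicIndependent K (fun _ : (Fin 0 ⊕ Unit) × (Fin 0 ⊕ Unit) => twoPiI) := by
    have : Unique ((Fin 0 ⊕ Unit) × (Fin 0 ⊕ Unit)) :=
      { default := (Sum.inr (), Sum.inr ())
        uniq := by
          rintro ⟨a | ⟨⟩, b | ⟨⟩⟩
          · exact a.elim0
          · exact a.elim0
          · exact b.elim0
          · rfl }
    exact (algebraicIndependent_unique_type_iff).2 (Pool.Agent.Y123.GN.tpi_tr hK)
  obtain ⟨⟨-, I, hI⟩, h2, -⟩ := h
  have hI0 : ∀ p ∈ I, p = 0 := by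
    intro p hp
    have h3 := ((hI _).1 h2).2 p hp
    have h4 : (fun b : (Fin 0 ⊕ Unit) × (Fin 0 ⊕ Unit) => withTate C₀ twoPiI b.1 b.2) = fun _ => twoPiI := by
      funext b
      obtain ⟨a | ⟨⟩, b | ⟨⟩⟩ := b
      · exact a.elim0
      · exact a.elim0
      · exact b.elim0
      · rfl
    rw [h4, MvPolynomial.eval_map] at h3
    refine hind ?_
    show MvPolynomial.aeval (fun _ => twoPiI) p = MvPolynomial.aeval (fun _ => twoPiI) 0
    rw [map_zero]
    exact h3
  ext x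
  rw [hI]
  refine ⟨fun h => h.1, fun h => ⟨h, fun p hp => ?_⟩⟩
  rw [hI0 p hp, map_zero, map_zero]

/-- Let `β_(l,i)`, `1 ≤ l ≤ q`, `1 ≤ i ≤ k_l`, be finite non-empty families of rational numbers which are not integers,
pairwise inequivalent for the same `l`, and let `J_(l,i)` and `Y_(l,i)` be the alternating forms and the period matrices
of the hypergeometric equations `(θ^(2 m) - z ∏_j (θ^2 - β_(l,i,j)^2)) f = 0`, `m = m_(l,i)`. For all `D` and `r` there are
`c > 0` and `C` such that for every number field `K ⊂ ℂ` of degree `≤ D`, every invertible `r × r` matrix `C₀`, all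
invertible complex matrices `Ω_(l,i)` and every box `∏_l (x_l, x_l + N]` with `x_l ≥ 1` the following holds for all but
`C N^(q-1) ∑_l (1 + N / (x_l + N)^c)` integral points `t` of the box: all `K`-subtorsors which contain the period matrix of
`M_0 ⊕ ℚ(-1) ⊕ ⨁_l (K(t_l) ⊕ ⨁_i M_(l,i,t_l))` are stable under the product of the groups
`G_a × ∏_i Sp(Ω_(l,i)ᵀ J_(l,i) Ω_(l,i))`; and if `Ω_(l,i)ᵀ J_(l,i) Ω_(l,i) = (2πi)^(w_(l,i)) B_(l,i)` with matrices
`B_(l,i)` over `K`, then the subtorsors which respect the decomposition, the extensions and the polarisations are fibre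
products, and the smallest subtorsor is the fibre product with the smallest subtorsor for `M_0 ⊕ ℚ(-1)`. -/
theorem result (q : ℕ) (k : Fin q → ℕ) (m : ∀ l, Fin (k l) → ℕ) (hm : ∀ l i, 1 ≤ m l i)
    (β : ∀ l i, Fin (m l i) → ℚ) (hβ : ∀ l i j, ∀ a : ℤ, β l i j ≠ a)
    (hne : ∀ l i i', i ≠ i' → ¬ Equivalent (β l i) (β l i')) (D r : ℕ) :
    ∃ c C : ℝ, 0 < c ∧ ∀ K : Subfield ℂ, FiniteDimensional ℚ K → Module.finrank ℚ K ≤ D →
      ∀ C₀ : Matrix (Fin r) (Fin r) ℂ, IsUnit C₀ →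
      ∀ Ω : (∀ l i, Matrix (Fin (2 * m l i)) (Fin (2 * m l i)) ℂ), (∀ l i, IsUnit (Ω l i)) →
      ∀ (x : Fin q → ℕ) (N : ℕ), (∀ l, 1 ≤ x l) → 1 ≤ N →
      (({t : Fin q → ℕ | (∀ l, x l < t l ∧ t l ≤ x l + N) ∧
        ¬ (Stable K C₀ β Ω t ∧ FibreProducts K C₀ β Ω t)}.ncard : ℕ) : ℝ) ≤
        C * (N : ℝ) ^ (q - 1) * ∑ l, (1 + N / ((x l : ℝ) + N) ^ c) := by
  classical
  obtain ⟨c, C, hc, -, hmain⟩ := Pool.Agent.W2helper4.HJ.fam_stab q D (r + 1) k m hm β hβ hne
  refine ⟨c, C, hc, ?_⟩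
  intro K hKf hKD C₀ hC₀ Ω hΩ x N hx hN
  have hKalg : ∀ x ∈ K, IsAlgebraic ℚ x := by
    intro x hx
    have : NumberField K := { to_charZero := inferInstance, to_finiteDimensional := hKf }
    have h6 : IsAlgebraic ℚ (⟨x, hx⟩ : K) := Algebra.IsAlgebraic.isAlgebraic _
    exact h6.algebraMap (A := ℂ)
  set S := {t : Fin q → ℕ | (∀ l, x l < t l ∧ t l ≤ x l + N) ∧ ¬ (Stable K C₀ β Ω t ∧ FibreProducts K C₀ β Ω t)} with hS
  have hfin : S.Finite := by
    refine (Set.finite_Iic (fun l : Fin q => x l + N)).subset ?_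
    intro t ht l
    exact (ht.1 l).2
  rw [Set.ncard_eq_toFinset_card S hfin]
  have h2pi : twoPiI ≠ 0 := Pool.Agent.Y123.GN.tpi_ne
  have hu := withTate_unit hC₀ h2pi
  have hcm := cm_withTate C₀ twoPiI
  refine hmain K hKf hKD (Fin r ⊕ Unit) (withTate C₀ twoPiI) (by simp) hu Ω hΩ x N hx hN _ fun t ht => ?_
  have ht' : t ∈ S := hfin.mem_toFinset.1 ht
  obtain ⟨hbox, hnot⟩ := ht'
  refine ⟨hbox, fun hsta => hnot ?_⟩
  have ht2 : ∀ l, 2 ≤ t l := fun l => by
    have := (hbox l).1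
    have := hx l
    omega
  have hY : (fun l i => (Y (β l i) (t l) * Ω l i)ᵀ) = Pool.Agent.W2helper4.HJ.cB β Ω t := by
    funext l i
    unfold Pool.Agent.W2helper4.HJ.cB
    rw [Y_eq]
  have hper : periodMatrix C₀ β Ω t = Pool.Agent.W2helper4.HJ.totB (withTate C₀ twoPiI) β Ω t := by
    unfold periodMatrix
    rw [hY]
    rfl
  have hpair : ∀ l i, pairing β Ω l i = Pool.Agent.W2helper4.HJ.PB β Ω l i := by
    intro l i
    unfold pairing Pool.Agent.W2helper4.HJ.PB
    rw [J_eq]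
  refine ⟨?_, ?_⟩
  · intro T hT hcT a g hg y hy
    have h1 := hsta T (Pool.Agent.Y123.ST.subT_iff.1 hT) (by rw [← hper]; exact hcT) a g (fun l i => by
      rw [← hpair]
      exact hg l i) y hy
    have h2 : total (r := r) (m := m) 1 1 a g = Pool.Agent.Y123.GN.EM
        (n := Pool.Agent.W2helper4.HJ.sz (Pool.Agent.W2helper4.HJ.n2 m)) 1
        (fun l => Pool.Agent.Y123.GN.uu (a l)) (fun l => Pool.Agent.W2helper4.HJ.bd (g l)) := by
      unfold total
      rw [withTate_one]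
      rfl
    rw [h2]
    exact h1
  · intro w B hBK hP
    have hPB : ∀ l i, Pool.Agent.W2helper4.HJ.PB β Ω l i = Pool.Agent.Y123.GN.tpi ^ w l i • B l i := by
      intro l i
      rw [← hpair]
      exact hP l i
    have hBd : ∀ l i, (B l i).det ≠ 0 := by
      intro l i h0
      apply Pool.Agent.W2helper4.HJ.PB_det hm hβ hΩ l i
      rw [hPB, det_smul, h0, mul_zero]
    have hJK : ∀ l i a b, JJ β l i a b ∈ K := by
      intro l i a b
      show Pool.Agent.Y119.HY.cm (Pool.Agent.Y119.HY.Jm (2 * m l i) (Pool.Agent.Y119.HY.QB (β l i))) a b ∈ K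
      rw [Pool.Agent.Y119.HY.cm_apply]
      exact SubfieldClass.ratCast_mem K _
    have key : ∀ T : Set (Matrix (Index r m) (Index r m) ℂ), Pool.Agent.TH127.PT.IsSubtorsor K T →
        periodMatrix C₀ β Ω t ∈ T →
        T ⊆ Pool.Agent.W2helper4.HJ.FPB (nn := Pool.Agent.W2helper4.HJ.n2 m) (JJ β) B w (Sum.inr ()) {x | IsUnit x} →
        Pool.Agent.TH127.PT.IsSubtorsor K
          (Pool.Agent.Y123.GN.PJ (n := Pool.Agent.W2helper4.HJ.sz (Pool.Agent.W2helper4.HJ.n2 m)) T) ∧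
          T = Pool.Agent.W2helper4.HJ.FPB (nn := Pool.Agent.W2helper4.HJ.n2 m) (JJ β) B w (Sum.inr ())
            (Pool.Agent.Y123.GN.PJ T) := by
      intro T hT hcT hTF
      exact Pool.Agent.W2helper4.HJ.all_of_staB hm hβ ht2 hsta hPB hBd hT (by rw [← hper]; exact hcT) hTF
    refine ⟨?_, ?_⟩
    · intro T hT hcT hTr
      have hT'' := Pool.Agent.Y123.ST.subT_iff.1 hT
      obtain ⟨h5, h6⟩ := key T hT'' hcT (respecting_sub hT''.isUnit hTr)
      rw [proj_eq hTr] at h5 h6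
      rw [fibreProduct_eq] at h6
      exact ⟨Pool.Agent.Y123.ST.subT_iff.2 h5, h6⟩
    · have hΩ₀ := Pool.Agent.Y123.SR.OmS_om (K := K) hu
      refine ⟨_, hΩ₀, ?_, ?_⟩
      · rintro rfl
        exact omega_tate hKalg hΩ₀
      · have h5 := Pool.Agent.W2helper4.HJ.pj_omB (nn := Pool.Agent.W2helper4.HJ.n2 m) (b₀ := Sum.inr ()) (w := w)
          (J := JJ β) (Bm := B)
          (ℓ := fun l => ((Real.log (t l) : ℝ) : ℂ)) (c := Pool.Agent.W2helper4.HJ.cB β Ω t) hBd hJK hBK hu hcm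
          (fun l i => by
          have h6 := Pool.Agent.W2helper4.HJ.cB_form hm hβ Ω ht2 l i
          rw [hPB] at h6
          exact h6) (fun T hT hcT hTF => by
          have h6 := key T hT (by rw [hper]; exact hcT) hTF
          exact ⟨h6.2, h6.1⟩) hΩ₀
        rw [fibreProduct_eq] at h5
        rw [hper]
        exact h5

end W2helper4.HJ.OneFibre
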