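import Pool.Agent.Y123.GN.C6
import Pool.Agent.W2helper4.HJ.Inst

/-!
# Sums of a fixed object, Kummer motives and several hypergeometric motives for every parameter: stability
-/

set_option autoImplicit false
set_option linter.unusedSectionVars false

open Matrix

namespace Pool.Agent.W2helper4.HJ

open Pool.Agent.TH127.PT Pool.Agent.Y123.ST Pool.Agent.Y123.GN Pool.Agent.Y123.SR Pool.Agent.Y113.GG
open Pool.Agent.Y119.HZ (Jx pw Yt Yt_form QD_QB)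
open Pool.Agent.Y119.HY (QD QB Jm cm Jc_skew Jc_det)

section one
variable {r : ℕ} {n : Fin r → ℕ}

/-- one block -/
noncomputable def bs (i : Fin r) : Matrix (Fin (n i)) (Fin (n i)) ℂ →ₗ[ℂ]
    Matrix (Fin (∑ i, n i)) (Fin (∑ i, n i)) ℂ where
  toFun X := bd (Pi.single i X)
  map_add' X Y := by
    rw [Pi.single_add]
    exact bd_add _ _
  map_smul' s X := by
    rw [Pi.single_smul, RingHom.id_apply]
    exact bd_smul _ _

theorem bs_apply (i : Fin r) (X : Matrix (Fin (n i)) (Fin (n i)) ℂ) : bs i X = bd (Pi.single i X) := rfl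

theorem bs_mul (i : Fin r) (X Y : Matrix (Fin (n i)) (Fin (n i)) ℂ) : bs i X * bs i Y = bs i (X * Y) := by
  rw [bs_apply, bs_apply, bs_apply, ← bd_mul]
  congr 1
  funext j
  by_cases h : j = i
  · subst h
    rw [Pi.single_eq_same, Pi.single_eq_same, Pi.single_eq_same]
  · rw [Pi.single_eq_of_ne h, Pi.single_eq_of_ne h, Pi.single_eq_of_ne h, Matrix.zero_mul]

theorem bs_nil {i : Fin r} {X : Matrix (Fin (n i)) (Fin (n i)) ℂ} (h : X * X = 0) : IsNilpotent (bs i X) :=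
  ⟨2, by rw [pow_two, bs_mul, h, map_zero]⟩

theorem bs_exp {i : Fin r} {X : Matrix (Fin (n i)) (Fin (n i)) ℂ} (h : X * X = 0) (t : ℂ) :
    IsNilpotent.exp (t • bs i X) = bd (Pi.mulSingle i (1 + t • X)) := by
  have h1 : (t • bs i X) ^ 2 = 0 := by
    rw [pow_two, smul_mul_smul_comm, bs_mul, h, map_zero, smul_zero]
  rw [IsNilpotent.exp_eq_sum h1]
  have h2 : ∑ j ∈ Finset.range 2, (j.factorial : ℚ)⁻¹ • (t • bs i X) ^ j = 1 + t • bs i X := by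
    simp [Finset.sum_range_succ]
  rw [h2, bs_apply, ← bd_smul, ← bd_one, ← bd_add]
  congr 1
  funext j
  by_cases hj : j = i
  · subst hj
    rw [Pi.single_eq_same, Pi.mulSingle_eq_same]
  · rw [Pi.single_eq_of_ne hj, Pi.mulSingle_eq_of_ne hj, smul_zero, add_zero]

end one

section
variable {B₀ : Type} [Fintype B₀] [DecidableEq B₀] {q : ℕ} {kk : Fin q → ℕ} {nn : ∀ l, Fin (kk l) → ℕ} {K : Subfield ℂ}

/-- the sizes -/
abbrev sz {q : ℕ} {kk : Fin q → ℕ} (nn : ∀ l, Fin (kk l) → ℕ) (l : Fin q) : ℕ := ∑ i, nn l i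

variable {T : Set (Matrix (IM B₀ (sz nn)) (IM B₀ (sz nn)) ℂ)}

/-- the group -/
noncomputable def gm (g : ∀ l i, Matrix (Fin (nn l i)) (Fin (nn l i)) ℂ) : Matrix (IM B₀ (sz nn)) (IM B₀ (sz nn)) ℂ :=
  EM 1 1 (fun l => bd (g l))

theorem gm_one : gm (B₀ := B₀) (1 : ∀ l i, Matrix (Fin (nn l i)) (Fin (nn l i)) ℂ) = 1 := by
  unfold gm
  rw [← EM_one]
  congr 1
  funext l
  exact bd_one (R := ℂ)

theorem gm_mul (g h : ∀ l i, Matrix (Fin (nn l i)) (Fin (nn l i)) ℂ) :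
    gm (B₀ := B₀) (g * h) = gm g * gm h := by
  unfold gm
  rw [EM_mul, Matrix.one_mul]
  have h1 : (1 : Fin q → Matrix (Fin 2) (Fin 2) ℂ) = fun i => (1 : Fin q → Matrix (Fin 2) (Fin 2) ℂ) i *
      (1 : Fin q → Matrix (Fin 2) (Fin 2) ℂ) i := (one_mul (1 : Fin q → Matrix (Fin 2) (Fin 2) ℂ)).symm
  have h2 : (fun l => bd ((g * h) l)) = fun l => bd (g l) * bd (h l) := funext fun l => bd_mul (g l) (h l)
  rw [h2]
  exact congrArg (fun κ => EM 1 κ _) h1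

theorem gm_single {l : Fin q} {i : Fin (kk l)} {X : Matrix (Fin (nn l i)) (Fin (nn l i)) ℂ} (h : X * X = 0) (t : ℂ) :
    gm (B₀ := B₀) (Pi.mulSingle l (Pi.mulSingle i (1 + t • X))) = IsNilpotent.exp (t • Ms B₀ (n := sz nn) l (bs i X)) := by
  rw [Ms_apply, M_exp_single (bs_nil h), bs_exp h]
  unfold gm
  congr 1
  funext l'
  by_cases hl : l' = l
  · subst hl
    rw [Pi.mulSingle_eq_same, su_same]
  · rw [Pi.mulSingle_eq_of_ne hl, su_ne hl]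
    exact bd_one

/-- stability under the symplectic groups -/
theorem sp_stabB (hT : IsSubtorsor K T) {P : ∀ l i, Matrix (Fin (nn l i)) (Fin (nn l i)) ℂ}
    (hP : ∀ l i, (P l i)ᵀ = -P l i) (hdet : ∀ l i, (P l i).det ≠ 0)
    (h : ∀ l i v, fl (Ms B₀ (n := sz nn) l (bs i (nv (P l i)⁻¹ v))) ∈ LL T)
    {g : ∀ l i, Matrix (Fin (nn l i)) (Fin (nn l i)) ℂ} (hg : ∀ l i, g l i * P l i * (g l i)ᵀ = P l i)
    {x : Matrix (IM B₀ (sz nn)) (IM B₀ (sz nn)) ℂ} (hx : x ∈ T) : gm g * x ∈ T := by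
  classical
  let S : Submonoid (∀ l i, Matrix (Fin (nn l i)) (Fin (nn l i)) ℂ) :=
    { carrier := {g | ∀ x ∈ T, gm g * x ∈ T}
      one_mem' := by
        intro x hx
        rw [gm_one, Matrix.one_mul]
        exact hx
      mul_mem' := by
        intro a b ha hb x hx
        rw [gm_mul, Matrix.mul_assoc]
        exact ha _ (hb x hx) }
  have h1 : g ∈ S := by
    refine Submonoid.pi_mem_of_mulSingle_mem g fun l => ?_
    have h2 : g l ∈ S.comap (MonoidHom.mulSingle (fun l => ∀ i, Matrix (Fin (nn l i)) (Fin (nn l i)) ℂ) l) := by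
      refine Submonoid.pi_mem_of_mulSingle_mem (g l) fun i => ?_
      have h3 : g l i ∈ (S.comap (MonoidHom.mulSingle (fun l => ∀ i, Matrix (Fin (nn l i)) (Fin (nn l i)) ℂ) l)).comap
          (MonoidHom.mulSingle (fun i => Matrix (Fin (nn l i)) (Fin (nn l i)) ℂ) i) := by
        refine sp_gen' (inv_skew (hP l i) (hdet l i)) (inv_det (hdet l i)) _ ?_ (g l i) (iso_flip' (hdet l i) (hg l i))
        intro v s x hx
        have h4 : nv (P l i)⁻¹ v * nv (P l i)⁻¹ v = 0 := nv_sq (inv_skew (hP l i) (hdet l i)) v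
        have h5 : gm (Pi.mulSingle l (Pi.mulSingle i (IsNilpotent.exp (s • nv (P l i)⁻¹ v)))) * x ∈ T := by
          rw [nv_exp (inv_skew (hP l i) (hdet l i)), gm_single h4]
          exact exp_mem hT (M_single_nil (bs_nil h4)) (h l i v) hx s
        exact h5
      exact h3
    exact h2
  exact h1 x hx

end

/-- **Stability.** -/
theorem stabB (m : ℕ) : ∃ d : ℕ, ∀ (B₀ : Type) [Fintype B₀] [DecidableEq B₀] (q : ℕ) (kk : Fin q → ℕ)
    (nn : ∀ l, Fin (kk l) → ℕ), Fintype.card (IM B₀ (sz nn)) ≤ m → ∀ (K : Subfield ℂ), (K : Set ℂ).Countable →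
    ∀ (T : Set (Matrix (IM B₀ (sz nn)) (IM B₀ (sz nn)) ℂ)) (c₀ : Matrix B₀ B₀ ℂ) (ℓ : Fin q → ℂ) (τ : ℂ)
      (c : ∀ l, Matrix (Fin (sz nn l)) (Fin (sz nn l)) ℂ) (P : ∀ l i, Matrix (Fin (nn l i)) (Fin (nn l i)) ℂ),
    IsSubtorsor K T → IsUnit c₀ → Transcendental K τ →
    (∀ l, IsUnit (c l)) → (∀ l i, (P l i)ᵀ = -P l i) → (∀ l i, (P l i).det ≠ 0) → EM c₀ (fun l => kum (ℓ l) τ) c ∈ T →
    (∀ (a : Fin q → ℂ) (g : ∀ l i, Matrix (Fin (nn l i)) (Fin (nn l i)) ℂ), (∀ l i, g l i * P l i * (g l i)ᵀ = P l i) →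
      Rl K d (EM c₀ (fun l => kum (ℓ l) τ) c) (EM c₀ (fun l => kum (ℓ l + a l * τ) τ) fun l => bd (g l) * c l)) →
    ∀ (a : Fin q → ℂ) (g : ∀ l i, Matrix (Fin (nn l i)) (Fin (nn l i)) ℂ), (∀ l i, g l i * P l i * (g l i)ᵀ = P l i) →
      ∀ x ∈ T, EM 1 (fun l => uu (a l)) (fun l => bd (g l)) * x ∈ T := by
  classical
  obtain ⟨d₀, hd₀⟩ := abs_main m
  refine ⟨max d₀ (1 + m), ?_⟩
  intro B₀ _ _ q kk nn hm K hK T c₀ ℓ τ c P hT hc₀ hτ hc hP hdet hcT hR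
  have hkn : ∀ l, fl (kn B₀ (sz nn) l) ∈ LL T := by
    refine kn_mem hT hc₀ hτ hc hcT fun a => ?_
    have h1 := hR a (fun l i => 1) (fun l i => by rw [transpose_one, Matrix.one_mul, Matrix.mul_one])
    have h2 : EM (1 : Matrix B₀ B₀ ℂ) (fun i => uu (a i)) 1 * EM c₀ (fun i => kum (ℓ i) τ) c =
        EM c₀ (fun i => kum (ℓ i + a i * τ) τ) fun l => bd (fun i => (1 : Matrix (Fin (nn l i)) (Fin (nn l i)) ℂ)) * c l := by
      rw [EM_mul, Matrix.one_mul]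
      congr 1
      · funext i
        exact uu_kum _ _ _
      · funext l
        rw [bd_one]
        rfl
    rw [h2]
    exact h1.mono (by omega)
  have hsp : ∀ l i v, fl (Ms B₀ (n := sz nn) l (bs i (nv (P l i)⁻¹ v))) ∈ LL T := by
    have h1 := hd₀ (IM B₀ (sz nn)) hm K hK T _ hT hcT {N | ∃ l i v, N = Ms B₀ (n := sz nn) l (bs i (nv (P l i)⁻¹ v))} (by
        rintro _ ⟨l, i, v, rfl⟩
        exact M_single_nil (bs_nil (nv_sq (inv_skew (hP l i) (hdet l i)) v))) (by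
        rintro _ ⟨l, i, v, rfl⟩ t
        have h4 : nv (P l i)⁻¹ v * nv (P l i)⁻¹ v = 0 := nv_sq (inv_skew (hP l i) (hdet l i)) v
        rw [← gm_single h4]
        unfold gm
        rw [EM_mul, Matrix.one_mul]
        have h2 := hR 0 (Pi.mulSingle l (Pi.mulSingle i (1 + t • nv (P l i)⁻¹ v))) (by
          intro l' i'
          by_cases h : l' = l
          · subst h
            rw [Pi.mulSingle_eq_same]
            by_cases h' : i' = i
            · subst h'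
              rw [Pi.mulSingle_eq_same, ← nv_exp (inv_skew (hP l' i') (hdet l' i'))]
              exact iso_flip (hdet l' i') (nv_isom (inv_skew (hP l' i') (hdet l' i')) v t)
            · rw [Pi.mulSingle_eq_of_ne h', transpose_one, Matrix.one_mul, Matrix.mul_one]
          · rw [Pi.mulSingle_eq_of_ne h, Pi.one_apply, transpose_one, Matrix.one_mul, Matrix.mul_one])
        have h3 : (fun i : Fin q => (1 : Fin q → Matrix (Fin 2) (Fin 2) ℂ) i * kum (ℓ i) τ) =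
            fun i => kum (ℓ i + (0 : Fin q → ℂ) i * τ) τ := by
          funext j
          rw [Pi.one_apply, Matrix.one_mul, Pi.zero_apply, zero_mul, add_zero]
        rw [h3]
        exact h2.mono (le_max_left _ _)) (by
        rintro _ ⟨l, i, v, rfl⟩
        have h2 := nv_perf (inv_skew (hP l i) (hdet l i)) (inv_det (hdet l i)) v
        have h3 := Submodule.mem_map_of_mem (f := (Ms B₀ (n := sz nn) l).comp (bs (n := nn l) i)) h2
        rw [Submodule.map_span] at h3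
        refine Submodule.span_mono ?_ h3
        rintro _ ⟨_, ⟨u, w, rfl⟩, rfl⟩
        refine ⟨_, ⟨l, i, u, rfl⟩, _, ⟨l, i, w, rfl⟩, ?_⟩
        rw [LinearMap.comp_apply, map_sub, map_sub, Ms_mul, Ms_mul, bs_mul, bs_mul])
    intro l i v
    exact h1 _ ⟨l, i, v, rfl⟩
  intro a g hg x hx
  have h1 : EM (1 : Matrix B₀ B₀ ℂ) (fun i => uu (a i)) (fun l => bd (g l)) =
      EM 1 (fun i => uu (a i)) 1 * gm g := by
    unfold gm
    rw [EM_mul, Matrix.one_mul]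
    congr 1
    · funext j
      exact (Matrix.mul_one _).symm
    · funext j
      exact (Matrix.one_mul _).symm
  rw [h1, Matrix.mul_assoc]
  exact ug_stab hT hkn a (sp_stabB hT hP hdet hsp hg hx)

/-! ### families of hypergeometric motives -/

section
variable {B₀ : Type} [Fintype B₀] [DecidableEq B₀] {q : ℕ} {kk : Fin q → ℕ} {m : ∀ l, Fin (kk l) → ℕ}

/-- the sizes of the blocks -/
abbrev n2 {q : ℕ} {kk : Fin q → ℕ} (m : ∀ l, Fin (kk l) → ℕ) (l : Fin q) (i : Fin (kk l)) : ℕ := 2 * m l i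

/-- the period matrices of the fibres -/
noncomputable def cB (β : ∀ l i, Fin (m l i) → ℚ) (Ω : ∀ l i, Matrix (Fin (n2 m l i)) (Fin (n2 m l i)) ℂ)
    (t : Fin q → ℕ) (l : Fin q) (i : Fin (kk l)) : Matrix (Fin (n2 m l i)) (Fin (n2 m l i)) ℂ :=
  (Yt (2 * m l i) (QB (β l i)) (t l) * Ω l i)ᵀ

/-- the form on the Betti side -/
noncomputable def PB (β : ∀ l i, Fin (m l i) → ℚ) (Ω : ∀ l i, Matrix (Fin (n2 m l i)) (Fin (n2 m l i)) ℂ)
    (l : Fin q) (i : Fin (kk l)) : Matrix (Fin (n2 m l i)) (Fin (n2 m l i)) ℂ := (Ω l i)ᵀ * JJ (β l i) * Ω l i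

/-- the period matrix of the sum -/
noncomputable def totB (c₀ : Matrix B₀ B₀ ℂ) (β : ∀ l i, Fin (m l i) → ℚ)
    (Ω : ∀ l i, Matrix (Fin (n2 m l i)) (Fin (n2 m l i)) ℂ) (t : Fin q → ℕ) :
    Matrix (IM B₀ (sz (n2 m))) (IM B₀ (sz (n2 m))) ℂ :=
  EM c₀ (fun l => kum ((Real.log (t l) : ℝ) : ℂ) tpi) fun l => bd (cB β Ω t l)

/-- the subtorsors are stable -/
def StaB (K : Subfield ℂ) (c₀ : Matrix B₀ B₀ ℂ) (β : ∀ l i, Fin (m l i) → ℚ)
    (Ω : ∀ l i, Matrix (Fin (n2 m l i)) (Fin (n2 m l i)) ℂ) (t : Fin q → ℕ) : Prop :=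
  ∀ T : Set (Matrix (IM B₀ (sz (n2 m))) (IM B₀ (sz (n2 m))) ℂ), IsSubtorsor K T → totB c₀ β Ω t ∈ T →
    ∀ (a : Fin q → ℂ) (g : ∀ l i, Matrix (Fin (n2 m l i)) (Fin (n2 m l i)) ℂ),
      (∀ l i, g l i * PB β Ω l i * (g l i)ᵀ = PB β Ω l i) →
      ∀ x ∈ T, EM 1 (fun l => uu (a l)) (fun l => bd (g l)) * x ∈ T

end

section forms
variable {q : ℕ} {kk : Fin q → ℕ} {m : ∀ l, Fin (kk l) → ℕ} {β : ∀ l i, Fin (m l i) → ℚ}
  (hm : ∀ l i, 1 ≤ m l i) (hβ : ∀ l i j, ∀ a : ℤ, β l i j ≠ a)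
include hm hβ

theorem cB_form (Ω : ∀ l i, Matrix (Fin (n2 m l i)) (Fin (n2 m l i)) ℂ)
    {t : Fin q → ℕ} (ht : ∀ l, 2 ≤ t l) (l : Fin q) (i : Fin (kk l)) :
    cB β Ω t l i * JJ (β l i) * (cB β Ω t l i)ᵀ = PB β Ω l i := by
  have hQ := QD_QB (hm l i) (not_int (hβ l i))
  have h1 : (Yt (2 * m l i) (QB (β l i)) (t l))ᵀ * JJ (β l i) * Yt (2 * m l i) (QB (β l i)) (t l) = JJ (β l i) :=
    Yt_form hQ (ht l)
  unfold cB PB
  rw [transpose_transpose, transpose_mul]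
  calc (Ω l i)ᵀ * (Yt (2 * m l i) (QB (β l i)) (t l))ᵀ * JJ (β l i) * (Yt (2 * m l i) (QB (β l i)) (t l) * Ω l i) =
      (Ω l i)ᵀ * ((Yt (2 * m l i) (QB (β l i)) (t l))ᵀ * JJ (β l i) * Yt (2 * m l i) (QB (β l i)) (t l)) * Ω l i := by
        simp only [Matrix.mul_assoc]
    _ = _ := by rw [h1]

theorem PB_skew (Ω : ∀ l i, Matrix (Fin (n2 m l i)) (Fin (n2 m l i)) ℂ) (l : Fin q) (i : Fin (kk l)) :
    (PB β Ω l i)ᵀ = -PB β Ω l i := by
  have hQ := QD_QB (hm l i) (not_int (hβ l i))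
  have h1 : (JJ (β l i))ᵀ = -JJ (β l i) := Jc_skew hQ
  unfold PB
  rw [transpose_mul, transpose_mul, transpose_transpose, h1, Matrix.neg_mul, Matrix.mul_neg, Matrix.mul_assoc]

theorem PB_det {Ω : ∀ l i, Matrix (Fin (n2 m l i)) (Fin (n2 m l i)) ℂ} (hΩ : ∀ l i, IsUnit (Ω l i))
    (l : Fin q) (i : Fin (kk l)) : (PB β Ω l i).det ≠ 0 := by
  have hQ := QD_QB (hm l i) (not_int (hβ l i))
  unfold PB
  have h1 : (Ω l i).det ≠ 0 := ((Matrix.isUnit_iff_isUnit_det _).1 (hΩ l i)).ne_zero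
  rw [det_mul, det_mul, det_transpose]
  exact mul_ne_zero (mul_ne_zero h1 (Jc_det hQ)) h1

theorem cB_unit {Ω : ∀ l i, Matrix (Fin (n2 m l i)) (Fin (n2 m l i)) ℂ} (hΩ : ∀ l i, IsUnit (Ω l i))
    {t : Fin q → ℕ} (ht : ∀ l, 2 ≤ t l) (l : Fin q) (i : Fin (kk l)) : IsUnit (cB β Ω t l i) :=
  unit_of_form (s := 1) one_ne_zero (PB_det hm hβ hΩ l i) (by rw [one_smul]; exact cB_form hm hβ Ω ht l i)

end forms

theorem bd_unit {r : ℕ} {n : Fin r → ℕ} {X : ∀ i, Matrix (Fin (n i)) (Fin (n i)) ℂ} (h : ∀ i, IsUnit (X i)) :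
    IsUnit (bd X) := by
  refine IsUnit.of_mul_eq_one (bd fun i => (X i)⁻¹) ?_
  rw [← bd_mul]
  have h1 : (fun i => X i * (X i)⁻¹) = fun i => (1 : Matrix (Fin (n i)) (Fin (n i)) ℂ) := by
    funext i
    exact mul_nonsing_inv _ ((Matrix.isUnit_iff_isUnit_det _).1 (h i))
  rw [h1, bd_one]

theorem bd_transpose {r : ℕ} {n : Fin r → ℕ} (X : ∀ i, Matrix (Fin (n i)) (Fin (n i)) ℂ) :
    (bd X)ᵀ = bd fun i => (X i)ᵀ :=
  bd_ext (fun i a b => by rw [transpose_apply, bd_same, bd_same, transpose_apply])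
    (fun i j h a b => by rw [transpose_apply, bd_diff _ h, bd_diff _ h.symm])

theorem fam_stab (q D r : ℕ) (kk : Fin q → ℕ) (m : ∀ l, Fin (kk l) → ℕ) (hm : ∀ l i, 1 ≤ m l i)
    (β : ∀ l i, Fin (m l i) → ℚ) (hβ : ∀ l i j, ∀ a : ℤ, β l i j ≠ a)
    (hne : ∀ l i i', i ≠ i' → ¬ Eqv (β l i) (β l i')) :
    ∃ c C : ℝ, 0 < c ∧ 0 ≤ C ∧ ∀ K : Subfield ℂ, FiniteDimensional ℚ K → Module.finrank ℚ K ≤ D →
      ∀ (B₀ : Type) [Fintype B₀] [DecidableEq B₀] (c₀ : Matrix B₀ B₀ ℂ), Fintype.card B₀ ≤ r → IsUnit c₀ →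
      ∀ Ω : (∀ l i, Matrix (Fin (n2 m l i)) (Fin (n2 m l i)) ℂ), (∀ l i, IsUnit (Ω l i)) →
      ∀ (x : Fin q → ℕ) (N : ℕ), (∀ l, 1 ≤ x l) → 1 ≤ N →
      ∀ S : Finset (Fin q → ℕ), (∀ t ∈ S, (∀ l, x l < t l ∧ t l ≤ x l + N) ∧ ¬ StaB K c₀ β Ω t) →
      (S.card : ℝ) ≤ C * (N : ℝ) ^ (q - 1) * ∑ l, (1 + N / ((x l : ℝ) + N) ^ c) := by
  classical
  obtain ⟨d, hd⟩ := stabB (r + ∑ l, (2 + sz (n2 m) l))
  choose D' b hD' hb using fun l => exists_bb (β l)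
  obtain ⟨c, C, hc, hC, hmain⟩ := uni_tuples q d ((D + (r * r + 1) + 1) ^ (d + 1)) (sz (n2 m))
    (fun l => us_HH (β l) (hm l) (hβ l) (hD' l) (hb l)) (fun l => gd_HH (β l) (hm l) (hβ l) (hne l))
  refine ⟨c, C, hc, hC, ?_⟩
  intro K hKf hKD B₀ _ _ c₀ hr hc₀ Ω hΩ x N hx hN S hS
  obtain ⟨W, hW1, hW2, hKW, hW3⟩ := exists_W' K (fun o : Option (B₀ × B₀) => o.elim tpi fun b => c₀ b.1 b.2)
  have hKalg : ∀ x ∈ K, IsAlgebraic ℚ x := by
    intro x hx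
    have : NumberField K := { to_charZero := inferInstance, to_finiteDimensional := hKf }
    have h6 : IsAlgebraic ℚ (⟨x, hx⟩ : K) := Algebra.IsAlgebraic.isAlgebraic _
    exact h6.algebraMap (A := ℂ)
  have hKc : (K : Set ℂ).Countable := by
    have h1 : ({x : ℂ | IsAlgebraic ℚ x} : Set ℂ).Countable := Algebraic.countable ℚ ℂ
    exact h1.mono fun x hx => hKalg x hx
  obtain ⟨hp1, hp2⟩ := Pool.Agent.Y113.finrank_pow_le W (d + 1)
  have hWD : Module.finrank ℚ W ≤ D + (r * r + 1) + 1 := by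
    refine hW2.trans ?_
    rw [Fintype.card_option, Fintype.card_prod]
    have := Nat.mul_le_mul hr hr
    omega
  refine hmain (W ^ (d + 1)) (hp2.trans (Nat.pow_le_pow_left hWD _)) (fun l => bd (Ω l)) x N hx hN S fun t ht => ?_
  obtain ⟨hbox, hSt⟩ := hS t ht
  refine ⟨hbox, ?_⟩
  by_contra hcon
  apply hSt
  have ht2 : ∀ i, 2 ≤ t i := fun i => by
    have := (hbox i).1
    have := hx i
    omega
  intro T hT hcT
  refine hd B₀ q kk (n2 m) ?_ K hKc T c₀ _ tpi (fun l => bd (cB β Ω t l)) (PB β Ω) hT hc₀ (tpi_tr hKalg)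
    (fun l => bd_unit (cB_unit hm hβ hΩ ht2 l)) (PB_skew hm hβ Ω) (PB_det hm hβ hΩ) hcT ?_
  · rw [card_IM]
    exact Nat.add_le_add_right hr _
  · intro a g hg
    have hY : ∀ l, YT (NZ (m l)) (HH (β l)) (t l) = bd fun i => Yt (2 * m l i) (QB (β l i)) (t l) := fun l => YT_HH _ _
    have hcM : (fun l => bd (cB β Ω t l)) = fun l => (YT (NZ (m l)) (HH (β l)) (t l) * bd (Ω l))ᵀ := by
      funext l
      rw [hY, ← bd_mul, bd_transpose]
      rfl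
    have hΩi : ∀ l i, (Ω l i)⁻¹ * Ω l i = 1 := fun l i =>
      nonsing_inv_mul _ ((Matrix.isUnit_iff_isUnit_det _).1 (hΩ l i))
    have hΩi' : ∀ l i, Ω l i * (Ω l i)⁻¹ = 1 := fun l i =>
      mul_nonsing_inv _ ((Matrix.isUnit_iff_isUnit_det _).1 (hΩ l i))
    set Γ : ∀ l i, Matrix (Fin (n2 m l i)) (Fin (n2 m l i)) ℂ := fun l i =>
      Yt (2 * m l i) (QB (β l i)) (t l) * Ω l i * (g l i)ᵀ * (Ω l i)⁻¹ with hΓ
    have hgc : (fun l => bd (g l) * bd (cB β Ω t l)) = fun l => (bd (Γ l) * bd (Ω l))ᵀ := by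
      funext l
      rw [← bd_mul, ← bd_mul, bd_transpose]
      congr 1
      funext i
      show g l i * (Yt (2 * m l i) (QB (β l i)) (t l) * Ω l i)ᵀ =
        (Yt (2 * m l i) (QB (β l i)) (t l) * Ω l i * (g l i)ᵀ * (Ω l i)⁻¹ * Ω l i)ᵀ
      rw [Matrix.mul_assoc _ (Ω l i)⁻¹, hΩi, Matrix.mul_one,
        transpose_mul (Yt (2 * m l i) (QB (β l i)) (t l) * Ω l i) (g l i)ᵀ, transpose_transpose]
    have hgc' : (fun l => bd (g l) * (fun l => bd (cB β Ω t l)) l) = fun l => (bd (Γ l) * bd (Ω l))ᵀ := hgc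
    rw [hgc', hcM]
    refine Rl_of hKW (PhiM_DC (hKW 1 K.one_mem) (fun a b => hW3 (some (a, b))) (hW3 none))
      (y := pw (fun l => ((Real.log (t l) : ℝ) : ℂ)) fun l => YT (NZ (m l)) (HH (β l)) (t l) * bd (Ω l))
      (y' := pw (fun l => ((Real.log (t l) : ℝ) : ℂ) + a l * tpi) fun l => bd (Γ l) * bd (Ω l)) ?_
      (fun b => PhiM_eval c₀ tpi _ _ b) (fun b => PhiM_eval c₀ tpi _ _ b)
    intro P hPd hPV hP0
    by_contra hne'
    refine hcon ⟨P, hPd, hPV, hP0, _, _, fun l => mem_GS fun i => ?_, hne'⟩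
    have hQ := QD_QB (hm l i) (not_int (hβ l i))
    have hYf : (Yt (2 * m l i) (QB (β l i)) (t l))ᵀ * JJ (β l i) * Yt (2 * m l i) (QB (β l i)) (t l) = JJ (β l i) :=
      Yt_form hQ (ht2 l)
    have hPi := hg l i
    unfold PB at hPi
    have e1 : (Γ l i)ᵀ = ((Ω l i)⁻¹)ᵀ * (g l i * ((Ω l i)ᵀ * (Yt (2 * m l i) (QB (β l i)) (t l))ᵀ)) := by
      rw [hΓ]
      show (Yt (2 * m l i) (QB (β l i)) (t l) * Ω l i * (g l i)ᵀ * (Ω l i)⁻¹)ᵀ = _
      rw [transpose_mul, transpose_mul, transpose_mul, transpose_transpose]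
    have e2 : ((Ω l i)⁻¹)ᵀ * (Ω l i)ᵀ = 1 := by rw [← transpose_mul, hΩi', transpose_one]
    rw [e1]
    calc ((Ω l i)⁻¹)ᵀ * (g l i * ((Ω l i)ᵀ * (Yt (2 * m l i) (QB (β l i)) (t l))ᵀ)) * JJ (β l i) *
          (Yt (2 * m l i) (QB (β l i)) (t l) * Ω l i * (g l i)ᵀ * (Ω l i)⁻¹) =
        ((Ω l i)⁻¹)ᵀ * (g l i * ((Ω l i)ᵀ * ((Yt (2 * m l i) (QB (β l i)) (t l))ᵀ * JJ (β l i) *
          Yt (2 * m l i) (QB (β l i)) (t l)) * Ω l i) * (g l i)ᵀ) * (Ω l i)⁻¹ := by simp only [Matrix.mul_assoc]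
      _ = (((Ω l i)⁻¹)ᵀ * (Ω l i)ᵀ) * JJ (β l i) * (Ω l i * (Ω l i)⁻¹) := by
          rw [hYf, hPi]
          simp only [Matrix.mul_assoc]
      _ = JJ (β l i) := by rw [e2, hΩi', Matrix.one_mul, Matrix.mul_one]

end Pool.Agent.W2helper4.HJ
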