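import Mathlib

/-!
# Taylor series of analytic functions at the origin
-/

set_option autoImplicit false

open Filter Topology

namespace Pool.Agent.W2helper4.HJ

/-- the Taylor series at the origin -/
noncomputable def Ty (f : ℂ → ℂ) : PowerSeries ℂ := PowerSeries.mk fun j => iteratedDeriv j f 0 / (j.factorial : ℂ)

lemma Ty_coeff (f : ℂ → ℂ) (j : ℕ) : PowerSeries.coeff j (Ty f) = iteratedDeriv j f 0 / (j.factorial : ℂ) :=
  PowerSeries.coeff_mk _ _

variable {f g : ℂ → ℂ}

lemma Ty_mul (hf : AnalyticAt ℂ f 0) (hg : AnalyticAt ℂ g 0) : Ty (fun x => f x * g x) = Ty f * Ty g := by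
  ext j
  rw [Ty_coeff, PowerSeries.coeff_mul, Finset.Nat.sum_antidiagonal_eq_sum_range_succ_mk]
  have h1 : iteratedDeriv j (fun x => f x * g x) 0 = ∑ i ∈ Finset.range (j + 1),
      (j.choose i : ℂ) * iteratedDeriv i f 0 * iteratedDeriv (j - i) g 0 :=
    iteratedDeriv_fun_mul (hf.contDiffAt) (hg.contDiffAt)
  rw [h1, Finset.sum_div]
  refine Finset.sum_congr rfl fun i hi => ?_
  rw [Finset.mem_range, Nat.lt_succ_iff] at hi
  simp only [Ty_coeff]
  have h2 : (j.choose i : ℂ) * (i.factorial : ℂ) * ((j - i).factorial : ℂ) = (j.factorial : ℂ) := by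
    exact_mod_cast Nat.choose_mul_factorial_mul_factorial hi
  have h3 : (i.factorial : ℂ) ≠ 0 := by exact_mod_cast i.factorial_ne_zero
  have h4 : ((j - i).factorial : ℂ) ≠ 0 := by exact_mod_cast (j - i).factorial_ne_zero
  have h5 : (j.factorial : ℂ) ≠ 0 := by exact_mod_cast j.factorial_ne_zero
  rw [div_mul_div_comm, div_eq_div_iff h5 (mul_ne_zero h3 h4), ← h2]
  ring

lemma Ty_add (hf : AnalyticAt ℂ f 0) (hg : AnalyticAt ℂ g 0) : Ty (fun x => f x + g x) = Ty f + Ty g := by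
  ext j
  rw [map_add, Ty_coeff, Ty_coeff, Ty_coeff, ← add_div]
  congr 1
  exact iteratedDeriv_fun_add (hf.contDiffAt) (hg.contDiffAt)

lemma Ty_congr (h : f =ᶠ[𝓝 0] g) : Ty f = Ty g := by
  ext j
  rw [Ty_coeff, Ty_coeff, (h.iteratedDeriv j).eq_of_nhds]

lemma Ty_const (c : ℂ) : Ty (fun _ => c) = PowerSeries.C c := by
  ext j
  rw [Ty_coeff, PowerSeries.coeff_C, iteratedDeriv_const]
  split_ifs with h
  · subst h; simp
  · simp

lemma Ty_id : Ty (fun x => x) = PowerSeries.X := by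
  ext j
  rw [Ty_coeff, PowerSeries.coeff_X, iteratedDeriv_fun_id_zero]
  split_ifs with h
  · subst h; simp
  · simp

lemma Ty_sub (hf : AnalyticAt ℂ f 0) (hg : AnalyticAt ℂ g 0) : Ty (fun x => f x - g x) = Ty f - Ty g := by
  have h1 : (fun x => f x - g x) = fun x => f x + (-1) * g x := by funext x; ring
  rw [h1, Ty_add hf (analyticAt_const.fun_mul hg), Ty_mul analyticAt_const hg, Ty_const, map_neg, map_one, neg_one_mul,
    sub_eq_add_neg]

lemma Ty_pow (hf : AnalyticAt ℂ f 0) (k : ℕ) : Ty (fun x => f x ^ k) = Ty f ^ k := by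
  induction k with
  | zero => simp only [pow_zero]; rw [Ty_const, map_one]
  | succ k ih => simp only [pow_succ]; rw [Ty_mul (hf.fun_pow k) hf, ih]

lemma Ty_prod {ι : Type*} (s : Finset ι) {f : ι → ℂ → ℂ} (hf : ∀ i ∈ s, AnalyticAt ℂ (f i) 0) :
    Ty (fun x => ∏ i ∈ s, f i x) = ∏ i ∈ s, Ty (f i) := by
  classical
  induction s using Finset.induction_on with
  | empty => simp only [Finset.prod_empty]; rw [Ty_const, map_one]
  | insert a s ha ih =>
    simp only [Finset.prod_insert ha]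
    rw [Ty_mul (hf a (Finset.mem_insert_self _ _))
      (Finset.analyticAt_fun_prod s fun i hi => hf i (Finset.mem_insert_of_mem hi)),
      ih fun i hi => hf i (Finset.mem_insert_of_mem hi)]

lemma Ty_inv (hf : AnalyticAt ℂ f 0) (h0 : f 0 ≠ 0) : Ty f * Ty (fun x => (f x)⁻¹) = 1 := by
  rw [← Ty_mul hf (hf.fun_inv h0), ← map_one (PowerSeries.C (R := ℂ)), ← Ty_const]
  apply Ty_congr
  filter_upwards [hf.continuousAt.eventually_ne h0] with x hx
  exact mul_inv_cancel₀ hx

lemma Ty_neg (f : ℂ → ℂ) : Ty (fun x => f (-x)) = PowerSeries.rescale (-1) (Ty f) := by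
  ext j
  rw [PowerSeries.coeff_rescale, Ty_coeff, Ty_coeff, iteratedDeriv_comp_neg, neg_zero, smul_eq_mul, mul_div_assoc]

lemma Ty_zero_coeff (f : ℂ → ℂ) : PowerSeries.coeff 0 (Ty f) = f 0 := by
  rw [Ty_coeff]; simp

lemma Ty_aeval {P : Polynomial ℚ} (hf : AnalyticAt ℂ f 0) :
    AnalyticAt ℂ (fun x => Polynomial.aeval (f x) P) 0 ∧
      Ty (fun x => Polynomial.aeval (f x) P) = Polynomial.aeval (Ty f) P := by
  induction P using Polynomial.induction_on' with
  | add p q hp hq =>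
    simp only [map_add]
    exact ⟨hp.1.add hq.1, by rw [Ty_add hp.1 hq.1, hp.2, hq.2]⟩
  | monomial k a =>
    simp only [Polynomial.aeval_monomial]
    refine ⟨analyticAt_const.fun_mul (hf.fun_pow k), ?_⟩
    rw [Ty_mul analyticAt_const (hf.fun_pow k), Ty_pow hf, Ty_const]
    congr 1
    exact congrArg (fun φ : ℚ →+* PowerSeries ℂ => φ a)
      (Subsingleton.elim ((PowerSeries.C (R := ℂ)).comp (algebraMap ℚ ℂ)) (algebraMap ℚ (PowerSeries ℂ)))

/-- locally uniform limits: the coefficients converge -/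
lemma Ty_tendsto {F : ℕ → ℂ → ℂ} {f : ℂ → ℂ} {U : Set ℂ} (hU : IsOpen U) (h0 : (0 : ℂ) ∈ U)
    (h : TendstoLocallyUniformlyOn F f atTop U) (hF : ∀ k, DifferentiableOn ℂ (F k) U) (j : ℕ) :
    Tendsto (fun k => PowerSeries.coeff j (Ty (F k))) atTop (𝓝 (PowerSeries.coeff j (Ty f))) := by
  simp only [Ty_coeff]
  refine Tendsto.div_const ?_ _
  have key : TendstoLocallyUniformlyOn (fun k => iteratedDeriv j (F k)) (iteratedDeriv j f) atTop U ∧
      ∀ k, DifferentiableOn ℂ (iteratedDeriv j (F k)) U := by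
    induction j with
    | zero =>
      simp only [iteratedDeriv_zero]
      exact ⟨h, hF⟩
    | succ j ih =>
      simp only [iteratedDeriv_succ]
      refine ⟨ih.1.deriv (Eventually.of_forall ih.2) hU, fun k => ?_⟩
      exact (ih.2 k).deriv hU
  exact key.1.tendsto_at h0

end Pool.Agent.W2helper4.HJ
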